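import Pool.Agent.MZF.St2
import Pool.Agent.MZF.Any

set_option autoImplicit false

/-!
# Counting with disjoint boxes, subspaces (as Any.lean of helper13)
-/

namespace Pool.Agent.MZF

open Finset
open Pool.Agent.Helper21 (zl Adm)
open Pool.Agent.MZA (Idx)

theorem any_out_finite {K : IntermediateField ℚ ℝ} (n r : ℕ) (V : Sub K) : (OutEv n r V).Finite :=
  (any_idx_finite n).subset fun _ hw => hw.1.1

theorem thm_GoodV : St_GoodV := by
  classical
  intro K s n V hs
  let F : Finset (List ℕ) := (any_out_finite n (s + 1) V).toFinset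
  let G : Finset (List ℕ) := (range (s + 1)).biUnion fun p => F.image fun w => w.eraseIdx p
  have hsub : (List.ofFn : (Fin s → ℕ) → List ℕ) '' (Low s n \ BadV s n V) ⊆ (G : Set (List ℕ)) := by
    rintro _ ⟨v, ⟨hv, hb⟩, rfl⟩
    have hlen : (List.ofFn v).length = s := List.length_ofFn
    set b : ℕ := n - ∑ i, v i with hbdef
    have hb2 : 2 ≤ b := by
      have := hv.2.2.1
      omega
    have hna : ins b (List.ofFn v) ∉ V := fun h => hb ⟨hv, h⟩
    have hex : ∃ p ∈ range (s + 1), zl ((List.ofFn v).insertIdx p b) ∉ V := by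
      by_contra hcon
      push Not at hcon
      apply hna
      unfold ins
      rw [hlen]
      exact Submodule.sum_mem _ hcon
    obtain ⟨p, hp, hpa⟩ := hex
    have hp' : p ≤ s := Nat.lt_succ_iff.1 (mem_range.1 hp)
    have hpl : p ≤ (List.ofFn v).length := hlen.symm ▸ hp'
    have hmem : ∀ a : ℕ, a ∈ (List.ofFn v).insertIdx p b ↔ a = b ∨ a ∈ List.ofFn v :=
      fun a => List.mem_insertIdx hpl
    refine Finset.mem_coe.2 (mem_biUnion.2 ⟨p, hp, mem_image.2
      ⟨(List.ofFn v).insertIdx p b, (Set.Finite.mem_toFinset _).2 ⟨⟨⟨?_, ?_, ?_⟩, ?_, ?_⟩, hpa⟩, ?_⟩⟩)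
    · intro a ha
      rcases (hmem a).1 ha with rfl | ha
      · omega
      · obtain ⟨i, rfl⟩ := List.mem_ofFn.1 ha
        exact hv.1 i
    · intro a t hat
      obtain ⟨s', rfl⟩ : ∃ s', s = s' + 1 := ⟨s - 1, by omega⟩
      rcases Nat.eq_zero_or_pos p with h0 | h0
      · subst h0
        have h1 : (List.ofFn v).insertIdx 0 b = b :: List.ofFn v := rfl
        rw [h1] at hat
        have h2 := (List.cons.inj hat).1
        omega
      · obtain ⟨p', rfl⟩ : ∃ p', p = p' + 1 := ⟨p - 1, by omega⟩
        rw [List.ofFn_succ, List.insertIdx_succ_cons] at hat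
        have h2 := (List.cons.inj hat).1
        have h3 := hv.2.1 0 rfl
        omega
    · rw [any_insertIdx_sum _ _ _ hpl, List.sum_ofFn]
      have := hv.2.2.1
      omega
    · rw [List.length_insertIdx_of_le_length hpl, hlen]
    · exact ⟨b, (hmem b).2 (Or.inl rfl), hv.2.2.2⟩
    · exact List.eraseIdx_insertIdx_self b
  have h1 : (Low s n \ BadV s n V).ncard =
      ((List.ofFn : (Fin s → ℕ) → List ℕ) '' (Low s n \ BadV s n V)).ncard :=
    (Set.ncard_image_of_injective _ List.ofFn_injective).symm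
  rw [h1]
  refine (Set.ncard_le_ncard hsub G.finite_toSet).trans ?_
  rw [Set.ncard_coe_finset]
  refine card_biUnion_le.trans ?_
  have h2 : (OutEv n (s + 1) V).ncard = F.card := Set.ncard_eq_toFinset_card _ _
  rw [h2]
  refine (Finset.sum_le_sum fun p _ => card_image_le).trans ?_
  rw [Finset.sum_const, card_range, smul_eq_mul]

theorem thm_AnyV (h : St_BoxV) : St_AnyV := by
  classical
  intro K hK s k V N hs hfd hfr hk hN hpar
  rcases Nat.eq_zero_or_pos (N 0 / (4 * (s + 1))) with hT0 | hT0
  · rw [hT0, zero_pow (by omega)]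
    exact Nat.zero_le _
  obtain ⟨T', hT'⟩ : ∃ T', N 0 / (4 * (s + 1)) = T' + 1 := ⟨N 0 / (4 * (s + 1)) - 1, by omega⟩
  rw [hT']
  have hbig : 4 * (s * T') + 4 * s + 4 * T' + 4 ≤ N 0 := by
    have h1 := Nat.div_mul_le_self (N 0) (4 * (s + 1))
    rw [hT'] at h1
    calc 4 * (s * T') + 4 * s + 4 * T' + 4 = (T' + 1) * (4 * (s + 1)) := by ring
      _ ≤ N 0 := h1
  set i0 : Fin s := ⟨0, hs⟩ with hi0
  set d : ℕ := (s + 1 + N 0) % 2 with hd
  let v : (Fin s → Fin (T' + 1)) → Fin s → ℕ := fun t i =>
    (if i = i0 then 1 + d else 0) + (1 + 4 * (t i : ℕ))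
  let w : (Fin s → Fin (T' + 1)) → Fin s → ℕ := fun t i => v t i + 2
  have hcor : ∀ t e i, cor (v t) (w t) e i = v t i + (if i ∈ e then 2 else 0) := by
    intro t e i
    unfold cor
    by_cases hie : i ∈ e
    · rw [if_pos hie, if_pos hie]
    · rw [if_neg hie, if_neg hie, add_zero]
  have hsum : ∀ t e, ∑ i, cor (v t) (w t) e i =
      (1 + d + s + 4 * ∑ i, (t i : ℕ)) + 2 * e.card := by
    intro t e
    rw [Finset.sum_congr rfl fun i _ => hcor t e i, Finset.sum_add_distrib]
    have h1 : ∑ i, v t i = 1 + d + s + 4 * ∑ i, (t i : ℕ) := by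
      change ∑ i, ((if i = i0 then 1 + d else 0) + (1 + 4 * (t i : ℕ))) = _
      rw [Finset.sum_add_distrib, Finset.sum_ite_eq' univ i0, if_pos (mem_univ _),
        Finset.sum_add_distrib, Finset.sum_const, card_univ, Fintype.card_fin, smul_eq_mul, mul_one,
        ← Finset.mul_sum]
      ring
    have h2 : ∑ i, (if i ∈ e then 2 else 0) = 2 * e.card := by
      rw [Finset.sum_ite_mem, univ_inter, Finset.sum_const, smul_eq_mul, mul_comm]
    rw [h1, h2]
  have hlow : ∀ t e i, cor (v t) (w t) e ∈ Low s (N i) := by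
    intro t e i
    have hle : N 0 ≤ N i := hN.monotone (Fin.zero_le i)
    have hτ : ∑ j, (t j : ℕ) ≤ s * T' := by
      calc ∑ j, (t j : ℕ) ≤ ∑ _j : Fin s, T' :=
            Finset.sum_le_sum fun j _ => Nat.lt_succ_iff.1 (t j).2
        _ = s * T' := by
            rw [Finset.sum_const, card_univ, Fintype.card_fin, smul_eq_mul]
    have he : e.card ≤ s := by
      have h1 := Finset.card_le_univ e
      rwa [Fintype.card_fin] at h1
    obtain ⟨k', hk'⟩ := hpar i
    have hd2 : d < 2 := Nat.mod_lt _ two_pos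
    refine ⟨fun j => ?_, fun j hj => ?_, ?_, ?_⟩
    · rw [hcor]
      change 1 ≤ (if j = i0 then 1 + d else 0) + (1 + 4 * (t j : ℕ)) + _
      omega
    · rw [hcor]
      have hj0 : j = i0 := Fin.ext hj
      change 2 ≤ (if j = i0 then 1 + d else 0) + (1 + 4 * (t j : ℕ)) + _
      rw [if_pos hj0]
      omega
    · rw [hsum]
      omega
    · rw [hsum, Nat.even_iff]
      omega
  have hex : ∀ t, ∃ i e, cor (v t) (w t) e ∉ BadV s (N i) V := by
    intro t
    by_contra hcon
    push Not at hcon
    have hle := h K hK s (v t) (w t) V k (univ.image N) hs hfd hfr hk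
      (fun i => Nat.lt_add_of_pos_right two_pos) ?_
    · rw [Finset.card_image_of_injective _ hN.injective, card_univ, Fintype.card_fin] at hle
      have hsub : (univ : Finset (Finset (Fin s))).image (fun e => ∑ i, cor (v t) (w t) e i) ⊆
          (range (s + 1)).image fun k => (1 + d + s + 4 * ∑ i, (t i : ℕ)) + 2 * k := by
        intro y hy
        obtain ⟨e, -, rfl⟩ := mem_image.1 hy
        refine mem_image.2 ⟨e.card, mem_range.2 ?_, (hsum t e).symm⟩
        have h1 := Finset.card_le_univ e
        rw [Fintype.card_fin] at h1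
        omega
      have h2 := (Finset.card_le_card hsub).trans card_image_le
      rw [card_range] at h2
      have h3 := Nat.mul_le_mul_left k h2
      omega
    · intro M hM e
      obtain ⟨i, -, rfl⟩ := mem_image.1 hM
      exact hcon i e
  choose fi fe hfe using hex
  have hfin : ∀ i, (Low s (N i) \ BadV s (N i) V).Finite := fun i =>
    (any_low_finite s (N i)).subset Set.sdiff_subset
  have hinj : Function.Injective fun t => cor (v t) (w t) (fe t) := by
    intro t t' htt
    funext i
    have h1 := congrFun htt i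
    change cor (v t) (w t) (fe t) i = cor (v t') (w t') (fe t') i at h1
    rw [hcor, hcor] at h1
    change (if i = i0 then 1 + d else 0) + (1 + 4 * (t i : ℕ)) + _ =
      (if i = i0 then 1 + d else 0) + (1 + 4 * (t' i : ℕ)) + _ at h1
    refine Fin.ext ?_
    split_ifs at h1 <;> omega
  have hcard : (univ : Finset (Fin s → Fin (T' + 1))).card ≤
      ((univ : Finset (Fin (k * (s + 1) + 1))).biUnion fun i => (hfin i).toFinset).card :=
    Finset.card_le_card_of_injOn (fun t => cor (v t) (w t) (fe t))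
      (fun t _ => Finset.mem_coe.2 (mem_biUnion.2 ⟨fi t, mem_univ _,
        (Set.Finite.mem_toFinset _).2 ⟨hlow t (fe t) (fi t), hfe t⟩⟩))
      (fun t _ t' _ htt => hinj htt)
  have h0 : (univ : Finset (Fin s → Fin (T' + 1))).card = (T' + 1) ^ s := by
    rw [card_univ, Fintype.card_fun, Fintype.card_fin, Fintype.card_fin]
  rw [h0] at hcard
  refine hcard.trans (card_biUnion_le.trans ?_)
  rw [Finset.mul_sum]
  refine Finset.sum_le_sum fun i _ => ?_
  have h3 := thm_GoodV K s (N i) V hs
  rwa [Set.ncard_eq_toFinset_card _ (hfin i)] at h3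

end Pool.Agent.MZF
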