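import Pool.Agent.MZF.St
import Pool.Agent.MZD.Dz

set_option autoImplicit false

namespace Pool.Agent.MZF

open Finset
open Pool.Agent.Helper21 (zl Adm)
open Pool.Agent.MZA (thm_Zev)

theorem box_cancel {s : ℕ} (j : Fin s) (F : Finset (Fin s) → ℝ)
    (h : ∀ e, F (insert j e) = F e) :
    ∑ e : Finset (Fin s), (-1 : ℝ) ^ e.card * F e = 0 := by
  classical
  have h1 : (univ : Finset (Finset (Fin s))) = (insert j (univ.erase j)).powerset := by
    rw [insert_erase (mem_univ j), powerset_univ]
  rw [h1, sum_powerset_insert (notMem_erase j univ), ← sum_add_distrib]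
  apply sum_eq_zero
  intro t ht
  have hj : j ∉ t := fun hj => notMem_erase j univ (mem_powerset.1 ht hj)
  rw [card_insert_of_notMem hj, h, pow_succ]
  ring

theorem box_set {s : ℕ} (f : Fin s → ℕ) (j : Fin s) (a : ℕ) :
    (List.ofFn f).set j a = List.ofFn (Function.update f j a) := by
  apply List.ext_getElem
  · simp
  · intro i h1 h2
    rw [List.getElem_set]
    simp only [List.getElem_ofFn]
    by_cases h : (j : ℕ) = i
    · subst h
      simp
    · rw [if_neg h, Function.update_of_ne]
      intro h3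
      exact h (congrArg Fin.val h3).symm

theorem box_get {s : ℕ} (f : Fin s → ℕ) (j : Fin s) : (List.ofFn f).getD j 0 = f j := by
  rw [List.getD_eq_getElem _ _ (by simp)]
  simp

theorem box_adm {s n : ℕ} {f : Fin s → ℕ} (h : f ∈ Low s n) : Adm (List.ofFn f) := by
  obtain ⟨h1, h2, -, -⟩ := h
  refine ⟨fun a ha => ?_, fun a t hat => ?_⟩
  · rw [List.mem_ofFn] at ha
    obtain ⟨i, rfl⟩ := ha
    exact h1 i
  · cases s with
    | zero => simp at hat
    | succ s =>
      rw [List.ofFn_succ] at hat
      have := (List.cons.inj hat).1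
      rw [← this]
      exact h2 0 rfl

/-- the alternating sum of the products is that of the insertions -/
theorem box_id (hI : St_Ins) {s N : ℕ} (v w : Fin s → ℕ) (h : ∀ e, cor v w e ∈ Low s N) :
    ∑ e : Finset (Fin s), (-1 : ℝ) ^ e.card *
      (zl [N - ∑ i, cor v w e i] * zl (List.ofFn (cor v w e))) =
    ∑ e : Finset (Fin s), (-1 : ℝ) ^ e.card *
      ins (N - ∑ i, cor v w e i) (List.ofFn (cor v w e)) := by
  classical
  have h2 : ∀ e, 2 ≤ N - ∑ i, cor v w e i := by
    intro e
    have := (h e).2.2.1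
    omega
  have h3 : ∀ e : Finset (Fin s), (-1 : ℝ) ^ e.card *
      (zl [N - ∑ i, cor v w e i] * zl (List.ofFn (cor v w e))) =
      (-1 : ℝ) ^ e.card * ins (N - ∑ i, cor v w e i) (List.ofFn (cor v w e)) +
      ∑ j : Fin s, (-1 : ℝ) ^ e.card * zl (List.ofFn (Function.update (cor v w e) j
        (cor v w e j + (N - ∑ i, cor v w e i)))) := by
    intro e
    rw [hI _ _ (h2 e) (box_adm (h e)), mul_add, List.length_ofFn, Finset.sum_range, Finset.mul_sum]
    congr 1
    apply Finset.sum_congr rfl
    intro j _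
    rw [box_get, box_set]
  rw [Finset.sum_congr rfl (fun e _ => h3 e), Finset.sum_add_distrib, Finset.sum_comm]
  have h4 : ∀ j : Fin s, ∑ e : Finset (Fin s), (-1 : ℝ) ^ e.card *
      zl (List.ofFn (Function.update (cor v w e) j
        (cor v w e j + (N - ∑ i, cor v w e i)))) = 0 := by
    intro j
    apply box_cancel j
    intro e
    have e1 : ∀ i, i ≠ j → cor v w (insert j e) i = cor v w e i := by
      intro i hi
      unfold cor
      have : i ∈ insert j e ↔ i ∈ e := by
        rw [mem_insert]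
        exact ⟨fun h => h.resolve_left hi, Or.inr⟩
      simp only [this]
    have e2 : ∑ i ∈ univ.erase j, cor v w (insert j e) i = ∑ i ∈ univ.erase j, cor v w e i :=
      Finset.sum_congr rfl fun i hi => e1 i (ne_of_mem_erase hi)
    have e3 := Finset.add_sum_erase univ (cor v w e) (mem_univ j)
    have e4 := Finset.add_sum_erase univ (cor v w (insert j e)) (mem_univ j)
    have e5 := (h e).2.2.1
    have e6 := (h (insert j e)).2.2.1
    have e7 : cor v w (insert j e) j + (N - ∑ i, cor v w (insert j e) i) =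
        cor v w e j + (N - ∑ i, cor v w e i) := by
      rw [e2] at e4
      omega
    rw [e7]
    congr 2
    funext i
    by_cases hi : i = j
    · rw [hi, Function.update_self, Function.update_self]
    · rw [Function.update_of_ne hi, Function.update_of_ne hi, e1 i hi]
  rw [Finset.sum_eq_zero fun j _ => h4 j, add_zero]

/-- BOX -/
theorem thm_Box (hI : St_Ins) (hT : St_Tp) : St_Box := by
  classical
  intro s v w x S hs hx hvw hcard hbad
  set D : Finset (Fin s) → ℕ := fun e => ∑ i, cor v w e i with hD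
  set T : Finset ℕ := (univ : Finset (Finset (Fin s))).image D with hTdef
  set u : Finset (Fin s) → List ℕ := fun e => List.ofFn (cor v w e) with hu
  set Z : ℕ → ℝ := fun m => ∑ e ∈ univ.filter (fun e => D e = m), (-1 : ℝ) ^ e.card * zl (u e)
    with hZ
  -- the sums over the corners
  have hmaps : ∀ e ∈ (univ : Finset (Finset (Fin s))), D e ∈ T := fun e _ =>
    mem_image_of_mem D (mem_univ e)
  have hsum : ∀ N ∈ S, ∑ m ∈ T, Z m * zl [N - m] =
      ∑ e : Finset (Fin s), (-1 : ℝ) ^ e.card * ins (N - D e) (u e) := by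
    intro N hN
    rw [← box_id hI v w (fun e => (hbad N hN e).1), ← Finset.sum_fiberwise_of_maps_to hmaps]
    apply Finset.sum_congr rfl
    intro m _
    rw [hZ, Finset.sum_mul]
    apply Finset.sum_congr rfl
    intro e he
    rw [mem_filter] at he
    have : ∑ i, cor v w e i = m := he.2
    rw [this]
    ring
  -- the coefficients
  have hβ : ∀ N ∈ S, ∃ b : algebraicClosure ℚ ℝ,
      ∑ m ∈ T, Z m * zl [N - m] = algebraMap (algebraicClosure ℚ ℝ) ℝ b * x := by
    intro N hN
    have h1 : ∀ e : Finset (Fin s), ∃ b : algebraicClosure ℚ ℝ,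
        ins (N - D e) (u e) = algebraMap (algebraicClosure ℚ ℝ) ℝ b * x := by
      intro e
      refine ⟨⟨_, mem_algebraicClosure_iff.2 (hbad N hN e).2⟩, ?_⟩
      exact (div_mul_cancel₀ _ hx).symm
    choose b hb using h1
    refine ⟨∑ e, (-1) ^ e.card * b e, ?_⟩
    rw [hsum N hN, map_sum, Finset.sum_mul]
    apply Finset.sum_congr rfl
    intro e _
    rw [hb, map_mul, map_pow, map_neg, map_one]
    ring
  have hm2 : ∀ m ∈ T, ∀ N ∈ S, m + 2 ≤ N := by
    intro m hm N hN
    rw [hTdef, mem_image] at hm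
    obtain ⟨e, -, rfl⟩ := hm
    exact (hbad N hN e).1.2.2.1
  have hev : ∀ m ∈ T, ∀ N ∈ S, Even (N - m) := by
    intro m hm N hN
    rw [hTdef, mem_image] at hm
    obtain ⟨e, -, rfl⟩ := hm
    exact (hbad N hN e).1.2.2.2
  -- the rational numbers
  have hQ : ∀ k : ℕ, ∃ q : ℚ, 2 ≤ k → Even k → zl [k] = q * Real.pi ^ k := by
    intro k
    by_cases hk : 2 ≤ k ∧ Even k
    · obtain ⟨j, hj⟩ := hk.2
      obtain ⟨q, -, hq⟩ := thm_Zev j (by omega)
      refine ⟨q, fun _ _ => ?_⟩
      have : k = 2 * j := by omega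
      rw [this]
      exact hq
    · exact ⟨0, fun h1 h2 => absurd ⟨h1, h2⟩ hk⟩
  choose q hq using hQ
  obtain ⟨g, hg⟩ := Pool.Agent.MZD.coord x Real.pi⁻¹ hx Pool.Agent.MZD.pi_inv_trans
  choose! b hb using hβ
  have hpi : Real.pi * Real.pi⁻¹ = 1 := mul_inv_cancel₀ Real.pi_ne_zero
  -- coordinates of the equations
  have hco : ∀ N ∈ S, ∀ n, ∑ m ∈ T, algebraMap ℚ (algebraicClosure ℚ ℝ) (q (N - m)) *
      g (Z m * Real.pi⁻¹ ^ m) n = if n = N then b N else 0 := by
    intro N hN n
    have h2 : ∑ m ∈ T, algebraMap ℚ (algebraicClosure ℚ ℝ) (q (N - m)) •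
        (Z m * Real.pi⁻¹ ^ m) = b N • (x * Real.pi⁻¹ ^ N) := by
      rw [Algebra.smul_def, ← mul_assoc, ← hb N hN, Finset.sum_mul]
      apply Finset.sum_congr rfl
      intro m hm
      have h3 := hm2 m hm N hN
      have e1 : algebraMap (algebraicClosure ℚ ℝ) ℝ
          (algebraMap ℚ (algebraicClosure ℚ ℝ) (q (N - m))) = (q (N - m) : ℝ) := by
        rw [← IsScalarTower.algebraMap_apply]
        rfl
      have e2 : Real.pi⁻¹ ^ N = Real.pi⁻¹ ^ m * Real.pi⁻¹ ^ (N - m) := by
        rw [← pow_add]
        congr 1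
        omega
      have e3 : Real.pi ^ (N - m) * Real.pi⁻¹ ^ (N - m) = 1 := by
        rw [← mul_pow, hpi, one_pow]
      rw [Algebra.smul_def, e1, hq (N - m) (by omega) (hev m hm N hN), e2]
      calc (q (N - m) : ℝ) * (Z m * Real.pi⁻¹ ^ m) = (q (N - m) : ℝ) * (Z m * Real.pi⁻¹ ^ m) *
            (Real.pi ^ (N - m) * Real.pi⁻¹ ^ (N - m)) := by rw [e3, mul_one]
        _ = _ := by ring
    have h3 := congrArg (fun z => (g z) n) h2
    simp only [map_sum, map_smul, hg, Finsupp.coe_finsetSum, Finset.sum_apply, Finsupp.smul_apply,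
      smul_eq_mul, Finsupp.single_apply] at h3
    rw [h3]
    by_cases h4 : n = N
    · rw [if_pos h4.symm, if_pos h4, mul_one]
    · rw [if_neg (Ne.symm h4), if_neg h4, mul_zero]
  -- the right hand sides are zero
  have hb0 : ∀ n ∈ S, b n = 0 := by
    intro n hn
    have h1 := hT T (S.erase n) (fun m => algebraMap (algebraicClosure ℚ ℝ) ℝ
      (g (Z m * Real.pi⁻¹ ^ m) n) * Real.pi ^ m)
      (by rw [card_erase_of_mem hn]; exact Nat.le_sub_one_of_lt hcard)
      (fun m hm N hN => hm2 m hm N (mem_of_mem_erase hN)) (by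
        intro N hN
        have hN' := mem_of_mem_erase hN
        have h2 := hco N hN' n
        rw [if_neg (ne_of_mem_erase hN).symm] at h2
        have h3 := congrArg (algebraMap (algebraicClosure ℚ ℝ) ℝ) h2
        rw [map_sum, map_zero] at h3
        have h4 : ∑ m ∈ T, algebraMap (algebraicClosure ℚ ℝ) ℝ (g (Z m * Real.pi⁻¹ ^ m) n) *
            Real.pi ^ m * zl [N - m] = Real.pi ^ N * ∑ m ∈ T, algebraMap (algebraicClosure ℚ ℝ) ℝ
              (algebraMap ℚ (algebraicClosure ℚ ℝ) (q (N - m)) * g (Z m * Real.pi⁻¹ ^ m) n) := by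
          rw [Finset.mul_sum]
          apply Finset.sum_congr rfl
          intro m hm
          have h3 := hm2 m hm N hN'
          have e1 : algebraMap (algebraicClosure ℚ ℝ) ℝ
              (algebraMap ℚ (algebraicClosure ℚ ℝ) (q (N - m))) = (q (N - m) : ℝ) := by
            rw [← IsScalarTower.algebraMap_apply]
            rfl
          have e2 : Real.pi ^ N = Real.pi ^ m * Real.pi ^ (N - m) := by
            rw [← pow_add]
            congr 1
            omega
          rw [hq (N - m) (by omega) (hev m hm N hN'),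
            map_mul (algebraMap (algebraicClosure ℚ ℝ) ℝ), e1, e2]
          ring
        rw [h4, h3, mul_zero])
    have h2 : ∀ m ∈ T, g (Z m * Real.pi⁻¹ ^ m) n = 0 := by
      intro m hm
      have h3 := h1 m hm
      rcases mul_eq_zero.1 h3 with h4 | h4
      · exact (map_eq_zero_iff _ (algebraMap (algebraicClosure ℚ ℝ) ℝ).injective).1 h4
      · exact absurd h4 (pow_ne_zero _ Real.pi_ne_zero)
    have h3 := hco n hn n
    rw [if_pos rfl] at h3
    rw [← h3]
    apply Finset.sum_eq_zero
    intro m hm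
    rw [h2 m hm, mul_zero]
  -- so all `Z m` are zero
  have hZ0 := hT T S Z hcard.le hm2 (by
    intro N hN
    rw [hb N hN, hb0 N hN, map_zero, zero_mul])
  have h1 := hZ0 (D ∅) (hmaps ∅ (mem_univ ∅))
  have h2 : univ.filter (fun e => D e = D ∅) = {∅} := by
    ext e
    rw [mem_filter, mem_singleton]
    constructor
    · rintro ⟨-, he⟩
      by_contra hne
      obtain ⟨i, hi⟩ := Finset.nonempty_iff_ne_empty.2 hne
      have h3 : D ∅ < D e := by
        apply Finset.sum_lt_sum
        · intro j _
          unfold cor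
          rw [if_neg (notMem_empty j)]
          split_ifs
          · exact (hvw j).le
          · exact le_rfl
        · refine ⟨i, mem_univ i, ?_⟩
          unfold cor
          rw [if_neg (notMem_empty i), if_pos hi]
          exact hvw i
      omega
    · rintro rfl
      exact ⟨mem_univ _, rfl⟩
  have h3 : Z (D ∅) = zl (u ∅) := by
    rw [hZ]
    simp only
    rw [h2, sum_singleton, card_empty, pow_zero, one_mul]
  obtain ⟨N, hN⟩ : S.Nonempty := by
    rw [← Finset.card_pos]
    omega
  have h4 := Pool.Agent.MZA.main_zl_pos (u ∅) (box_adm (hbad N hN ∅).1)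
  rw [h1] at h3
  rw [← h3] at h4
  exact lt_irrefl _ h4

end Pool.Agent.MZF
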