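import Pool.Agent.MZF.St2
import Pool.Agent.MZF.Box

set_option autoImplicit false

namespace Pool.Agent.MZF

open Finset
open Pool.Agent.Helper21 (zl Adm)
open Pool.Agent.MZA (thm_Zev)

/-- coordinates with respect to a linearly independent family -/
theorem boxv_coord {K L κ : Type} [Field K] [AddCommGroup L] [Module K L] (b : κ → L)
    (h : LinearIndependent K b) : ∃ g : L →ₗ[K] (κ →₀ K), ∀ i, g (b i) = Finsupp.single i 1 := by
  obtain ⟨g, hg⟩ := LinearMap.exists_extend (h.repr : _ →ₗ[K] _)
  refine ⟨g, fun i => ?_⟩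
  have hmem : b i ∈ Submodule.span K (Set.range b) := Submodule.subset_span ⟨i, rfl⟩
  have h1 := LinearMap.congr_fun hg ⟨b i, hmem⟩
  have h2 : g (b i) = h.repr ⟨b i, hmem⟩ := h1
  rw [h2]
  exact h.repr_eq_single i ⟨b i, hmem⟩ rfl

/-- BOXV -/
theorem thm_BoxV (hI : St_Ins) (hT : St_Tp) (hF : St_Flg) : St_BoxV := by
  classical
  intro K hK s v w V k S hs hfd hfr hk hvw hbad
  rcases S.eq_empty_or_nonempty with hSe | hSne
  · rw [hSe, card_empty]
    exact Nat.zero_le _
  set D : Finset (Fin s) → ℕ := fun e => ∑ i, cor v w e i with hD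
  set T : Finset ℕ := (univ : Finset (Finset (Fin s))).image D with hTdef
  set u : Finset (Fin s) → List ℕ := fun e => List.ofFn (cor v w e) with hu
  set Z : ℕ → ℝ := fun m => ∑ e ∈ univ.filter (fun e => D e = m), (-1 : ℝ) ^ e.card * zl (u e)
    with hZ
  have hmaps : ∀ e ∈ (univ : Finset (Finset (Fin s))), D e ∈ T := fun e _ =>
    mem_image_of_mem D (mem_univ e)
  have hsum : ∀ N ∈ S, ∑ m ∈ T, Z m * zl [N - m] =
      ∑ e : Finset (Fin s), (-1 : ℝ) ^ e.card * ins (N - D e) (u e) := by
    intro N hN
    rw [← box_id hI v w (fun e => (hbad N hN e).1), ← Finset.sum_fiberwise_of_maps_to hmaps]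
    apply Finset.sum_congr rfl
    intro m _
    rw [hZ, Finset.sum_mul]
    apply Finset.sum_congr rfl
    intro e he
    rw [mem_filter] at he
    have : ∑ i, cor v w e i = m := he.2
    rw [this]
    ring
  have hVN : ∀ N ∈ S, ∑ m ∈ T, Z m * zl [N - m] ∈ V := by
    intro N hN
    rw [hsum N hN]
    apply Submodule.sum_mem
    intro e _
    have h1 : (-1 : ℝ) ^ e.card * ins (N - D e) (u e) =
        ((-1 : K) ^ e.card) • ins (N - D e) (u e) := by
      rw [Algebra.smul_def, map_pow, map_neg, map_one]
    rw [h1]
    exact V.smul_mem _ (hbad N hN e).2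
  have hm2 : ∀ m ∈ T, ∀ N ∈ S, m + 2 ≤ N := by
    intro m hm N hN
    rw [hTdef, mem_image] at hm
    obtain ⟨e, -, rfl⟩ := hm
    exact (hbad N hN e).1.2.2.1
  have hev : ∀ m ∈ T, ∀ N ∈ S, Even (N - m) := by
    intro m hm N hN
    rw [hTdef, mem_image] at hm
    obtain ⟨e, -, rfl⟩ := hm
    exact (hbad N hN e).1.2.2.2
  have hQ : ∀ k : ℕ, ∃ q : ℚ, 2 ≤ k → Even k → zl [k] = q * Real.pi ^ k := by
    intro k
    by_cases hk : 2 ≤ k ∧ Even k
    · obtain ⟨j, hj⟩ := hk.2
      obtain ⟨q, -, hq⟩ := thm_Zev j (by omega)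
      refine ⟨q, fun _ _ => ?_⟩
      have : k = 2 * j := by omega
      rw [this]
      exact hq
    · exact ⟨0, fun h1 h2 => absurd ⟨h1, h2⟩ hk⟩
  choose q hq using hQ
  have hpi : Real.pi * Real.pi⁻¹ = 1 := mul_inv_cancel₀ Real.pi_ne_zero
  have hamap : ∀ a : ℚ, algebraMap K ℝ
      (algebraMap ℚ K a) = (a : ℝ) := by
    intro a
    rw [← IsScalarTower.algebraMap_apply]
    rfl
  -- the vectors `z m` and their span `U`
  set z : ℕ → ℝ := fun m => Z m * Real.pi⁻¹ ^ m with hz
  set c : ℕ → ℕ → K := fun N m => algebraMap ℚ _ (q (N - m)) with hc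
  set U : Submodule K ℝ :=
    Submodule.span K (Set.range (fun m : T => z m)) with hU
  have hzU : ∀ m ∈ T, z m ∈ U := fun m hm => Submodule.subset_span ⟨⟨m, hm⟩, rfl⟩
  set uN : ℕ → ℝ := fun N => ∑ m ∈ T, c N m • z m with huN
  have huU : ∀ N, uN N ∈ U := fun N => Submodule.sum_mem _ fun m hm => U.smul_mem _ (hzU m hm)
  have huV : ∀ N ∈ S, Real.pi ^ N * uN N ∈ V := by
    intro N hN
    have h1 : Real.pi ^ N * uN N = ∑ m ∈ T, Z m * zl [N - m] := by
      rw [huN, Finset.mul_sum]
      apply Finset.sum_congr rfl
      intro m hm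
      have h3 := hm2 m hm N hN
      have e2 : Real.pi ^ N = Real.pi ^ m * Real.pi ^ (N - m) := by
        rw [← pow_add]
        congr 1
        omega
      have e3 : Real.pi ^ m * Real.pi⁻¹ ^ m = 1 := by
        rw [← mul_pow, hpi, one_pow]
      rw [Algebra.smul_def, hamap, hq (N - m) (by omega) (hev m hm N hN), e2]
      calc Real.pi ^ m * Real.pi ^ (N - m) * ((q (N - m) : ℝ) * (Z m * Real.pi⁻¹ ^ m))
          = (Real.pi ^ m * Real.pi⁻¹ ^ m) * (Z m * ((q (N - m) : ℝ) * Real.pi ^ (N - m))) := by
            ring
        _ = _ := by rw [e3, one_mul]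
    rw [h1]
    exact hVN N hN
  -- a basis of `U`
  obtain ⟨κ, a, hainj, haspan, hali⟩ :=
    exists_linearIndependent' K (fun m : T => z m)
  have hκ : Finite κ := Finite.of_injective a hainj
  let _ : Fintype κ := Fintype.ofFinite κ
  have hUspan : U = Submodule.span K
      (Set.range ((fun m : T => z m) ∘ a)) := haspan.symm
  have hUfr : Module.finrank K U = Fintype.card κ := by
    rw [hUspan]
    exact finrank_span_eq_card hali
  have hUfd : Module.Finite K U := by
    rw [hUspan]
    exact Module.Finite.span_of_finite _ (Set.finite_range _)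
  set R : Finset ℕ := univ.image (fun i : κ => ((a i : T) : ℕ)) with hR
  have hRcard : R.card = Fintype.card κ := by
    rw [hR, card_image_of_injective, card_univ]
    intro i j hij
    exact hainj (Subtype.ext hij)
  have hRT : R ⊆ T := by
    intro m hm
    rw [hR, mem_image] at hm
    obtain ⟨i, -, rfl⟩ := hm
    exact (a i).2
  -- `U` is not zero
  obtain ⟨N₀, hN₀⟩ := hSne
  have hzne : z (D ∅) ≠ 0 := by
    have h2 : univ.filter (fun e => D e = D ∅) = {∅} := by
      ext e
      rw [mem_filter, mem_singleton]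
      constructor
      · rintro ⟨-, he⟩
        by_contra hne
        obtain ⟨i, hi⟩ := Finset.nonempty_iff_ne_empty.2 hne
        have h3 : D ∅ < D e := by
          apply Finset.sum_lt_sum
          · intro j _
            unfold cor
            rw [if_neg (notMem_empty j)]
            split_ifs
            · exact (hvw j).le
            · exact le_rfl
          · refine ⟨i, mem_univ i, ?_⟩
            unfold cor
            rw [if_neg (notMem_empty i), if_pos hi]
            exact hvw i
        omega
      · rintro rfl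
        exact ⟨mem_univ _, rfl⟩
    have h3 : Z (D ∅) = zl (u ∅) := by
      rw [hZ]
      simp only
      rw [h2, sum_singleton, card_empty, pow_zero, one_mul]
    have h4 := Pool.Agent.MZA.main_zl_pos (u ∅) (box_adm (hbad N₀ hN₀ ∅).1)
    rw [hz]
    simp only
    rw [h3]
    exact mul_ne_zero h4.ne' (pow_ne_zero _ (inv_ne_zero Real.pi_ne_zero))
  have hκne : Nonempty κ := by
    by_contra hcon
    rw [not_nonempty_iff] at hcon
    have h1 : U = ⊥ := by
      rw [hUspan, Set.range_eq_empty, Submodule.span_empty]
    have h2 := hzU (D ∅) (hmaps ∅ (mem_univ ∅))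
    rw [h1, Submodule.mem_bot] at h2
    exact hzne h2
  obtain ⟨i₀⟩ := hκne
  obtain ⟨g, hg⟩ := boxv_coord _ hali
  -- the two parts of `S`
  set S1 : Finset ℕ := S.filter (fun N => uN N ≠ 0) with hS1
  set S0 : Finset ℕ := S.filter (fun N => ¬ uN N ≠ 0) with hS0
  have hSS : S1.card + S0.card = S.card := card_filter_add_card_filter_not _
  have hc1 : S1.card ≤ Fintype.card κ * k := by
    have h1 := hF K ℝ Real.pi
      hK U V S1 (by
        intro N hN
        rw [hS1, mem_filter] at hN
        exact ⟨uN N, huU N, hN.2, huV N hN.1⟩)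
    rw [hUfr] at h1
    exact h1.trans (Nat.mul_le_mul_left _ hfr)
  have hc0 : S0.card + Fintype.card κ ≤ T.card := by
    set m₀ : ℕ := ((a i₀ : T) : ℕ) with hm₀
    have hm₀R : m₀ ∈ R := by
      rw [hR, mem_image]
      exact ⟨i₀, mem_univ _, rfl⟩
    have hT' : (insert m₀ (T \ R)).card ≤ T.card - Fintype.card κ + 1 := by
      refine (card_insert_le _ _).trans ?_
      rw [card_sdiff_of_subset hRT, hRcard]
    have hle : Fintype.card κ ≤ T.card := by
      rw [← hRcard]
      exact card_le_card hRT
    by_contra hcon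
    push Not at hcon
    have h1 := hT (insert m₀ (T \ R)) S0 (fun m => algebraMap K ℝ
      (g (z m) i₀) * Real.pi ^ m) (by omega) (by
        intro m hm N hN
        rw [hS0, mem_filter] at hN
        rw [mem_insert, mem_sdiff] at hm
        rcases hm with rfl | hm
        · exact hm2 _ (hRT hm₀R) N hN.1
        · exact hm2 m hm.1 N hN.1) (by
        intro N hN
        rw [hS0, mem_filter] at hN
        obtain ⟨hNS, hN0⟩ := hN
        rw [not_not] at hN0
        have hsubT : insert m₀ (T \ R) ⊆ T := by
          intro m hm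
          rw [mem_insert, mem_sdiff] at hm
          rcases hm with rfl | hm
          · exact hRT hm₀R
          · exact hm.1
        rw [Finset.sum_subset hsubT (by
          intro m hm hm'
          rw [mem_insert, mem_sdiff, not_or, not_and, not_not] at hm'
          have hmR := hm'.2 hm
          rw [hR, mem_image] at hmR
          obtain ⟨i, -, hi⟩ := hmR
          have hii : i ≠ i₀ := by
            rintro rfl
            exact hm'.1 hi.symm
          have h3 : g (z m) i₀ = 0 := by
            have h4 := hg i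
            have h5 : ((fun m : T => z m) ∘ a) i = z m := by
              rw [← hi]
              rfl
            rw [h5] at h4
            rw [h4, Finsupp.single_apply, if_neg hii]
          rw [h3, map_zero, zero_mul, zero_mul])]
        have h2 : g (uN N) i₀ = 0 := by
          rw [hN0, map_zero]
          rfl
        rw [huN] at h2
        simp only [map_sum, map_smul, Finsupp.coe_finsetSum, Finset.sum_apply, Finsupp.smul_apply,
          smul_eq_mul] at h2
        have h3 := congrArg (algebraMap K ℝ) h2
        rw [map_sum, map_zero] at h3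
        have h4 : ∑ m ∈ T, algebraMap K ℝ (g (z m) i₀) *
            Real.pi ^ m * zl [N - m] = Real.pi ^ N * ∑ m ∈ T,
              algebraMap K ℝ (c N m * g (z m) i₀) := by
          rw [Finset.mul_sum]
          apply Finset.sum_congr rfl
          intro m hm
          have h3 := hm2 m hm N hNS
          have e2 : Real.pi ^ N = Real.pi ^ m * Real.pi ^ (N - m) := by
            rw [← pow_add]
            congr 1
            omega
          rw [hq (N - m) (by omega) (hev m hm N hNS),
            map_mul (algebraMap K ℝ), hamap, e2]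
          ring
        rw [h4, h3, mul_zero])
    have h2 := h1 m₀ (mem_insert_self _ _)
    have h3 : g (z m₀) i₀ = 1 := by
      have h4 := hg i₀
      have h5 : ((fun m : T => z m) ∘ a) i₀ = z m₀ := rfl
      rw [h5] at h4
      rw [h4, Finsupp.single_apply, if_pos rfl]
    rw [h3, map_one, one_mul] at h2
    exact pow_ne_zero _ Real.pi_ne_zero h2
  -- the count
  obtain ⟨d, hd⟩ := Nat.exists_eq_add_of_le hc0
  have hTc : T.card = S0.card + Fintype.card κ + d := hd
  have h5 : S0.card ≤ k * S0.card := Nat.le_mul_of_pos_left _ hk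
  calc S.card = S1.card + S0.card := hSS.symm
    _ ≤ Fintype.card κ * k + k * S0.card := Nat.add_le_add hc1 h5
    _ ≤ k * T.card := by
      rw [hTc]
      nlinarith [Nat.zero_le (k * d)]

end Pool.Agent.MZF
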