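import Pool.Agent.MZF.St

/-!
# MZF, module Ded: from the bad indices to the values (MP_2000e9_nt)
-/

set_option autoImplicit false

namespace Pool.Agent.MZF

open Finset
open Pool.Agent.Helper21 (zl Adm)
open Pool.Agent.MZA (Idx)

/-- the number of the even entries -/
def ded_k (l : List ℕ) : ℕ := l.countP fun a => decide (Even a)

/-- insertion of the missing entry -/
def ded_phi {s : ℕ} (n : ℕ) (x : (Fin s → ℕ) × ℕ) : List ℕ :=
  (List.ofFn x.1).insertIdx x.2 (n - ∑ i, x.1 i)

theorem ded_count (l : List ℕ) :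
    ((range l.length).filter fun p => Even (l.getD p 0)).card = ded_k l := by
  induction l with
  | nil => rfl
  | cons a t ih =>
    rw [List.length_cons, Finset.card_filter, Finset.sum_range_succ']
    have h1 : ∑ p ∈ range t.length, (if Even ((a :: t).getD (p + 1) 0) then 1 else 0) =
        ded_k t := by
      rw [← ih, Finset.card_filter]
      rfl
    rw [h1, ded_k, ded_k, List.countP_cons]
    have h2 : (a :: t).getD 0 0 = a := rfl
    rw [h2]
    by_cases h : Even a <;> simp [h]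

theorem ded_perm {s : ℕ} (n : ℕ) (v : Fin s → ℕ) (p : ℕ) (hp : p < s + 1) :
    (ded_phi n (v, p)).Perm ((n - ∑ i, v i) :: List.ofFn v) :=
  List.perm_insertIdx _ _ (by rw [List.length_ofFn]; omega)

theorem ded_len {s : ℕ} (n : ℕ) (v : Fin s → ℕ) (p : ℕ) (hp : p < s + 1) :
    (ded_phi n (v, p)).length = s + 1 := by
  have h1 := (ded_perm n v p hp).length_eq
  rw [h1, List.length_cons, List.length_ofFn]

theorem ded_k_phi {s n : ℕ} {v : Fin s → ℕ} (hv : v ∈ Low s n) (p : ℕ) (hp : p < s + 1) :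
    ded_k (ded_phi n (v, p)) = ded_k (List.ofFn v) + 1 := by
  unfold ded_k
  rw [(ded_perm n v p hp).countP_eq, List.countP_cons]
  have h1 : Even (n - ∑ i, v i) := hv.2.2.2
  simp [h1]

theorem ded_getD {s n : ℕ} (v : Fin s → ℕ) (p : ℕ) (hp : p < s + 1) :
    (ded_phi n (v, p)).getD p 0 = n - ∑ i, v i := by
  have h1 : p < (ded_phi n (v, p)).length := by rw [ded_len n v p hp]; exact hp
  rw [List.getD_eq_getElem _ _ h1]
  exact List.getElem_insertIdx_self _

theorem ded_mem {s n : ℕ} (hs : 1 ≤ s) {v : Fin s → ℕ} (hv : v ∈ Low s n) (p : ℕ)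
    (hp : p < s + 1) : ded_phi n (v, p) ∈ Ev n (s + 1) := by
  obtain ⟨h1, h2, h3, h4⟩ := hv
  have hperm := ded_perm n v p hp
  refine ⟨⟨fun a ha => ?_, fun a t hat => ?_, ?_⟩, ded_len n v p hp,
    n - ∑ i, v i, hperm.mem_iff.2 List.mem_cons_self, h4⟩
  · rcases List.mem_cons.1 (hperm.mem_iff.1 ha) with rfl | h
    · omega
    · obtain ⟨i, rfl⟩ := (List.mem_ofFn' v a).1 h
      exact h1 i
  · obtain ⟨s', rfl⟩ : ∃ s', s = s' + 1 := ⟨s - 1, by omega⟩
    unfold ded_phi at hat
    cases p with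
    | zero =>
      rw [List.insertIdx_zero] at hat
      have h5 := (List.cons.inj hat).1
      change n - ∑ i, v i = a at h5
      omega
    | succ p =>
      have h6 : List.ofFn v = v 0 :: List.ofFn fun i : Fin s' => v i.succ := List.ofFn_succ
      change (List.ofFn v).insertIdx (p + 1) (n - ∑ i, v i) = a :: t at hat
      rw [h6, List.insertIdx_succ_cons] at hat
      have h5 := (List.cons.inj hat).1
      rw [← h5]
      exact h2 0 rfl
  · rw [hperm.sum_eq, List.sum_cons, List.sum_ofFn]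
    omega

theorem ded_inj {s n : ℕ} {v v' : Fin s → ℕ} {p : ℕ}
    (h : ded_phi n (v, p) = ded_phi n (v', p)) : v = v' := by
  have h1 : (ded_phi n (v, p)).eraseIdx p = List.ofFn v := List.eraseIdx_insertIdx_self _
  have h2 : (ded_phi n (v', p)).eraseIdx p = List.ofFn v' := List.eraseIdx_insertIdx_self _
  rw [h, h2] at h1
  exact (List.ofFn_injective h1).symm

theorem ded_surj {s n : ℕ} {w : List ℕ} (hw : w ∈ Ev n (s + 1)) (h1 : w.getD 1 0 ≠ 1)
    (hs : 1 ≤ s) {p : ℕ} (hp : p < s + 1) (he : Even (w.getD p 0)) :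
    ∃ v ∈ Low s n, ded_phi n (v, p) = w := by
  obtain ⟨⟨hw1, hw2, hw3⟩, hlen, -⟩ := hw
  have hpl : p < w.length := by omega
  have hlen' : (w.eraseIdx p).length = s := by
    rw [List.length_eraseIdx_of_lt hpl]
    omega
  have hperm : (w[p] :: w.eraseIdx p).Perm w := List.getElem_cons_eraseIdx_perm hpl
  have hgp : w.getD p 0 = w[p] := List.getD_eq_getElem _ _ hpl
  rw [hgp] at he
  have hsum : w[p] + (w.eraseIdx p).sum = n := by
    rw [← List.sum_cons, hperm.sum_eq, hw3]
  have hp1 : 1 ≤ w[p] := hw1 _ (List.getElem_mem hpl)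
  have hp2 : 2 ≤ w[p] := by
    obtain ⟨r, hr⟩ := he
    omega
  obtain ⟨v, hv⟩ : ∃ v : Fin s → ℕ, List.ofFn v = w.eraseIdx p := by
    refine ⟨fun i => (w.eraseIdx p).get (i.cast hlen'.symm), ?_⟩
    refine List.ext_get (by rw [List.length_ofFn, hlen']) fun i h2 h3 => ?_
    simp
  have hsv : ∑ i, v i = (w.eraseIdx p).sum := by rw [← hv, List.sum_ofFn]
  have hmem : ∀ a ∈ w.eraseIdx p, 1 ≤ a := fun a ha =>
    hw1 a (hperm.mem_iff.1 (List.mem_cons_of_mem _ ha))
  refine ⟨v, ⟨fun i => ?_, fun i hi => ?_, by omega, ?_⟩, ?_⟩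
  · refine hmem _ ?_
    rw [← hv]
    exact (List.mem_ofFn' v _).2 ⟨i, rfl⟩
  · have hvi : v i = (w.eraseIdx p).getD 0 0 := by
      rw [← hv, List.getD_eq_getElem _ _ (by rw [List.length_ofFn]; omega), List.getElem_ofFn]
      congr 1
      exact Fin.ext hi
    rw [hvi]
    cases w with
    | nil => simp at hlen
    | cons a t =>
      cases p with
      | zero =>
        cases t with
        | nil => simp at hlen; omega
        | cons b t =>
          have h4 : ((a :: b :: t).eraseIdx 0).getD 0 0 = b := rfl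
          rw [h4]
          have h5 : (a :: b :: t).getD 1 0 = b := rfl
          rw [h5] at h1
          have h6 : 1 ≤ b := hw1 b (by simp)
          omega
      | succ p =>
        have h4 : ((a :: t).eraseIdx (p + 1)).getD 0 0 = a := rfl
        rw [h4]
        exact hw2 a t rfl
  · have h4 : n - ∑ i, v i = w[p] := by omega
    rw [h4]
    exact he
  · unfold ded_phi
    have h4 : n - ∑ i, v i = w[p] := by omega
    change (List.ofFn v).insertIdx p (n - ∑ i, v i) = w
    rw [h4, hv]
    exact List.insertIdx_eraseIdx_getElem hpl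

theorem ded_ev_fin (n r : ℕ) : (Ev n r).Finite := by
  have h1 : (Set.range fun f : Fin r → Fin (n + 1) => List.ofFn fun i => (f i : ℕ)).Finite :=
    Set.finite_range _
  refine h1.subset ?_
  rintro w ⟨⟨hw1, hw2, hw3⟩, hlen, -⟩
  subst hlen
  have hle : ∀ i : Fin w.length, w.get i < n + 1 := fun i => by
    have : w.get i ≤ w.sum := List.single_le_sum (fun _ _ => Nat.zero_le _) _ (List.get_mem w i)
    omega
  refine ⟨fun i => ⟨w.get i, hle i⟩, ?_⟩
  simp

theorem ded_low_fin (s n : ℕ) : (Low s n).Finite := by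
  classical
  refine (Finset.finite_toSet (Fintype.piFinset fun _ : Fin s => range (n + 1))).subset ?_
  intro v hv
  rw [Finset.mem_coe, Fintype.mem_piFinset]
  intro i
  have h1 : v i ≤ ∑ j, v j := Finset.single_le_sum (fun _ _ => Nat.zero_le _) (Finset.mem_univ i)
  have h2 := hv.2.2.1
  rw [Finset.mem_range]
  omega

/-- the indices with second entry one -/
theorem ded_one (s n : ℕ) (hs : 1 ≤ s) :
    ({w | w ∈ Ev n (s + 1) ∧ w.getD 1 0 = 1}).ncard ≤ n ^ (s - 1) := by
  classical
  have h0 : ∀ w ∈ {w | w ∈ Ev n (s + 1) ∧ w.getD 1 0 = 1}, ∃ (a : ℕ) (t : List ℕ),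
      w = a :: 1 :: t ∧ t.length = s - 1 ∧ a + 1 + t.sum = n ∧ 2 ≤ a := by
    rintro w ⟨⟨⟨hw1, hw2, hw3⟩, hlen, -⟩, h1⟩
    cases w with
    | nil => simp at hlen
    | cons a t =>
      cases t with
      | nil => simp at hlen; omega
      | cons b t =>
        have h5 : (a :: b :: t).getD 1 0 = b := rfl
        rw [h5] at h1
        subst h1
        refine ⟨a, t, rfl, ?_, ?_, hw2 a _ rfl⟩
        · simp at hlen; omega
        · simp at hw3; omega
  have hcard : (Set.univ : Set (Fin (s - 1) → Fin n)).ncard = n ^ (s - 1) := by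
    rw [Set.ncard_univ, Nat.card_eq_fintype_card, Fintype.card_fun, Fintype.card_fin,
      Fintype.card_fin]
  rw [← hcard]
  have key : ∀ w ∈ {w | w ∈ Ev n (s + 1) ∧ w.getD 1 0 = 1}, ∀ i : Fin (s - 1),
      w.getD (i + 2) 0 < n := by
    intro w hw i
    obtain ⟨a, t, rfl, h1, h2, h3⟩ := h0 w hw
    have h4 : (a :: 1 :: t).getD (i + 2) 0 = t.getD i 0 := rfl
    rw [h4, List.getD_eq_getElem _ _ (by omega)]
    have h5 : t[(i : ℕ)]'(by omega) ≤ t.sum :=
      List.single_le_sum (fun _ _ => Nat.zero_le _) _ (List.getElem_mem _)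
    omega
  rcases Set.eq_empty_or_nonempty {w | w ∈ Ev n (s + 1) ∧ w.getD 1 0 = 1} with he | ⟨w₀, hw₀⟩
  · rw [he, Set.ncard_empty]
    exact Nat.zero_le _
  · have hn : 0 < n := by
      obtain ⟨a, t, rfl, h1, h2, h3⟩ := h0 w₀ hw₀
      omega
    refine Set.ncard_le_ncard_of_injOn
      (fun w (i : Fin (s - 1)) => if h : w.getD (i + 2) 0 < n then (⟨w.getD (i + 2) 0, h⟩ : Fin n)
        else ⟨0, hn⟩) (fun w _ => Set.mem_univ _) ?_ (Set.toFinite _)
    intro w hw w' hw' hww
    have h1 : ∀ i : Fin (s - 1), w.getD (i + 2) 0 = w'.getD (i + 2) 0 := by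
      intro i
      have h2 := congrFun hww i
      simp only [dif_pos (key w hw i), dif_pos (key w' hw' i)] at h2
      exact congrArg Fin.val h2
    obtain ⟨a, t, rfl, h2, h3, -⟩ := h0 w hw
    obtain ⟨a', t', rfl, h2', h3', -⟩ := h0 w' hw'
    have h4 : t = t' := by
      refine List.ext_getElem (by omega) fun i hi hi' => ?_
      have h5 := h1 ⟨i, by omega⟩
      have h6 : (a :: 1 :: t).getD (i + 2) 0 = t.getD i 0 := rfl
      have h7 : (a' :: 1 :: t').getD (i + 2) 0 = t'.getD i 0 := rfl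
      change (a :: 1 :: t).getD (i + 2) 0 = (a' :: 1 :: t').getD (i + 2) 0 at h5
      rw [h6, h7, List.getD_eq_getElem _ _ hi, List.getD_eq_getElem _ _ hi'] at h5
      exact h5
    subst h4
    have h8 : a = a' := by omega
    rw [h8]

/-- a member that is not bad gives a value not in `A x` -/
theorem ded_off {s n : ℕ} (hs : 1 ≤ s) {x : ℝ} {v : Fin s → ℕ} (hv : v ∈ Low s n)
    (hb : v ∉ Bad s n x) : ∃ p ∈ range (s + 1), ded_phi n (v, p) ∈ OffEv n (s + 1) x := by
  by_contra hcon
  push Not at hcon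
  refine hb ⟨hv, ?_⟩
  unfold ins
  rw [List.length_ofFn, Finset.sum_div]
  refine Finset.sum_induction _ (fun y : ℝ => IsAlgebraic ℚ y) (fun _ _ h h' => h.add h')
    isAlgebraic_zero fun p hp => ?_
  by_contra hna
  exact hcon p hp ⟨ded_mem hs hv p (Finset.mem_range.1 hp), hna⟩

/-- the fibres of the insertion map -/
theorem ded_fib_le {s n : ℕ} (A : Finset ((Fin s → ℕ) × ℕ))
    (hA : ∀ x ∈ A, x.1 ∈ Low s n ∧ x.2 < s + 1) {w : List ℕ} (hw : w.length = s + 1)
    [DecidablePred fun x : (Fin s → ℕ) × ℕ => ded_phi n x = w] :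
    (A.filter fun x => ded_phi n x = w).card ≤ ded_k w := by
  classical
  rw [← ded_count w, hw]
  refine Finset.card_le_card_of_injOn Prod.snd ?_ ?_
  · rintro ⟨v, p⟩ hx
    obtain ⟨hx1, hx2⟩ := Finset.mem_filter.1 (Finset.mem_coe.1 hx)
    obtain ⟨hv, hp⟩ := hA _ hx1
    refine Finset.mem_coe.2 (Finset.mem_filter.2 ⟨Finset.mem_range.2 hp, ?_⟩)
    change Even (w.getD p 0)
    rw [← hx2, ded_getD v p hp]
    exact hv.2.2.2
  · rintro ⟨v, p⟩ hx ⟨v', p'⟩ hx' hpp
    obtain ⟨-, hx2⟩ := Finset.mem_filter.1 (Finset.mem_coe.1 hx)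
    obtain ⟨-, hx2'⟩ := Finset.mem_filter.1 (Finset.mem_coe.1 hx')
    change p = p' at hpp
    subst hpp
    rw [ded_inj (hx2.trans hx2'.symm)]

theorem ded_k_pos {n r : ℕ} {w : List ℕ} (hw : w ∈ Ev n r) : 0 < ded_k w := by
  obtain ⟨-, -, a, ha, hae⟩ := hw
  exact List.countP_pos_iff.2 ⟨a, ha, by simpa using hae⟩

/-- from the bad indices to the values -/
theorem thm_Ded : St_Ded := by
  classical
  intro s n x hs
  have hEv := ded_ev_fin n (s + 1)
  have hLow := ded_low_fin s n
  have hOff : (OffEv n (s + 1) x).Finite := hEv.subset fun w hw => hw.1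
  have hBad : (Bad s n x).Finite := hLow.subset fun v hv => hv.1
  rw [Set.ncard_eq_toFinset_card _ hEv, Set.ncard_eq_toFinset_card _ hOff,
    Set.ncard_eq_toFinset_card _ hBad]
  set EvF := hEv.toFinset with hEvF
  set LowF := hLow.toFinset with hLowF
  set OffF := hOff.toFinset with hOffF
  set BadF := hBad.toFinset with hBadF
  set A : Finset ((Fin s → ℕ) × ℕ) := LowF ×ˢ range (s + 1) with hA
  have hAm : ∀ y ∈ A, y.1 ∈ Low s n ∧ y.2 < s + 1 := by
    intro y hy
    obtain ⟨h1, h2⟩ := Finset.mem_product.1 hy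
    exact ⟨(Set.Finite.mem_toFinset hLow).1 h1, Finset.mem_range.1 h2⟩
  -- the sum over all pairs
  have h1 : ((s : ℚ) + 1) * ∑ v ∈ LowF, (1 : ℚ) / (ded_k (List.ofFn v) + 1) =
      ∑ y ∈ A, (1 : ℚ) / ded_k (ded_phi n y) := by
    rw [hA, Finset.sum_product, Finset.mul_sum]
    refine Finset.sum_congr rfl fun v hv => ?_
    have hv' : v ∈ Low s n := (Set.Finite.mem_toFinset hLow).1 hv
    have h2 : ∀ p ∈ range (s + 1), (1 : ℚ) / ded_k (ded_phi n (v, p)) =
        1 / (ded_k (List.ofFn v) + 1) := by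
      intro p hp
      rw [ded_k_phi hv' p (Finset.mem_range.1 hp)]
      push_cast
      rfl
    rw [Finset.sum_congr rfl h2, Finset.sum_const, Finset.card_range, nsmul_eq_mul]
    push_cast
    rfl
  have hmaps : ∀ y ∈ A, ded_phi n y ∈ EvF := fun y hy =>
    (Set.Finite.mem_toFinset hEv).2 (ded_mem hs (hAm y hy).1 y.2 (hAm y hy).2)
  have h2 : ((EvF.filter fun w => w.getD 1 0 ≠ 1).card : ℚ) ≤
      ∑ y ∈ A, (1 : ℚ) / ded_k (ded_phi n y) := by
    rw [← Finset.sum_fiberwise_of_maps_to hmaps, Finset.card_eq_sum_ones, Nat.cast_sum,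
      Finset.sum_filter]
    refine Finset.sum_le_sum fun w hw => ?_
    have hwE : w ∈ Ev n (s + 1) := (Set.Finite.mem_toFinset hEv).1 hw
    have hk : (0 : ℚ) < ded_k w := by exact_mod_cast ded_k_pos hwE
    have h3 : ∑ y ∈ A with ded_phi n y = w, (1 : ℚ) / ded_k (ded_phi n y) =
        ((A.filter fun y => ded_phi n y = w).card : ℚ) / ded_k w := by
      rw [Finset.sum_congr rfl fun y hy => by rw [(Finset.mem_filter.1 hy).2],
        Finset.sum_const, nsmul_eq_mul, mul_one_div]
    rw [h3]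
    split_ifs with h4
    · rw [Nat.cast_one, le_div_iff₀ hk, one_mul]
      have h5 : ded_k w ≤ (A.filter fun y => ded_phi n y = w).card := by
        rw [← ded_count w, hwE.2.1]
        refine Finset.card_le_card_of_surjOn Prod.snd ?_
        intro p hp
        obtain ⟨hp1, hp2⟩ := Finset.mem_filter.1 (Finset.mem_coe.1 hp)
        obtain ⟨v, hv, hvw⟩ := ded_surj hwE h4 hs (Finset.mem_range.1 hp1) hp2
        refine ⟨(v, p), Finset.mem_coe.2 (Finset.mem_filter.2 ⟨Finset.mem_product.2
          ⟨(Set.Finite.mem_toFinset hLow).2 hv, hp1⟩, hvw⟩), rfl⟩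
      exact_mod_cast h5
    · positivity
  have h3 : EvF.card ≤ (EvF.filter fun w => w.getD 1 0 ≠ 1).card + n ^ (s - 1) := by
    have h4 := Finset.card_filter_add_card_filter_not (s := EvF) (fun w => w.getD 1 0 ≠ 1)
    have h5 : (EvF.filter fun w => ¬ w.getD 1 0 ≠ 1).card ≤ n ^ (s - 1) := by
      have h6 := ded_one s n hs
      have h7 : {w | w ∈ Ev n (s + 1) ∧ w.getD 1 0 = 1} =
          ((EvF.filter fun w => ¬ w.getD 1 0 ≠ 1 : Finset (List ℕ)) : Set (List ℕ)) := by
        ext w
        rw [Finset.mem_coe, Finset.mem_filter, hEvF, Set.Finite.mem_toFinset]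
        simp
      rw [h7, Set.ncard_coe_finset] at h6
      exact h6
    omega
  -- the upper bound
  have h4 : ∑ v ∈ LowF, (1 : ℚ) / (ded_k (List.ofFn v) + 1) ≤ BadF.card + OffF.card := by
    have h5 : BadF ⊆ LowF := fun v hv => (Set.Finite.mem_toFinset hLow).2
      ((Set.Finite.mem_toFinset hBad).1 hv).1
    rw [← Finset.sum_sdiff h5, add_comm]
    refine add_le_add ?_ ?_
    · calc ∑ v ∈ BadF, (1 : ℚ) / (ded_k (List.ofFn v) + 1) ≤ ∑ _v ∈ BadF, (1 : ℚ) :=
            Finset.sum_le_sum fun v _ => by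
              rw [div_le_one (by positivity)]
              have : (0 : ℚ) ≤ ded_k (List.ofFn v) := Nat.cast_nonneg _
              linarith
        _ = _ := by simp
    · have h6 : ∀ v ∈ LowF \ BadF, (1 : ℚ) / (ded_k (List.ofFn v) + 1) ≤
          ∑ p ∈ range (s + 1), if ded_phi n (v, p) ∈ OffF then
            (1 : ℚ) / ded_k (ded_phi n (v, p)) else 0 := by
        intro v hv
        obtain ⟨hv1, hv2⟩ := Finset.mem_sdiff.1 hv
        have hvL : v ∈ Low s n := (Set.Finite.mem_toFinset hLow).1 hv1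
        have hvB : v ∉ Bad s n x := fun h => hv2 ((Set.Finite.mem_toFinset hBad).2 h)
        obtain ⟨p, hp, hpo⟩ := ded_off hs hvL hvB
        have h7 : (if ded_phi n (v, p) ∈ OffF then (1 : ℚ) / ded_k (ded_phi n (v, p)) else 0) =
            1 / (ded_k (List.ofFn v) + 1) := by
          rw [if_pos ((Set.Finite.mem_toFinset hOff).2 hpo),
            ded_k_phi hvL p (Finset.mem_range.1 hp)]
          push_cast
          rfl
        rw [← h7]
        refine Finset.single_le_sum (f := fun p => if ded_phi n (v, p) ∈ OffF then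
            (1 : ℚ) / ded_k (ded_phi n (v, p)) else 0) (fun q _ => ?_) hp
        split_ifs
        · positivity
        · exact le_rfl
      calc ∑ v ∈ LowF \ BadF, (1 : ℚ) / (ded_k (List.ofFn v) + 1)
          ≤ ∑ v ∈ LowF \ BadF, ∑ p ∈ range (s + 1), (if ded_phi n (v, p) ∈ OffF then
            (1 : ℚ) / ded_k (ded_phi n (v, p)) else 0) := Finset.sum_le_sum h6
        _ ≤ ∑ v ∈ LowF, ∑ p ∈ range (s + 1), (if ded_phi n (v, p) ∈ OffF then
            (1 : ℚ) / ded_k (ded_phi n (v, p)) else 0) :=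
            Finset.sum_le_sum_of_subset_of_nonneg Finset.sdiff_subset fun v _ _ =>
              Finset.sum_nonneg fun p _ => by
                split_ifs
                · positivity
                · exact le_rfl
        _ = ∑ y ∈ A with ded_phi n y ∈ OffF, (1 : ℚ) / ded_k (ded_phi n y) := by
            rw [Finset.sum_filter, hA, Finset.sum_product]
        _ = ∑ w ∈ OffF, ∑ y ∈ (A.filter fun y => ded_phi n y ∈ OffF) with ded_phi n y = w,
              (1 : ℚ) / ded_k (ded_phi n y) :=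
            (Finset.sum_fiberwise_of_maps_to (fun y hy => (Finset.mem_filter.1 hy).2) _).symm
        _ ≤ ∑ _w ∈ OffF, (1 : ℚ) := by
            refine Finset.sum_le_sum fun w hw => ?_
            have hwE : w ∈ Ev n (s + 1) := ((Set.Finite.mem_toFinset hOff).1 hw).1
            have hk : (0 : ℚ) < ded_k w := by exact_mod_cast ded_k_pos hwE
            rw [Finset.sum_congr rfl fun y hy => by rw [(Finset.mem_filter.1 hy).2],
              Finset.sum_const, nsmul_eq_mul, mul_one_div, div_le_one hk]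
            have h8 := ded_fib_le (n := n) (A.filter fun y => ded_phi n y ∈ OffF)
              (fun y hy => hAm y (Finset.mem_filter.1 hy).1) hwE.2.1
            exact_mod_cast h8
        _ = _ := by simp
  have h5 : ((EvF.filter fun w => w.getD 1 0 ≠ 1).card : ℚ) ≤
      ((s : ℚ) + 1) * (OffF.card + BadF.card) := by
    refine h2.trans ?_
    rw [← h1, add_comm (OffF.card : ℚ)]
    exact mul_le_mul_of_nonneg_left h4 (by positivity)
  have h6 : (EvF.filter fun w => w.getD 1 0 ≠ 1).card ≤ (s + 1) * (OffF.card + BadF.card) := by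
    exact_mod_cast h5
  omega

end Pool.Agent.MZF
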