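import Pool.Agent.MZF.St2
import Pool.Agent.MZF.Ded

set_option autoImplicit false

/-!
# From the bad indices to the values, subspaces (as Ded.lean of helper92)
-/

namespace Pool.Agent.MZF

open Finset
open Pool.Agent.Helper21 (zl Adm)
open Pool.Agent.MZA (Idx)

/-- a member that is not bad gives a value not in `V` -/
theorem dedv_off {K : IntermediateField ℚ ℝ} {s n : ℕ} (hs : 1 ≤ s) {V : Sub K} {v : Fin s → ℕ} (hv : v ∈ Low s n)
    (hb : v ∉ BadV s n V) : ∃ p ∈ range (s + 1), ded_phi n (v, p) ∈ OutEv n (s + 1) V := by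
  by_contra hcon
  push Not at hcon
  refine hb ⟨hv, ?_⟩
  unfold ins
  rw [List.length_ofFn]
  refine Submodule.sum_mem _ fun p hp => ?_
  by_contra hna
  exact hcon p hp ⟨ded_mem hs hv p (Finset.mem_range.1 hp), hna⟩

/-- from the bad indices to the values -/
theorem thm_DedV : St_DedV := by
  classical
  intro K s n V hs
  have hEv := ded_ev_fin n (s + 1)
  have hLow := ded_low_fin s n
  have hOff : (OutEv n (s + 1) V).Finite := hEv.subset fun w hw => hw.1
  have hBad : (BadV s n V).Finite := hLow.subset fun v hv => hv.1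
  rw [Set.ncard_eq_toFinset_card _ hEv, Set.ncard_eq_toFinset_card _ hOff,
    Set.ncard_eq_toFinset_card _ hBad]
  set EvF := hEv.toFinset with hEvF
  set LowF := hLow.toFinset with hLowF
  set OffF := hOff.toFinset with hOffF
  set BadF := hBad.toFinset with hBadF
  set A : Finset ((Fin s → ℕ) × ℕ) := LowF ×ˢ range (s + 1) with hA
  have hAm : ∀ y ∈ A, y.1 ∈ Low s n ∧ y.2 < s + 1 := by
    intro y hy
    obtain ⟨h1, h2⟩ := Finset.mem_product.1 hy
    exact ⟨(Set.Finite.mem_toFinset hLow).1 h1, Finset.mem_range.1 h2⟩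
  -- the sum over all pairs
  have h1 : ((s : ℚ) + 1) * ∑ v ∈ LowF, (1 : ℚ) / (ded_k (List.ofFn v) + 1) =
      ∑ y ∈ A, (1 : ℚ) / ded_k (ded_phi n y) := by
    rw [hA, Finset.sum_product, Finset.mul_sum]
    refine Finset.sum_congr rfl fun v hv => ?_
    have hv' : v ∈ Low s n := (Set.Finite.mem_toFinset hLow).1 hv
    have h2 : ∀ p ∈ range (s + 1), (1 : ℚ) / ded_k (ded_phi n (v, p)) =
        1 / (ded_k (List.ofFn v) + 1) := by
      intro p hp
      rw [ded_k_phi hv' p (Finset.mem_range.1 hp)]
      push_cast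
      rfl
    rw [Finset.sum_congr rfl h2, Finset.sum_const, Finset.card_range, nsmul_eq_mul]
    push_cast
    rfl
  have hmaps : ∀ y ∈ A, ded_phi n y ∈ EvF := fun y hy =>
    (Set.Finite.mem_toFinset hEv).2 (ded_mem hs (hAm y hy).1 y.2 (hAm y hy).2)
  have h2 : ((EvF.filter fun w => w.getD 1 0 ≠ 1).card : ℚ) ≤
      ∑ y ∈ A, (1 : ℚ) / ded_k (ded_phi n y) := by
    rw [← Finset.sum_fiberwise_of_maps_to hmaps, Finset.card_eq_sum_ones, Nat.cast_sum,
      Finset.sum_filter]
    refine Finset.sum_le_sum fun w hw => ?_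
    have hwE : w ∈ Ev n (s + 1) := (Set.Finite.mem_toFinset hEv).1 hw
    have hk : (0 : ℚ) < ded_k w := by exact_mod_cast ded_k_pos hwE
    have h3 : ∑ y ∈ A with ded_phi n y = w, (1 : ℚ) / ded_k (ded_phi n y) =
        ((A.filter fun y => ded_phi n y = w).card : ℚ) / ded_k w := by
      rw [Finset.sum_congr rfl fun y hy => by rw [(Finset.mem_filter.1 hy).2],
        Finset.sum_const, nsmul_eq_mul, mul_one_div]
    rw [h3]
    split_ifs with h4
    · rw [Nat.cast_one, le_div_iff₀ hk, one_mul]
      have h5 : ded_k w ≤ (A.filter fun y => ded_phi n y = w).card := by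
        rw [← ded_count w, hwE.2.1]
        refine Finset.card_le_card_of_surjOn Prod.snd ?_
        intro p hp
        obtain ⟨hp1, hp2⟩ := Finset.mem_filter.1 (Finset.mem_coe.1 hp)
        obtain ⟨v, hv, hvw⟩ := ded_surj hwE h4 hs (Finset.mem_range.1 hp1) hp2
        refine ⟨(v, p), Finset.mem_coe.2 (Finset.mem_filter.2 ⟨Finset.mem_product.2
          ⟨(Set.Finite.mem_toFinset hLow).2 hv, hp1⟩, hvw⟩), rfl⟩
      exact_mod_cast h5
    · positivity
  have h3 : EvF.card ≤ (EvF.filter fun w => w.getD 1 0 ≠ 1).card + n ^ (s - 1) := by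
    have h4 := Finset.card_filter_add_card_filter_not (s := EvF) (fun w => w.getD 1 0 ≠ 1)
    have h5 : (EvF.filter fun w => ¬ w.getD 1 0 ≠ 1).card ≤ n ^ (s - 1) := by
      have h6 := ded_one s n hs
      have h7 : {w | w ∈ Ev n (s + 1) ∧ w.getD 1 0 = 1} =
          ((EvF.filter fun w => ¬ w.getD 1 0 ≠ 1 : Finset (List ℕ)) : Set (List ℕ)) := by
        ext w
        rw [Finset.mem_coe, Finset.mem_filter, hEvF, Set.Finite.mem_toFinset]
        simp
      rw [h7, Set.ncard_coe_finset] at h6
      exact h6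
    omega
  -- the upper bound
  have h4 : ∑ v ∈ LowF, (1 : ℚ) / (ded_k (List.ofFn v) + 1) ≤ BadF.card + OffF.card := by
    have h5 : BadF ⊆ LowF := fun v hv => (Set.Finite.mem_toFinset hLow).2
      ((Set.Finite.mem_toFinset hBad).1 hv).1
    rw [← Finset.sum_sdiff h5, add_comm]
    refine add_le_add ?_ ?_
    · calc ∑ v ∈ BadF, (1 : ℚ) / (ded_k (List.ofFn v) + 1) ≤ ∑ _v ∈ BadF, (1 : ℚ) :=
            Finset.sum_le_sum fun v _ => by
              rw [div_le_one (by positivity)]
              have : (0 : ℚ) ≤ ded_k (List.ofFn v) := Nat.cast_nonneg _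
              linarith
        _ = _ := by simp
    · have h6 : ∀ v ∈ LowF \ BadF, (1 : ℚ) / (ded_k (List.ofFn v) + 1) ≤
          ∑ p ∈ range (s + 1), if ded_phi n (v, p) ∈ OffF then
            (1 : ℚ) / ded_k (ded_phi n (v, p)) else 0 := by
        intro v hv
        obtain ⟨hv1, hv2⟩ := Finset.mem_sdiff.1 hv
        have hvL : v ∈ Low s n := (Set.Finite.mem_toFinset hLow).1 hv1
        have hvB : v ∉ BadV s n V := fun h => hv2 ((Set.Finite.mem_toFinset hBad).2 h)
        obtain ⟨p, hp, hpo⟩ := dedv_off hs hvL hvB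
        have h7 : (if ded_phi n (v, p) ∈ OffF then (1 : ℚ) / ded_k (ded_phi n (v, p)) else 0) =
            1 / (ded_k (List.ofFn v) + 1) := by
          rw [if_pos ((Set.Finite.mem_toFinset hOff).2 hpo),
            ded_k_phi hvL p (Finset.mem_range.1 hp)]
          push_cast
          rfl
        rw [← h7]
        refine Finset.single_le_sum (f := fun p => if ded_phi n (v, p) ∈ OffF then
            (1 : ℚ) / ded_k (ded_phi n (v, p)) else 0) (fun q _ => ?_) hp
        split_ifs
        · positivity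
        · exact le_rfl
      calc ∑ v ∈ LowF \ BadF, (1 : ℚ) / (ded_k (List.ofFn v) + 1)
          ≤ ∑ v ∈ LowF \ BadF, ∑ p ∈ range (s + 1), (if ded_phi n (v, p) ∈ OffF then
            (1 : ℚ) / ded_k (ded_phi n (v, p)) else 0) := Finset.sum_le_sum h6
        _ ≤ ∑ v ∈ LowF, ∑ p ∈ range (s + 1), (if ded_phi n (v, p) ∈ OffF then
            (1 : ℚ) / ded_k (ded_phi n (v, p)) else 0) :=
            Finset.sum_le_sum_of_subset_of_nonneg Finset.sdiff_subset fun v _ _ =>
              Finset.sum_nonneg fun p _ => by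
                split_ifs
                · positivity
                · exact le_rfl
        _ = ∑ y ∈ A with ded_phi n y ∈ OffF, (1 : ℚ) / ded_k (ded_phi n y) := by
            rw [Finset.sum_filter, hA, Finset.sum_product]
        _ = ∑ w ∈ OffF, ∑ y ∈ (A.filter fun y => ded_phi n y ∈ OffF) with ded_phi n y = w,
              (1 : ℚ) / ded_k (ded_phi n y) :=
            (Finset.sum_fiberwise_of_maps_to (fun y hy => (Finset.mem_filter.1 hy).2) _).symm
        _ ≤ ∑ _w ∈ OffF, (1 : ℚ) := by
            refine Finset.sum_le_sum fun w hw => ?_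
            have hwE : w ∈ Ev n (s + 1) := ((Set.Finite.mem_toFinset hOff).1 hw).1
            have hk : (0 : ℚ) < ded_k w := by exact_mod_cast ded_k_pos hwE
            rw [Finset.sum_congr rfl fun y hy => by rw [(Finset.mem_filter.1 hy).2],
              Finset.sum_const, nsmul_eq_mul, mul_one_div, div_le_one hk]
            have h8 := ded_fib_le (n := n) (A.filter fun y => ded_phi n y ∈ OffF)
              (fun y hy => hAm y (Finset.mem_filter.1 hy).1) hwE.2.1
            exact_mod_cast h8
        _ = _ := by simp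
  have h5 : ((EvF.filter fun w => w.getD 1 0 ≠ 1).card : ℚ) ≤
      ((s : ℚ) + 1) * (OffF.card + BadF.card) := by
    refine h2.trans ?_
    rw [← h1, add_comm (OffF.card : ℚ)]
    exact mul_le_mul_of_nonneg_left h4 (by positivity)
  have h6 : (EvF.filter fun w => w.getD 1 0 ≠ 1).card ≤ (s + 1) * (OffF.card + BadF.card) := by
    exact_mod_cast h5
  omega

end Pool.Agent.MZF
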