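import Pool.Agent.MZF.St2
import Mathlib

set_option autoImplicit false

/-!
# MZF2 [Flg]: two finite dimensional spaces and the powers of a transcendental element
(helper1 for helper46)

With a valuation of `L` which is trivial on `K` and less than one at `t`.
-/

namespace Pool.Agent.MZF

open Polynomial in
/-- a valuation which is trivial on the constants -/
theorem flg_val (K L : Type) [Field K] [Field L] [Algebra K L] (t : L) (ht : Transcendental K t) :
    ∃ B : ValuationSubring L, (∀ a : K, a ≠ 0 → B.valuation (algebraMap K L a) = 1) ∧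
      B.valuation t < 1 := by
  let A : Subring L := (aeval t : K[X] →ₐ[K] L).range.toSubring
  have hA : ∀ p : K[X], aeval t p ∈ A := fun p => ⟨p, rfl⟩
  have ht' : t ∈ A := by simpa using hA X
  let I : Ideal A := Ideal.span {⟨t, ht'⟩}
  have hI : I ≠ ⊤ := by
    intro h
    have h1 : (1 : A) ∈ I := by rw [h]; trivial
    rw [Ideal.mem_span_singleton'] at h1
    obtain ⟨⟨_, p, rfl⟩, h2⟩ := h1
    have h3 : aeval t p * t = 1 := congrArg Subtype.val h2
    have h4 : aeval t (p * X) = aeval t (1 : K[X]) := by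
      rw [map_mul, aeval_X, map_one]
      exact h3
    have h5 : p * X = 1 := transcendental_iff_injective.1 ht h4
    have h6 := congrArg (fun q : K[X] => q.coeff 0) h5
    simp at h6
  obtain ⟨B, hB, hBI⟩ := Ideal.image_subset_nonunits_valuationSubring I hI
  have hc : ∀ a : K, B.valuation (algebraMap K L a) ≤ 1 := fun a =>
    (B.valuation_le_one_iff _).2 (hB (by simpa using hA (C a)))
  refine ⟨B, fun a ha => le_antisymm (hc a) ?_, ?_⟩
  · have h1 := hc a⁻¹
    rw [map_inv₀, map_inv₀] at h1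
    have h2 : B.valuation (algebraMap K L a) ≠ 0 := by
      rw [Ne, map_eq_zero, map_eq_zero]
      exact ha
    exact (inv_le_one₀ (zero_lt_iff.2 h2)).1 h1
  · exact (ValuationSubring.mem_nonunits_iff B).1
      (hBI ⟨⟨t, ht'⟩, Ideal.mem_span_singleton_self _, rfl⟩)

/-- a finite dimensional space has few values -/
theorem flg_card {K L Γ : Type} [Field K] [Field L] [Algebra K L]
    [LinearOrderedCommGroupWithZero Γ] (v : Valuation L Γ)
    (hv : ∀ a : K, a ≠ 0 → v (algebraMap K L a) = 1) (U : Submodule K L) [Module.Finite K U]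
    (T : Finset Γ) (hT : ∀ γ ∈ T, ∃ u ∈ U, u ≠ 0 ∧ v u = γ) : T.card ≤ Module.finrank K U := by
  classical
  have h1 : ∀ γ : T, ∃ u : U, (u : L) ≠ 0 ∧ v u = γ := by
    rintro ⟨γ, hγ⟩
    obtain ⟨u, hu, hu0, huv⟩ := hT γ hγ
    exact ⟨⟨u, hu⟩, hu0, huv⟩
  choose w hw0 hwv using h1
  have hs : ∀ (a : K) (γ : T), a ≠ 0 → v (a • (w γ : L)) = γ := by
    intro a γ ha
    rw [Algebra.smul_def, map_mul, hv a ha, one_mul, hwv]
  have hγ0 : ∀ γ : T, (γ : Γ) ≠ 0 := by
    intro γ
    rw [← hwv γ, Ne, map_eq_zero]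
    exact hw0 γ
  have li : LinearIndependent K w := by
    rw [Fintype.linearIndependent_iff]
    intro c hc
    by_contra hcon
    push Not at hcon
    obtain ⟨γ₁, hγ₁⟩ := hcon
    obtain ⟨γ₀, hγ₀, hmax⟩ := Finset.exists_max_image
      (Finset.univ.filter fun γ : T => c γ ≠ 0) (fun γ => (γ : Γ))
      ⟨γ₁, Finset.mem_filter.2 ⟨Finset.mem_univ _, hγ₁⟩⟩
    have hc0 := (Finset.mem_filter.1 hγ₀).2
    have h2 : ∑ γ, c γ • (w γ : L) = 0 := by
      have h3 := congrArg (fun u : U => (u : L)) hc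
      simpa using h3
    rw [← Finset.add_sum_erase _ _ (Finset.mem_univ γ₀)] at h2
    have h3 : v (∑ γ ∈ Finset.univ.erase γ₀, c γ • (w γ : L)) < (γ₀ : Γ) := by
      refine v.map_sum_lt (hγ0 γ₀) fun γ hγ => ?_
      by_cases h4 : c γ = 0
      · rw [h4, zero_smul, map_zero]
        exact zero_lt_iff.2 (hγ0 γ₀)
      · rw [hs _ _ h4]
        refine lt_of_le_of_ne (hmax γ (Finset.mem_filter.2 ⟨Finset.mem_univ _, h4⟩)) fun h5 => ?_
        exact (Finset.mem_erase.1 hγ).1 (Subtype.ext h5)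
    have h4 : ∑ γ ∈ Finset.univ.erase γ₀, c γ • (w γ : L) = -(c γ₀ • (w γ₀ : L)) :=
      eq_neg_of_add_eq_zero_right h2
    rw [h4, Valuation.map_neg, hs _ _ hc0] at h3
    exact lt_irrefl _ h3
  have h5 := li.fintype_card_le_finrank
  rwa [Fintype.card_coe] at h5

/-- FLG -/
theorem thm_Flg : St_Flg := by
  classical
  intro K L _ _ _ t ht U V _ _ S hS
  obtain ⟨B, hB1, hBt⟩ := flg_val K L t ht
  have ht0 : t ≠ 0 := by
    rintro rfl
    exact ht (isAlgebraic_zero)
  have hvt0 : B.valuation t ≠ 0 := by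
    rw [Ne, map_eq_zero]
    exact ht0
  have h1 : ∀ N : ℕ, ∃ u : L, N ∈ S → u ∈ U ∧ u ≠ 0 ∧ t ^ N * u ∈ V := by
    intro N
    by_cases hN : N ∈ S
    · obtain ⟨u, h2, h3, h4⟩ := hS N hN
      exact ⟨u, fun _ => ⟨h2, h3, h4⟩⟩
    · exact ⟨0, fun h => absurd h hN⟩
  choose u hu using h1
  let TU := S.image fun N => B.valuation (u N)
  let TV := S.image fun N => B.valuation (t ^ N * u N)
  have hTU : TU.card ≤ Module.finrank K U := by
    refine flg_card B.valuation hB1 U TU fun γ hγ => ?_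
    obtain ⟨N, hN, rfl⟩ := Finset.mem_image.1 hγ
    exact ⟨u N, (hu N hN).1, (hu N hN).2.1, rfl⟩
  have hTV : TV.card ≤ Module.finrank K V := by
    refine flg_card B.valuation hB1 V TV fun γ hγ => ?_
    obtain ⟨N, hN, rfl⟩ := Finset.mem_image.1 hγ
    exact ⟨t ^ N * u N, (hu N hN).2.2, mul_ne_zero (pow_ne_zero _ ht0) (hu N hN).2.1, rfl⟩
  have hinj : ∀ N M : ℕ, N < M → B.valuation t ^ N ≠ B.valuation t ^ M := by
    intro N M hNM h2
    obtain ⟨k, rfl⟩ : ∃ k, M = N + k := ⟨M - N, by omega⟩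
    rw [pow_add] at h2
    have h3 : B.valuation t ^ k = 1 := by
      have h4 : B.valuation t ^ N ≠ 0 := pow_ne_zero _ hvt0
      have h5 : B.valuation t ^ N * B.valuation t ^ k = B.valuation t ^ N * 1 := by
        rw [mul_one, ← h2]
      exact mul_left_cancel₀ h4 h5
    have h4 : B.valuation t ^ k < 1 := pow_lt_one₀ zero_le hBt (by omega)
    exact h4.ne h3
  have hle : S.card ≤ (TU ×ˢ TV).card := by
    refine Finset.card_le_card_of_injOn (fun N => (B.valuation (u N), B.valuation (t ^ N * u N)))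
      (fun N hN => ?_) (fun N hN M hM h => ?_)
    · exact Finset.mem_product.2 ⟨Finset.mem_image_of_mem _ hN, Finset.mem_image_of_mem _ hN⟩
    · have h2 : B.valuation (u N) = B.valuation (u M) := congrArg Prod.fst h
      have h3 : B.valuation (t ^ N * u N) = B.valuation (t ^ M * u M) := congrArg Prod.snd h
      rw [map_mul, map_mul, map_pow, map_pow, h2] at h3
      have h4 : B.valuation (u M) ≠ 0 := by
        rw [Ne, map_eq_zero]
        exact (hu M hM).2.1
      have h5 := mul_right_cancel₀ h4 h3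
      rcases lt_trichotomy N M with h6 | h6 | h6
      · exact absurd h5 (hinj N M h6)
      · exact h6
      · exact absurd h5.symm (hinj M N h6)
  rw [Finset.card_product] at hle
  exact hle.trans (Nat.mul_le_mul hTU hTV)

end Pool.Agent.MZF
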