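import Pool.Agent.MZF.St2

/-!
# The number of the values not in `V` tends to infinity (as Inf.lean of helper87)
-/

set_option autoImplicit false

namespace Pool.Agent.MZF

open Finset

private theorem inf_par (A : Set ℕ) (hA : A.Infinite) :
    ∃ c : ℕ, (A ∩ {n | n % 2 = c}).Infinite := by
  by_contra hcon
  push Not at hcon
  apply hA
  have h0 := hcon 0
  have h1 := hcon 1
  refine (h0.union h1).subset ?_
  intro n hn
  rcases Nat.mod_two_eq_zero_or_one n with h | h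
  · exact Or.inl ⟨hn, h⟩
  · exact Or.inr ⟨hn, h⟩

/-- INFV -/
theorem thm_InfV (h : St_AnyV) : St_InfV := by
  intro K hK s V hs hfd
  obtain ⟨k, hk, hfr⟩ : ∃ k, 1 ≤ k ∧ Module.finrank K V ≤ k :=
    ⟨Module.finrank K V + 1, by omega, by omega⟩
  rw [Filter.tendsto_atTop_atTop]
  by_contra hcon
  push Not at hcon
  obtain ⟨b, hb⟩ := hcon
  have hA : {n : ℕ | (OutEv n (s + 1) V).ncard < b}.Infinite := by
    rw [Set.infinite_iff_exists_gt]
    intro a
    obtain ⟨n, hn1, hn2⟩ := hb (a + 1)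
    exact ⟨n, hn2, by omega⟩
  obtain ⟨c, hc⟩ := inf_par _ hA
  set B : ℕ := 4 * (s + 1) * ((s + 1) * ((k * (s + 1) + 1) * b) + 1) with hB
  have hinf : {n : ℕ | (OutEv n (s + 1) V).ncard < b ∧ n % 2 = c ∧ B ≤ n}.Infinite := by
    have h1 : ((({n : ℕ | (OutEv n (s + 1) V).ncard < b} ∩ {n | n % 2 = c})) \ Set.Iio B).Infinite :=
      hc.sdiff (Set.finite_Iio B)
    refine h1.mono ?_
    rintro n ⟨⟨hn1, hn2⟩, hn3⟩
    exact ⟨hn1, hn2, not_lt.mp hn3⟩
  set N : Fin (k * (s + 1) + 1) → ℕ := fun i =>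
    Nat.nth (fun n : ℕ => (OutEv n (s + 1) V).ncard < b ∧ n % 2 = c ∧ B ≤ n) (i : ℕ) with hN
  have hmem : ∀ i, (OutEv (N i) (s + 1) V).ncard < b ∧ N i % 2 = c ∧ B ≤ N i := fun i =>
    Nat.nth_mem_of_infinite hinf (i : ℕ)
  have hmono : StrictMono N := fun i j hij => Nat.nth_strictMono hinf hij
  have hev : ∀ i, Even (N i - N 0) := by
    intro i
    have h1 := (hmem i).2.1
    have h2 := (hmem 0).2.1
    have h3 : N 0 ≤ N i := hmono.monotone (Fin.zero_le i)
    rw [Nat.even_iff]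
    omega
  have hany := h K hK s k V N hs hfd hfr hk hmono hev
  have hsum : ∑ i, (OutEv (N i) (s + 1) V).ncard ≤ (k * (s + 1) + 1) * b := by
    calc ∑ i, (OutEv (N i) (s + 1) V).ncard ≤ ∑ _i : Fin (k * (s + 1) + 1), b :=
          Finset.sum_le_sum fun i _ => (hmem i).1.le
      _ = (k * (s + 1) + 1) * b := by rw [Finset.sum_const, Finset.card_univ, Fintype.card_fin, smul_eq_mul]
  have hdiv : (s + 1) * ((k * (s + 1) + 1) * b) + 1 ≤ N 0 / (4 * (s + 1)) := by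
    rw [Nat.le_div_iff_mul_le (by positivity)]
    calc ((s + 1) * ((k * (s + 1) + 1) * b) + 1) * (4 * (s + 1)) = B := by rw [hB]; ring
      _ ≤ N 0 := (hmem 0).2.2
  have hpow : N 0 / (4 * (s + 1)) ≤ (N 0 / (4 * (s + 1))) ^ s :=
    Nat.le_self_pow (by omega) _
  have hfin : (s + 1) * ∑ i, (OutEv (N i) (s + 1) V).ncard ≤ (s + 1) * ((k * (s + 1) + 1) * b) :=
    Nat.mul_le_mul_left _ hsum
  omega

end Pool.Agent.MZF
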