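import Pool.Agent.MZF.St
import Pool.Agent.MZA.Stf

set_option autoImplicit false

namespace Pool.Agent.MZF

open Finset
open Pool.Agent.Helper21 (zl Adm)
open Pool.Agent.MZA (st thm_Stf)

theorem ins_sum (b : ℕ) (w : List ℕ) : ∀ f : List ℕ → ℝ, ((st b w).map f).sum =
    ∑ p ∈ range (w.length + 1), f (w.insertIdx p b) +
      ∑ j ∈ range w.length, f (w.set j (w.getD j 0 + b)) := by
  induction w with
  | nil =>
    intro f
    simp [st]
  | cons a t ih =>
    intro f
    have h1 := ih (fun v => f (a :: v))
    have h2 : (((st b t).map (fun v => a :: v)).map f).sum =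
        ((st b t).map (fun v => f (a :: v))).sum := by
      rw [List.map_map]
      rfl
    have h3 : ∑ p ∈ range (t.length + 1 + 1), f ((a :: t).insertIdx p b) =
        ∑ p ∈ range (t.length + 1), f (a :: t.insertIdx p b) + f (b :: a :: t) := by
      rw [Finset.sum_range_succ']
      simp only [List.insertIdx_zero, List.insertIdx_succ_cons]
    have h4 : ∑ j ∈ range (t.length + 1), f ((a :: t).set j ((a :: t).getD j 0 + b)) =
        ∑ j ∈ range t.length, f (a :: t.set j (t.getD j 0 + b)) + f ((a + b) :: t) := by
      rw [Finset.sum_range_succ']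
      simp only [List.set_cons_zero, List.set_cons_succ, List.getD_cons_zero, List.getD_cons_succ]
    rw [st, List.map_cons, List.map_cons, List.sum_cons, List.sum_cons, h2, h1, List.length_cons,
      h3, h4]
    ring

/-- INS -/
theorem thm_Ins : St_Ins := by
  intro b w hb hw
  rw [(thm_Stf b w hb hw).1, ins_sum]
  rfl

end Pool.Agent.MZF
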