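import Pool.Agent.MZF.St2
import Pool.Agent.MZF.Key

set_option autoImplicit false

namespace Pool.Agent.MZF

open Finset

/-- KEYV -/
theorem thm_KeyV (h1 : St_KstV) (h2 : St_BoxV) : St_KeyV := by
  classical
  intro K hK s M k V hs hfd hfr hk
  set E : ℕ → Finset (Fin s → Fin M) := fun n =>
    univ.filter (fun u => (fun i => (u i : ℕ)) ∈ BadV s n V) with hE
  have hmem : ∀ n u, u ∈ E n ↔ (fun i => (u i : ℕ)) ∈ BadV s n V := by
    intro n u
    rw [hE]
    simp only [mem_filter, mem_univ, true_and]
  have hcard : ∀ n ∈ Icc 1 M, (BadV s n V).ncard = (E n).card := by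
    intro n hn
    rw [mem_Icc] at hn
    have h3 : BadV s n V = (fun (u : Fin s → Fin M) (i : Fin s) => (u i : ℕ)) '' (E n : Set _) := by
      ext v
      constructor
      · intro hv
        have hlt : ∀ i, v i < M := by
          intro i
          have h4 : v i ≤ ∑ i, v i := Finset.single_le_sum (fun j _ => Nat.zero_le _) (mem_univ i)
          have h5 := hv.1.2.2.1
          omega
        exact ⟨fun i => ⟨v i, hlt i⟩, mem_coe.2 ((hmem n _).2 hv), rfl⟩
      · rintro ⟨u, hu, rfl⟩
        exact (hmem n u).1 (mem_coe.1 hu)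
    rw [h3, Set.ncard_image_of_injective, Set.ncard_coe_finset]
    intro u u' h
    funext i
    exact Fin.ext (congrFun h i)
  rw [Finset.sum_congr rfl fun n hn => by rw [hcard n hn]]
  apply h1 s M (k * 2 ^ s) (Icc 1 M) E hs
  · rw [Nat.card_Icc]
    omega
  · intro v w hvw
    have h3 : {n : ℕ | n ∈ Icc 1 M ∧ ∀ e : Finset (Fin s), cor v w e ∈ E n} =
        (((Icc 1 M).filter (fun n => ∀ e : Finset (Fin s), cor v w e ∈ E n) : Finset ℕ) :
          Set ℕ) := by
      ext n
      simp only [Set.mem_ofPred_eq, coe_filter]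
    rw [h3, Set.ncard_coe_finset]
    refine (h2 K hK s (fun i => (v i : ℕ)) (fun i => (w i : ℕ)) V k
      ((Icc 1 M).filter (fun n => ∀ e : Finset (Fin s), cor v w e ∈ E n)) hs hfd hfr hk
      (fun i => hvw i) ?_).trans ?_
    · intro N hN e
      have h4 := (mem_filter.1 hN).2 e
      rw [hmem, key_cor] at h4
      exact h4
    · apply Nat.mul_le_mul_left
      refine card_image_le.trans ?_
      rw [card_univ, Fintype.card_finset, Fintype.card_fin]

end Pool.Agent.MZF
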