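import Pool.Agent.MZF.St

set_option autoImplicit false

/-!
# MZF / Kst (helper90): few boxes, few elements
-/

namespace Pool.Agent.MZF

open Finset

/-- power mean inequality for the exponents `2^k` -/
private theorem kst_pow {ι : Type} (S : Finset ι) (g : ι → ℕ) (k : ℕ) :
    (∑ i ∈ S, g i) ^ (2 ^ k) ≤ S.card ^ (2 ^ k - 1) * ∑ i ∈ S, (g i) ^ (2 ^ k) := by
  induction k with
  | zero => simp
  | succ k ih =>
    have h0 : 1 ≤ 2 ^ k := Nat.one_le_two_pow
    have e1 : 2 ^ (k + 1) = 2 ^ k * 2 := pow_succ 2 k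
    have h1 : (∑ i ∈ S, (g i) ^ (2 ^ k)) ^ 2 ≤ S.card * ∑ i ∈ S, ((g i) ^ (2 ^ k)) ^ 2 := by
      have := sq_sum_le_card_mul_sum_sq (s := S) (f := fun i => (g i) ^ (2 ^ k))
      simpa using this
    calc (∑ i ∈ S, g i) ^ (2 ^ (k + 1)) = ((∑ i ∈ S, g i) ^ (2 ^ k)) ^ 2 := by rw [e1, pow_mul]
      _ ≤ (S.card ^ (2 ^ k - 1) * ∑ i ∈ S, (g i) ^ (2 ^ k)) ^ 2 := Nat.pow_le_pow_left ih 2
      _ = (S.card ^ (2 ^ k - 1)) ^ 2 * (∑ i ∈ S, (g i) ^ (2 ^ k)) ^ 2 := mul_pow _ _ _
      _ ≤ (S.card ^ (2 ^ k - 1)) ^ 2 * (S.card * ∑ i ∈ S, ((g i) ^ (2 ^ k)) ^ 2) :=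
          Nat.mul_le_mul_left _ h1
      _ = S.card ^ (2 ^ (k + 1) - 1) * ∑ i ∈ S, (g i) ^ (2 ^ (k + 1)) := by
          rw [← mul_assoc, ← pow_mul, ← pow_succ]
          congr 1
          · congr 1
            omega
          · refine sum_congr rfl fun i _ => ?_
            rw [← pow_mul, ← e1]

/-- the subsets of `Fin (s + 1)` -/
private theorem kst_prod {s : ℕ} (F : Finset (Fin (s + 1)) → ℕ) :
    ∏ e : Finset (Fin (s + 1)), F e =
      ∏ e : Finset (Fin s), F (e.map (Fin.succEmb s)) * F (insert 0 (e.map (Fin.succEmb s))) := by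
  have hmem : ∀ e : Finset (Fin s), (0 : Fin (s + 1)) ∉ e.map (Fin.succEmb s) := by
    intro e h
    obtain ⟨j, -, hj⟩ := mem_map.1 h
    exact Fin.succ_ne_zero j hj
  have hb : Function.Bijective (Sum.elim (fun e : Finset (Fin s) => e.map (Fin.succEmb s))
      (fun e : Finset (Fin s) => insert 0 (e.map (Fin.succEmb s)))) := by
    constructor
    · rintro (a | a) (b | b) h
      · exact congrArg Sum.inl (map_injective _ h)
      · exfalso
        have h1 : (0 : Fin (s + 1)) ∈ a.map (Fin.succEmb s) := by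
          change a.map (Fin.succEmb s) = insert 0 (b.map (Fin.succEmb s)) at h
          rw [h]
          exact mem_insert_self _ _
        exact hmem a h1
      · exfalso
        have h1 : (0 : Fin (s + 1)) ∈ b.map (Fin.succEmb s) := by
          change insert 0 (a.map (Fin.succEmb s)) = b.map (Fin.succEmb s) at h
          rw [← h]
          exact mem_insert_self _ _
        exact hmem b h1
      · have h1 : insert 0 (a.map (Fin.succEmb s)) = insert 0 (b.map (Fin.succEmb s)) := h
        have h2 : a.map (Fin.succEmb s) = b.map (Fin.succEmb s) := by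
          rw [← erase_insert (hmem a), h1, erase_insert (hmem b)]
        exact congrArg Sum.inr (map_injective _ h2)
    · intro e
      have key : (univ.filter fun j : Fin s => j.succ ∈ e).map (Fin.succEmb s) = e.erase 0 := by
        ext x
        simp only [mem_map, mem_filter, mem_univ, true_and, mem_erase, Fin.coe_succEmb]
        constructor
        · rintro ⟨j, hj, rfl⟩
          exact ⟨Fin.succ_ne_zero j, hj⟩
        · rintro ⟨h1, h2⟩
          obtain ⟨j, rfl⟩ := Fin.exists_succ_eq.2 h1
          exact ⟨j, h2, rfl⟩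
      by_cases h0 : (0 : Fin (s + 1)) ∈ e
      · refine ⟨Sum.inr (univ.filter fun j : Fin s => j.succ ∈ e), ?_⟩
        change insert 0 ((univ.filter fun j : Fin s => j.succ ∈ e).map (Fin.succEmb s)) = e
        rw [key, insert_erase h0]
      · refine ⟨Sum.inl (univ.filter fun j : Fin s => j.succ ∈ e), ?_⟩
        change (univ.filter fun j : Fin s => j.succ ∈ e).map (Fin.succEmb s) = e
        rw [key, erase_eq_of_notMem h0]
  rw [← hb.prod_comp, Fintype.prod_sum_type, prod_mul_distrib]
  rfl

private theorem kst_cor0 {s M : ℕ} (a a' : Fin M) (v w : Fin s → Fin M) (e : Finset (Fin s)) :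
    cor (Fin.cons a v : Fin (s + 1) → Fin M) (Fin.cons a' w) (e.map (Fin.succEmb s)) =
      Fin.cons a (cor v w e) := by
  funext i
  refine Fin.cases ?_ (fun j => ?_) i
  · unfold cor
    rw [if_neg]
    · rfl
    · intro h
      obtain ⟨j, -, hj⟩ := mem_map.1 h
      exact Fin.succ_ne_zero j hj
  · unfold cor
    simp only [Fin.cons_succ]
    have h1 : (j.succ ∈ e.map (Fin.succEmb s)) ↔ j ∈ e := by
      simp
    simp only [h1]

private theorem kst_cor1 {s M : ℕ} (a a' : Fin M) (v w : Fin s → Fin M) (e : Finset (Fin s)) :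
    cor (Fin.cons a v : Fin (s + 1) → Fin M) (Fin.cons a' w) (insert 0 (e.map (Fin.succEmb s))) =
      Fin.cons a' (cor v w e) := by
  funext i
  refine Fin.cases ?_ (fun j => ?_) i
  · unfold cor
    rw [if_pos (mem_insert_self _ _)]
    rfl
  · unfold cor
    simp only [Fin.cons_succ]
    have h1 : (j.succ ∈ insert 0 (e.map (Fin.succEmb s))) ↔ j ∈ e := by
      simp
    simp only [h1]

/-- sums over the functions on `Fin (s + 1)` -/
private theorem kst_sum {s M : ℕ} (f : (Fin (s + 1) → Fin M) → ℕ) :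
    ∑ v, f v = ∑ v : Fin s → Fin M, ∑ a : Fin M, f (Fin.cons a v) := by
  rw [← (Fin.consEquiv (fun _ : Fin (s + 1) => Fin M)).sum_comp, Fintype.sum_prod_type, sum_comm]
  rfl

/-- the box inequality -/
private theorem kst_box (M : ℕ) : ∀ (s : ℕ) (f : (Fin s → Fin M) → ℕ),
    (∑ v, f v) ^ (2 ^ s) ≤ M ^ (s * (2 ^ s - 2)) *
      ∑ v : Fin s → Fin M, ∑ w : Fin s → Fin M, ∏ e : Finset (Fin s), f (cor v w e) := by
  intro s
  induction s with
  | zero =>
    intro f
    have h1 : ∀ v w : Fin 0 → Fin M, ∀ e : Finset (Fin 0), cor v w e = v := fun v w e =>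
      Subsingleton.elim _ _
    simp [h1]
  | succ s ih =>
    intro f
    have h0 : 1 ≤ 2 ^ s := Nat.one_le_two_pow
    have e2 : 2 ^ (s + 1) = 2 * 2 ^ s := pow_succ' 2 s
    let g : Fin M × Fin M → (Fin s → Fin M) → ℕ := fun p v => f (Fin.cons p.1 v) * f (Fin.cons p.2 v)
    have hcs : (∑ v, f v) ^ 2 ≤ M ^ s * ∑ p : Fin M × Fin M, ∑ v, g p v := by
      rw [kst_sum]
      have h1 := sq_sum_le_card_mul_sum_sq (s := (univ : Finset (Fin s → Fin M)))
        (f := fun v => ∑ a : Fin M, f (Fin.cons a v))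
      have h2 : (univ : Finset (Fin s → Fin M)).card = M ^ s := by
        rw [card_univ, Fintype.card_fun, Fintype.card_fin, Fintype.card_fin]
      rw [h2] at h1
      push_cast at h1
      refine h1.trans (le_of_eq ?_)
      congr 1
      rw [sum_comm]
      refine sum_congr rfl fun v _ => ?_
      rw [sq, sum_mul_sum, ← sum_product']
      rfl
    have hstep : ∑ p : Fin M × Fin M, (∑ v : Fin s → Fin M, ∑ w : Fin s → Fin M,
        ∏ e : Finset (Fin s), g p (cor v w e)) =
        ∑ v : Fin (s + 1) → Fin M, ∑ w : Fin (s + 1) → Fin M, ∏ e : Finset (Fin (s + 1)), f (cor v w e) := by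
      rw [kst_sum]
      simp_rw [kst_sum (s := s) (M := M)]
      simp_rw [kst_prod, kst_cor0, kst_cor1]
      rw [Fintype.sum_prod_type]
      calc ∑ a : Fin M, ∑ a' : Fin M, ∑ v : Fin s → Fin M, ∑ w : Fin s → Fin M,
            ∏ e : Finset (Fin s), g (a, a') (cor v w e)
          = ∑ a : Fin M, ∑ v : Fin s → Fin M, ∑ a' : Fin M, ∑ w : Fin s → Fin M,
            ∏ e : Finset (Fin s), g (a, a') (cor v w e) := sum_congr rfl fun a _ => sum_comm
        _ = ∑ v : Fin s → Fin M, ∑ a : Fin M, ∑ a' : Fin M, ∑ w : Fin s → Fin M,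
            ∏ e : Finset (Fin s), g (a, a') (cor v w e) := sum_comm
        _ = _ := by
            refine sum_congr rfl fun v _ => sum_congr rfl fun a _ => ?_
            rw [sum_comm]
    have hcard : (univ : Finset (Fin M × Fin M)).card = M ^ 2 := by
      rw [card_univ, Fintype.card_prod, Fintype.card_fin, sq]
    calc (∑ v, f v) ^ (2 ^ (s + 1)) = ((∑ v, f v) ^ 2) ^ (2 ^ s) := by rw [e2, pow_mul]
      _ ≤ (M ^ s * ∑ p : Fin M × Fin M, ∑ v, g p v) ^ (2 ^ s) := Nat.pow_le_pow_left hcs _
      _ = (M ^ s) ^ (2 ^ s) * (∑ p : Fin M × Fin M, ∑ v, g p v) ^ (2 ^ s) := mul_pow _ _ _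
      _ ≤ (M ^ s) ^ (2 ^ s) * ((M ^ 2) ^ (2 ^ s - 1) * ∑ p : Fin M × Fin M, (∑ v, g p v) ^ (2 ^ s)) := by
          refine Nat.mul_le_mul_left _ ?_
          have := kst_pow (univ : Finset (Fin M × Fin M)) (fun p => ∑ v, g p v) s
          rwa [hcard] at this
      _ ≤ (M ^ s) ^ (2 ^ s) * ((M ^ 2) ^ (2 ^ s - 1) * ∑ p : Fin M × Fin M,
            (M ^ (s * (2 ^ s - 2)) * ∑ v : Fin s → Fin M, ∑ w : Fin s → Fin M,
              ∏ e : Finset (Fin s), g p (cor v w e))) := by
          refine Nat.mul_le_mul_left _ (Nat.mul_le_mul_left _ (sum_le_sum fun p _ => ih (g p)))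
      _ = M ^ ((s + 1) * (2 ^ (s + 1) - 2)) * ∑ v : Fin (s + 1) → Fin M, ∑ w : Fin (s + 1) → Fin M,
            ∏ e : Finset (Fin (s + 1)), f (cor v w e) := by
          rw [← mul_sum, hstep, ← mul_assoc, ← mul_assoc, ← pow_mul, ← pow_mul, ← pow_add, ← pow_add]
          congr 2
          rcases Nat.eq_zero_or_pos s with rfl | hs
          · simp
          · have h1 : 2 ≤ 2 ^ s := by
              calc 2 = 2 ^ 1 := rfl
                _ ≤ 2 ^ s := Nat.pow_le_pow_right (by norm_num) hs
            rw [e2]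
            obtain ⟨t, ht⟩ := Nat.exists_eq_add_of_le h1
            rw [ht]
            have a1 : 2 + t - 1 = 1 + t := by omega
            have a2 : 2 + t - 2 = t := by omega
            have a3 : 2 * (2 + t) - 2 = 2 + 2 * t := by omega
            rw [a1, a2, a3]
            ring

/-- exchange of the corners -/
private theorem kst_swap {s M : ℕ} (v w : Fin s → Fin M) (e : Finset (Fin s)) :
    ∃ e' : Finset (Fin s), cor (fun i => min (v i) (w i)) (fun i => max (v i) (w i)) e = cor v w e' := by
  classical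
  refine ⟨univ.filter fun i => (i ∈ e ∧ v i ≤ w i) ∨ (i ∉ e ∧ w i < v i), ?_⟩
  funext i
  unfold cor
  simp only [mem_filter, mem_univ, true_and]
  by_cases he : i ∈ e
  · rcases le_or_gt (v i) (w i) with h | h
    · simp [he, h]
    · simp [he, h, not_le.2 h, h.le]
  · rcases le_or_gt (v i) (w i) with h | h
    · simp [he, h, not_lt.2 h]
    · simp [he, h, h.le]

/-- the pairs with a common entry number `i` -/
private theorem kst_diag {s M : ℕ} (i : Fin s) :
    (univ.filter fun p : (Fin s → Fin M) × (Fin s → Fin M) => p.1 i = p.2 i).card * M ≤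
      M ^ s * M ^ s := by
  classical
  have h1 : (univ.filter fun p : (Fin s → Fin M) × (Fin s → Fin M) => p.1 i = p.2 i).card * M =
      ((univ.filter fun p : (Fin s → Fin M) × (Fin s → Fin M) => p.1 i = p.2 i) ×ˢ
        (univ : Finset (Fin M))).card := by
    rw [card_product, card_univ, Fintype.card_fin]
  have h2 : M ^ s * M ^ s = (univ : Finset ((Fin s → Fin M) × (Fin s → Fin M))).card := by
    rw [card_univ, Fintype.card_prod, Fintype.card_fun, Fintype.card_fin, Fintype.card_fin]
  rw [h1, h2]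
  refine card_le_card_of_injOn (fun q => (q.1.1, Function.update q.1.2 i q.2)) (fun _ _ => mem_univ _) ?_
  rintro ⟨⟨v, w⟩, a⟩ hq ⟨⟨v', w'⟩, a'⟩ hq' h
  simp only [coe_product, Set.mem_prod, mem_coe, mem_filter, mem_univ, true_and, and_true] at hq hq'
  simp only [Prod.mk.injEq] at h
  obtain ⟨rfl, h⟩ := h
  have h3 : a = a' := by
    have := congrFun h i
    simpa using this
  subst h3
  have h4 : w = w' := by
    funext j
    by_cases hj : j = i
    · subst hj
      rw [← hq, ← hq']
    · have := congrFun h j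
      simpa [Function.update_of_ne hj] using this
  rw [h4]

theorem thm_Kst : St_Kst := by
  classical
  intro s M W E hs hW hbox
  have h2s : 2 ≤ 2 ^ s := by
    calc 2 = 2 ^ 1 := rfl
      _ ≤ 2 ^ s := Nat.pow_le_pow_right (by norm_num) hs
  -- the pairs
  let c : (Fin s → Fin M) → (Fin s → Fin M) → Finset ℕ := fun v w =>
    W.filter fun n => ∀ e : Finset (Fin s), cor v w e ∈ E n
  have hc1 : ∀ v w, (∀ i, v i ≠ w i) → (c v w).card ≤ 2 ^ s := by
    intro v w hvw
    have h1 := hbox (fun i => min (v i) (w i)) (fun i => max (v i) (w i)) fun i => by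
      rw [min_lt_max]
      exact hvw i
    refine le_trans ?_ h1
    rw [← Set.ncard_coe_finset]
    refine Set.ncard_le_ncard ?_ (W.finite_toSet.subset fun n hn => hn.1)
    intro n hn
    rw [mem_coe, mem_filter] at hn
    refine ⟨hn.1, fun e => ?_⟩
    obtain ⟨e', he'⟩ := kst_swap v w e
    rw [he']
    exact hn.2 e'
  have hc2 : ∀ v w, (c v w).card ≤ M := fun v w => (card_filter_le _ _).trans hW
  have hind : ∀ n, (E n).card = ∑ v : Fin s → Fin M, (if v ∈ E n then 1 else 0) := by
    intro n
    rw [sum_boole, Nat.cast_id]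
    congr 1
    ext v
    simp
  have hprod : ∀ n (v w : Fin s → Fin M), ∏ e : Finset (Fin s), (if cor v w e ∈ E n then 1 else 0) =
      (if ∀ e : Finset (Fin s), cor v w e ∈ E n then 1 else 0 : ℕ) := by
    intro n v w
    rw [prod_boole]
    simp
  have hmain : ∑ n ∈ W, (E n).card ^ (2 ^ s) ≤ M ^ (s * (2 ^ s - 2)) *
      ∑ v : Fin s → Fin M, ∑ w : Fin s → Fin M, (c v w).card := by
    have h1 : ∀ n ∈ W, (E n).card ^ (2 ^ s) ≤ M ^ (s * (2 ^ s - 2)) *
        ∑ v : Fin s → Fin M, ∑ w : Fin s → Fin M,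
          (if ∀ e : Finset (Fin s), cor v w e ∈ E n then 1 else 0) := by
      intro n _
      have := kst_box M s (fun v => if v ∈ E n then 1 else 0)
      rw [← hind n] at this
      simp_rw [hprod] at this
      exact this
    refine (sum_le_sum h1).trans (le_of_eq ?_)
    rw [← mul_sum]
    congr 1
    rw [sum_comm]
    refine sum_congr rfl fun v _ => ?_
    rw [sum_comm]
    refine sum_congr rfl fun w _ => ?_
    rw [sum_boole, Nat.cast_id]
  have hsum : ∑ v : Fin s → Fin M, ∑ w : Fin s → Fin M, (c v w).card ≤ (2 ^ s + s) * (M ^ s * M ^ s) := by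
    have h1 : ∀ v w, (c v w).card ≤ 2 ^ s + ∑ i : Fin s, (if v i = w i then M else 0) := by
      intro v w
      by_cases h : ∃ i, v i = w i
      · obtain ⟨i, hi⟩ := h
        refine (hc2 v w).trans ?_
        have h2 : M ≤ ∑ i : Fin s, (if v i = w i then M else 0) := by
          refine le_trans (le_of_eq ?_) (single_le_sum (f := fun i : Fin s => if v i = w i then M else 0)
            (fun _ _ => Nat.zero_le _) (mem_univ i))
          simp [hi]
        omega
      · push Not at h
        exact (hc1 v w h).trans (Nat.le_add_right _ _)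
    calc ∑ v : Fin s → Fin M, ∑ w : Fin s → Fin M, (c v w).card
        ≤ ∑ v : Fin s → Fin M, ∑ w : Fin s → Fin M, (2 ^ s + ∑ i : Fin s, (if v i = w i then M else 0)) :=
          sum_le_sum fun v _ => sum_le_sum fun w _ => h1 v w
      _ = 2 ^ s * (M ^ s * M ^ s) + ∑ i : Fin s,
            (univ.filter fun p : (Fin s → Fin M) × (Fin s → Fin M) => p.1 i = p.2 i).card * M := by
          have h3 : ∀ i : Fin s, (univ.filter fun p : (Fin s → Fin M) × (Fin s → Fin M) =>
              p.1 i = p.2 i).card * M = ∑ v : Fin s → Fin M, ∑ w : Fin s → Fin M,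
                (if v i = w i then M else 0) := by
            intro i
            rw [← Fintype.sum_prod_type' (f := fun v w : Fin s → Fin M => if v i = w i then M else 0),
              ← sum_filter, sum_const, smul_eq_mul]
          simp_rw [sum_add_distrib, h3]
          congr 1
          · rw [sum_const, sum_const, card_univ, Fintype.card_fun, Fintype.card_fin, Fintype.card_fin,
              smul_eq_mul, smul_eq_mul]
            ring
          · rw [sum_comm]
            have : ∀ v : Fin s → Fin M, ∑ w : Fin s → Fin M, ∑ i : Fin s, (if v i = w i then M else 0) =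
                ∑ i : Fin s, ∑ w : Fin s → Fin M, (if v i = w i then M else 0) := fun v => sum_comm
            rw [sum_comm]
            simp_rw [this]
            rw [sum_comm]
      _ ≤ 2 ^ s * (M ^ s * M ^ s) + ∑ i : Fin s, M ^ s * M ^ s := by
          exact Nat.add_le_add_left (sum_le_sum fun i _ => kst_diag i) _
      _ = (2 ^ s + s) * (M ^ s * M ^ s) := by
          rw [sum_const, card_univ, Fintype.card_fin, smul_eq_mul]
          ring
  calc ∑ n ∈ W, (E n).card ^ (2 ^ s) ≤ M ^ (s * (2 ^ s - 2)) * ((2 ^ s + s) * (M ^ s * M ^ s)) :=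
        hmain.trans (Nat.mul_le_mul_left _ hsum)
    _ = (2 ^ s + s) * (M ^ (s * (2 ^ s - 2)) * (M ^ s * M ^ s)) := by ring
    _ = (2 ^ s + s) * M ^ (s * 2 ^ s) := by
        rw [← pow_add, ← pow_add]
        congr 2
        obtain ⟨t, ht⟩ := Nat.exists_eq_add_of_le h2s
        rw [ht]
        have a2 : 2 + t - 2 = t := by omega
        rw [a2]
        ring

end Pool.Agent.MZF
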