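import Pool.Agent.MZF.St
import Pool.Agent.MZA.Cnt

set_option autoImplicit false

/-!
# MZF: LOW, a lower bound for the number of indices with an even entry
-/

namespace Pool.Agent.MZF

open Finset
open Pool.Agent.MZA (Idx)

/-- the sum of all entries but the last one -/
def low_sum {t T : ℕ} (y : Fin (t + 1) → Fin T) : ℕ :=
  2 * ((y 0).1 + 1) + ∑ i : Fin t, ((y i.succ).1 + 1)

/-- the index given by `y` -/
def low_idx {t T : ℕ} (n : ℕ) (y : Fin (t + 1) → Fin T) : List ℕ :=
  (2 * ((y 0).1 + 1)) :: (List.ofFn (fun i : Fin t => (y i.succ).1 + 1) ++ [n - low_sum y])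

theorem low_sum_le {t T : ℕ} (y : Fin (t + 1) → Fin T) : low_sum y ≤ (t + 2) * T := by
  have h1 : ∑ i : Fin t, ((y i.succ).1 + 1) ≤ ∑ _i : Fin t, T := Finset.sum_le_sum fun i _ => (y i.succ).2
  rw [Finset.sum_const, Finset.card_univ, Fintype.card_fin, smul_eq_mul] at h1
  have h2 : (y 0).1 + 1 ≤ T := (y 0).2
  unfold low_sum
  calc 2 * ((y 0).1 + 1) + ∑ i : Fin t, ((y i.succ).1 + 1) ≤ 2 * T + t * T := by omega
    _ = (t + 2) * T := by ring

theorem low_inj {t T n : ℕ} : Function.Injective (low_idx (t := t) (T := T) n) := by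
  intro y z h
  unfold low_idx at h
  rw [List.cons.injEq] at h
  obtain ⟨h1, h2⟩ := h
  have h3 := List.append_inj_left h2 (by rw [List.length_ofFn, List.length_ofFn])
  have h4 := List.ofFn_injective h3
  funext i
  refine Fin.cases ?_ (fun j => ?_) i
  · apply Fin.ext
    omega
  · have h5 := congrFun h4 j
    apply Fin.ext
    omega

theorem thm_Low : St_Low := by
  intro s n hs hn
  obtain ⟨t, rfl⟩ : ∃ t, s = t + 1 := ⟨s - 1, by omega⟩
  have hT0 : 0 < 2 * (t + 1 + 1) := by omega
  set T := n / (2 * (t + 1 + 1)) with hT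
  have hT1 : 1 ≤ T := (Nat.one_le_div_iff hT0).2 hn
  have hTn : (t + 2) * T * 2 ≤ n := by
    have := Nat.div_mul_le_self n (2 * (t + 1 + 1))
    rw [← hT] at this
    calc (t + 2) * T * 2 = T * (2 * (t + 1 + 1)) := by ring
      _ ≤ n := this
  have hnT : n ≤ 4 * (t + 2) * T := by
    have h1 := Nat.lt_mul_div_succ n hT0
    rw [← hT] at h1
    have h2 : 2 * (t + 1 + 1) * (T + 1) ≤ 4 * (t + 2) * T := by
      calc 2 * (t + 1 + 1) * (T + 1) ≤ 2 * (t + 1 + 1) * (T + T) := Nat.mul_le_mul_left _ (by omega)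
        _ = 4 * (t + 2) * T := by ring
    exact (h1.trans_le h2).le
  have hpos : 0 < (t + 2) * T := Nat.mul_pos (by omega) hT1
  have hsub : Set.range (low_idx (t := t) (T := T) n) ⊆ Ev n (t + 1 + 1) := by
    rintro _ ⟨y, rfl⟩
    have h1 := low_sum_le y
    have h2 : low_sum y < n := by omega
    refine ⟨⟨?_, ?_, ?_⟩, ?_, ?_⟩
    · intro a ha
      unfold low_idx at ha
      rw [List.mem_cons, List.mem_append, List.mem_ofFn, List.mem_singleton] at ha
      rcases ha with ha | ⟨i, ha⟩ | ha <;> omega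
    · intro a l h
      unfold low_idx at h
      rw [List.cons.injEq] at h
      omega
    · unfold low_idx
      rw [List.sum_cons, List.sum_append, List.sum_ofFn, List.sum_singleton]
      have h3 : low_sum y = 2 * ((y 0).1 + 1) + ∑ i : Fin t, ((y i.succ).1 + 1) := rfl
      omega
    · unfold low_idx
      rw [List.length_cons, List.length_append, List.length_ofFn, List.length_singleton]
    · exact ⟨2 * ((y 0).1 + 1), List.mem_cons_self, even_two_mul _⟩
  have hfin : (Ev n (t + 1 + 1)).Finite :=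
    (Pool.Agent.MZA.thm_Cnt n (by omega)).1.subset fun w hw => hw.1
  have hcard : T ^ (t + 1) ≤ (Ev n (t + 1 + 1)).ncard := by
    refine le_trans (le_of_eq ?_) (Set.ncard_le_ncard hsub hfin)
    rw [← Set.image_univ, Set.ncard_image_of_injective _ low_inj, Set.ncard_univ, Nat.card_eq_fintype_card,
      Fintype.card_fun, Fintype.card_fin, Fintype.card_fin]
  have hreal : (n : ℝ) / (4 * (((t + 1 : ℕ) : ℝ) + 1)) ≤ (T : ℝ) := by
    rw [div_le_iff₀ (by positivity)]
    have h1 : (n : ℝ) ≤ 4 * (t + 2) * T := by exact_mod_cast hnT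
    push_cast
    linarith
  calc ((n : ℝ) / (4 * (((t + 1 : ℕ) : ℝ) + 1))) ^ (t + 1) ≤ (T : ℝ) ^ (t + 1) :=
        pow_le_pow_left₀ (by positivity) hreal _
    _ ≤ ((Ev n (t + 1 + 1)).ncard : ℝ) := by exact_mod_cast hcard

end Pool.Agent.MZF
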