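import Pool.Agent.MZF.St

set_option autoImplicit false

/-!
# Multiple zeta values of fixed depth: the module OVL
-/

namespace Pool.Agent.MZF

open Finset

theorem ovl_num (s : ℕ) : 2 ^ s + s ≤ 2 ^ (2 ^ s) := by
  have h1 : s < 2 ^ s := Nat.lt_two_pow_self
  calc 2 ^ s + s ≤ 2 ^ s + 2 ^ s := by omega
    _ = 2 ^ (s + 1) := by ring
    _ ≤ 2 ^ (2 ^ s) := Nat.pow_le_pow_right (by norm_num) h1

theorem ovl_bad (h1 : St_Key) (s M : ℕ) (x : ℝ) (hs : 1 ≤ s) (hx : x ≠ 0) (hM : 1 ≤ M) :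
    ∑ n ∈ Icc 1 M, ((Bad s n x).ncard : ℝ) ≤ 2 * (M : ℝ) ^ ((s : ℝ) + 1 - 1 / 2 ^ s) := by
  have hM' : (0 : ℝ) < (M : ℝ) := by exact_mod_cast hM
  obtain ⟨q, hq⟩ : ∃ q, 2 ^ s = q + 1 := ⟨2 ^ s - 1, by
    have := Nat.one_le_two_pow (n := s)
    omega⟩
  have h2 := pow_sum_div_card_le_sum_pow (s := Icc 1 M)
    (f := fun n => ((Bad s n x).ncard : ℝ)) (n := q) (fun n _ => Nat.cast_nonneg _)
  have h3 := h1 s M x hs hx
  have h3' : ∑ n ∈ Icc 1 M, ((Bad s n x).ncard : ℝ) ^ (q + 1) ≤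
      (2 : ℝ) ^ (q + 1) * (M : ℝ) ^ (s * (q + 1)) := by
    rw [hq] at h3
    have h4 : (∑ n ∈ Icc 1 M, (Bad s n x).ncard ^ (q + 1)) ≤ 2 ^ (q + 1) * M ^ (s * (q + 1)) := by
      refine h3.trans ?_
      refine Nat.mul_le_mul_right _ ?_
      have h5 := ovl_num s
      rw [hq] at h5
      exact h5
    have h6 : ((∑ n ∈ Icc 1 M, (Bad s n x).ncard ^ (q + 1) : ℕ) : ℝ) ≤
        ((2 ^ (q + 1) * M ^ (s * (q + 1)) : ℕ) : ℝ) := by exact_mod_cast h4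
    push_cast at h6
    exact h6
  have h7 : (∑ n ∈ Icc 1 M, ((Bad s n x).ncard : ℝ)) ^ (q + 1) ≤
      (M : ℝ) ^ q * ((2 : ℝ) ^ (q + 1) * (M : ℝ) ^ (s * (q + 1))) := by
    have h8 : ((#(Icc 1 M) : ℕ) : ℝ) = M := by rw [Nat.card_Icc, Nat.add_sub_cancel]
    rw [h8] at h2
    have h9 := h2.trans h3'
    rw [div_le_iff₀ (by positivity)] at h9
    linarith
  have h10 : (2 * (M : ℝ) ^ ((s : ℝ) + 1 - 1 / 2 ^ s)) ^ (q + 1) =
      (M : ℝ) ^ q * ((2 : ℝ) ^ (q + 1) * (M : ℝ) ^ (s * (q + 1))) := by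
    rw [mul_pow, ← Real.rpow_natCast ((M : ℝ) ^ ((s : ℝ) + 1 - 1 / 2 ^ s)) (q + 1),
      ← Real.rpow_mul hM'.le]
    have e : ((s : ℝ) + 1 - 1 / 2 ^ s) * ((q + 1 : ℕ) : ℝ) = ((q + s * (q + 1) : ℕ) : ℝ) := by
      have e1 : ((2 : ℝ) ^ s) = ((q + 1 : ℕ) : ℝ) := by
        rw [← hq]
        push_cast
        rfl
      rw [e1]
      have e2 : (((q + 1 : ℕ) : ℝ)) ≠ 0 := by positivity
      field_simp
      push_cast
      ring
    rw [e, Real.rpow_natCast, pow_add]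
    ring
  rw [← h10] at h7
  exact le_of_pow_le_pow_left₀ (Nat.succ_ne_zero q) (by positivity) h7

theorem thm_Ovl (h1 : St_Key) (h2 : St_Ded) : St_Ovl := by
  intro s x M hs hx
  rcases Nat.eq_zero_or_pos M with rfl | hM
  · have h0 := Real.rpow_nonneg (le_refl (0 : ℝ)) ((s : ℝ) + 1 - 1 / 2 ^ s)
    simpa using h0
  · have hM1 : (1 : ℝ) ≤ (M : ℝ) := by exact_mod_cast hM
    have hb := ovl_bad h1 s M x hs hx hM
    have h3 : ∑ n ∈ Icc 1 M, ((Ev n (s + 1)).ncard : ℝ) ≤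
        ((s : ℝ) + 1) * (∑ n ∈ Icc 1 M, ((OffEv n (s + 1) x).ncard : ℝ) +
          ∑ n ∈ Icc 1 M, ((Bad s n x).ncard : ℝ)) + (M : ℝ) ^ s := by
      have h4 : ∀ n ∈ Icc 1 M, ((Ev n (s + 1)).ncard : ℝ) ≤
          ((s : ℝ) + 1) * (((OffEv n (s + 1) x).ncard : ℝ) + ((Bad s n x).ncard : ℝ)) +
            (M : ℝ) ^ (s - 1) := by
        intro n hn
        have h5 := h2 s n x hs
        have h6 : ((Ev n (s + 1)).ncard : ℝ) ≤
            (((s + 1) * ((OffEv n (s + 1) x).ncard + (Bad s n x).ncard) + n ^ (s - 1) : ℕ) : ℝ) := by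
          exact_mod_cast h5
        push_cast at h6
        have h7 : ((n : ℝ)) ^ (s - 1) ≤ (M : ℝ) ^ (s - 1) := by
          apply pow_le_pow_left₀ (Nat.cast_nonneg n)
          exact_mod_cast (Finset.mem_Icc.mp hn).2
        linarith
      refine (Finset.sum_le_sum h4).trans (le_of_eq ?_)
      rw [Finset.sum_add_distrib, ← Finset.mul_sum, Finset.sum_add_distrib, Finset.sum_const,
        Nat.card_Icc, Nat.add_sub_cancel, nsmul_eq_mul, ← pow_succ', Nat.sub_add_cancel hs]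
    have hs0 : (0 : ℝ) < (s : ℝ) + 1 := by positivity
    have h8 : (M : ℝ) ^ s / ((s : ℝ) + 1) ≤ (M : ℝ) ^ ((s : ℝ) + 1 - 1 / 2 ^ s) := by
      have e1 : (1 : ℝ) / 2 ^ s ≤ 1 := by
        rw [div_le_one (by positivity)]
        exact one_le_pow₀ (by norm_num)
      calc (M : ℝ) ^ s / ((s : ℝ) + 1) ≤ (M : ℝ) ^ s := by
            apply div_le_self (by positivity)
            have : (0 : ℝ) ≤ s := Nat.cast_nonneg s
            linarith
        _ = (M : ℝ) ^ (s : ℝ) := (Real.rpow_natCast _ _).symm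
        _ ≤ _ := Real.rpow_le_rpow_of_exponent_le hM1 (by linarith)
    have h9 : (∑ n ∈ Icc 1 M, ((Ev n (s + 1)).ncard : ℝ)) / ((s : ℝ) + 1) ≤
        (∑ n ∈ Icc 1 M, ((OffEv n (s + 1) x).ncard : ℝ) +
          ∑ n ∈ Icc 1 M, ((Bad s n x).ncard : ℝ)) + (M : ℝ) ^ s / ((s : ℝ) + 1) := by
      rw [div_le_iff₀ hs0, add_mul, div_mul_cancel₀ _ hs0.ne']
      linarith
    linarith

end Pool.Agent.MZF
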