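import Pool.Agent.MZF.St2

set_option autoImplicit false

/-!
# All weights up to `M` together
-/

namespace Pool.Agent.MZF

open Finset

/-- power mean inequality for the exponents `2^k` (from Kst.lean of helper90) -/
theorem ovlv_pow {ι : Type} (S : Finset ι) (g : ι → ℕ) (k : ℕ) :
    (∑ i ∈ S, g i) ^ (2 ^ k) ≤ S.card ^ (2 ^ k - 1) * ∑ i ∈ S, (g i) ^ (2 ^ k) := by
  induction k with
  | zero => simp
  | succ k ih =>
    have h0 : 1 ≤ 2 ^ k := Nat.one_le_two_pow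
    have e1 : 2 ^ (k + 1) = 2 ^ k * 2 := pow_succ 2 k
    have h1 : (∑ i ∈ S, (g i) ^ (2 ^ k)) ^ 2 ≤ S.card * ∑ i ∈ S, ((g i) ^ (2 ^ k)) ^ 2 := by
      have := sq_sum_le_card_mul_sum_sq (s := S) (f := fun i => (g i) ^ (2 ^ k))
      simpa using this
    calc (∑ i ∈ S, g i) ^ (2 ^ (k + 1)) = ((∑ i ∈ S, g i) ^ (2 ^ k)) ^ 2 := by rw [e1, pow_mul]
      _ ≤ (S.card ^ (2 ^ k - 1) * ∑ i ∈ S, (g i) ^ (2 ^ k)) ^ 2 := Nat.pow_le_pow_left ih 2
      _ = (S.card ^ (2 ^ k - 1)) ^ 2 * (∑ i ∈ S, (g i) ^ (2 ^ k)) ^ 2 := mul_pow _ _ _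
      _ ≤ (S.card ^ (2 ^ k - 1)) ^ 2 * (S.card * ∑ i ∈ S, ((g i) ^ (2 ^ k)) ^ 2) :=
          Nat.mul_le_mul_left _ h1
      _ = S.card ^ (2 ^ (k + 1) - 1) * ∑ i ∈ S, (g i) ^ (2 ^ (k + 1)) := by
          rw [← mul_assoc, ← pow_mul, ← pow_succ]
          congr 1
          · congr 1
            omega
          · refine sum_congr rfl fun i _ => ?_
            rw [← pow_mul, ← e1]

theorem ovlv_two (s : ℕ) : 2 ^ s + s ≤ 2 ^ 2 ^ s := by
  have h1 : s < 2 ^ s := Nat.lt_two_pow_self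
  obtain ⟨t, ht⟩ : ∃ t, 2 ^ s = t + 1 := ⟨2 ^ s - 1, by omega⟩
  rw [ht] at h1 ⊢
  have h2 : t < 2 ^ t := Nat.lt_two_pow_self
  rw [pow_succ]
  omega

/-- OVLV -/
theorem thm_OvlV (h1 : St_KeyV) (h2 : St_DedV) : St_OvlV := by
  intro K hK s k V M hs hfd hfr hk hM
  set B : ℕ → ℕ := fun n => (BadV s n V).ncard with hB
  have hM0 : (0 : ℝ) < M := by exact_mod_cast hM
  have hk0 : (0 : ℝ) < k := by exact_mod_cast hk
  set y : ℝ := ((k : ℝ) / M) ^ ((1 : ℝ) / 2 ^ s) with hy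
  have hy0 : 0 ≤ y := Real.rpow_nonneg (by positivity) _
  have hyq : y ^ (2 ^ s) = (k : ℝ) / M := by
    have h3 : ((1 : ℝ) / 2 ^ s) = (((2 ^ s : ℕ) : ℝ))⁻¹ := by
      push_cast
      rw [one_div]
    rw [hy, h3]
    exact Real.rpow_inv_natCast_pow (by positivity) (by positivity)
  -- the bad ones
  have hbad : ((∑ n ∈ Icc 1 M, B n : ℕ) : ℝ) ≤ 2 * (M : ℝ) ^ (s + 1) * y := by
    have h3 : (∑ n ∈ Icc 1 M, B n) ^ (2 ^ s) ≤
        M ^ (2 ^ s - 1) * ((k * 2 ^ s + s) * M ^ (s * 2 ^ s)) := by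
      refine (ovlv_pow (Icc 1 M) B s).trans ?_
      rw [Nat.card_Icc, Nat.add_sub_cancel]
      exact Nat.mul_le_mul_left _ (h1 K hK s M k V hs hfd hfr hk)
    have h4 : k * 2 ^ s + s ≤ k * 2 ^ 2 ^ s := by
      have h5 : s ≤ k * s := Nat.le_mul_of_pos_left s hk
      calc k * 2 ^ s + s ≤ k * 2 ^ s + k * s := Nat.add_le_add_left h5 _
        _ = k * (2 ^ s + s) := by ring
        _ ≤ _ := Nat.mul_le_mul_left _ (ovlv_two s)
    have h5 : (∑ n ∈ Icc 1 M, B n) ^ (2 ^ s) * M ≤ k * 2 ^ 2 ^ s * M ^ ((s + 1) * 2 ^ s) := by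
      obtain ⟨t, ht⟩ : ∃ t, 2 ^ s = t + 1 := ⟨2 ^ s - 1, by
        have : 1 ≤ 2 ^ s := Nat.one_le_two_pow
        omega⟩
      calc (∑ n ∈ Icc 1 M, B n) ^ (2 ^ s) * M
          ≤ M ^ (2 ^ s - 1) * ((k * 2 ^ s + s) * M ^ (s * 2 ^ s)) * M :=
            Nat.mul_le_mul_right _ h3
        _ ≤ M ^ (2 ^ s - 1) * ((k * 2 ^ 2 ^ s) * M ^ (s * 2 ^ s)) * M :=
            Nat.mul_le_mul_right _ (Nat.mul_le_mul_left _ (Nat.mul_le_mul_right _ h4))
        _ = k * 2 ^ 2 ^ s * M ^ ((s + 1) * 2 ^ s) := by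
            rw [ht, Nat.add_sub_cancel]
            ring
    have h6 : (((∑ n ∈ Icc 1 M, B n : ℕ) : ℝ)) ^ (2 ^ s) ≤
        (2 * (M : ℝ) ^ (s + 1) * y) ^ (2 ^ s) := by
      have h7 : (((∑ n ∈ Icc 1 M, B n : ℕ) : ℝ)) ^ (2 ^ s) * M ≤
          k * 2 ^ 2 ^ s * (M : ℝ) ^ ((s + 1) * 2 ^ s) := by exact_mod_cast h5
      rw [mul_pow, mul_pow, hyq, ← pow_mul]
      calc (((∑ n ∈ Icc 1 M, B n : ℕ) : ℝ)) ^ (2 ^ s)
          = (((∑ n ∈ Icc 1 M, B n : ℕ) : ℝ)) ^ (2 ^ s) * M / M := by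
            rw [mul_div_cancel_right₀ _ hM0.ne']
        _ ≤ k * 2 ^ 2 ^ s * (M : ℝ) ^ ((s + 1) * 2 ^ s) / M :=
            div_le_div_of_nonneg_right h7 hM0.le
        _ = _ := by ring
    exact le_of_pow_le_pow_left₀ (by positivity) (by positivity) h6
  -- the small terms
  have hsm : (M : ℝ) ^ s ≤ (M : ℝ) ^ (s + 1) * y := by
    have h3 : (1 : ℝ) / M ≤ y := by
      have h4 : (1 : ℝ) / M ≤ 1 := by
        rw [div_le_one hM0]
        exact_mod_cast hM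
      calc (1 : ℝ) / M = ((1 : ℝ) / M) ^ (1 : ℝ) := (Real.rpow_one _).symm
        _ ≤ ((1 : ℝ) / M) ^ ((1 : ℝ) / 2 ^ s) := by
            apply Real.rpow_le_rpow_of_exponent_ge (by positivity) h4
            rw [div_le_one (by positivity)]
            exact one_le_pow₀ one_le_two
        _ ≤ y := by
            apply Real.rpow_le_rpow (by positivity) _ (by positivity)
            apply div_le_div_of_nonneg_right _ hM0.le
            exact_mod_cast hk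
    calc (M : ℝ) ^ s = (M : ℝ) ^ (s + 1) * (1 / M) := by
          rw [pow_succ]
          field_simp
      _ ≤ _ := mul_le_mul_of_nonneg_left h3 (by positivity)
  have hsum : ((∑ n ∈ Icc 1 M, n ^ (s - 1) : ℕ) : ℝ) ≤ (M : ℝ) ^ s := by
    have h3 : ∑ n ∈ Icc 1 M, n ^ (s - 1) ≤ M ^ s := by
      calc ∑ n ∈ Icc 1 M, n ^ (s - 1) ≤ ∑ _n ∈ Icc 1 M, M ^ (s - 1) :=
            Finset.sum_le_sum fun n hn => Nat.pow_le_pow_left (mem_Icc.1 hn).2 _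
        _ = M * M ^ (s - 1) := by
            rw [Finset.sum_const, Nat.card_Icc, smul_eq_mul, Nat.add_sub_cancel]
        _ = M ^ s := by
            rw [← pow_succ']
            congr 1
            omega
    exact_mod_cast h3
  -- the sum of DED
  have hded : (∑ n ∈ Icc 1 M, ((Ev n (s + 1)).ncard : ℝ)) ≤
      (s + 1) * ((∑ n ∈ Icc 1 M, ((OutEv n (s + 1) V).ncard : ℝ)) +
        ((∑ n ∈ Icc 1 M, B n : ℕ) : ℝ)) + ((∑ n ∈ Icc 1 M, n ^ (s - 1) : ℕ) : ℝ) := by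
    push_cast
    rw [← Finset.sum_add_distrib, Finset.mul_sum, ← Finset.sum_add_distrib]
    apply Finset.sum_le_sum
    intro n _
    exact_mod_cast h2 K s n V hs
  have hs1 : (0 : ℝ) < (s : ℝ) + 1 := by positivity
  have h3 : (∑ n ∈ Icc 1 M, ((Ev n (s + 1)).ncard : ℝ)) / (s + 1) ≤
      (∑ n ∈ Icc 1 M, ((OutEv n (s + 1) V).ncard : ℝ)) + 2 * (M : ℝ) ^ (s + 1) * y +
        (M : ℝ) ^ (s + 1) * y := by
    rw [div_le_iff₀ hs1]
    have h4 : (M : ℝ) ^ (s + 1) * y ≤ (M : ℝ) ^ (s + 1) * y * (s + 1) := by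
      have h5 : 0 ≤ (M : ℝ) ^ (s + 1) * y := by positivity
      have h6 : (0 : ℝ) ≤ s := by positivity
      nlinarith
    have h7 := mul_le_mul_of_nonneg_left hbad hs1.le
    nlinarith
  linarith

end Pool.Agent.MZF
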