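import Pool.Agent.MZA.St

set_option autoImplicit false

/-!
# Multiple zeta values of fixed depth (MP_2000e9_nt), the statements of the modules

`A` = the real numbers algebraic over the rationals, `r = s + 1` = the depth, `x ≠ 0` a real number.
`Ev n r` = the indices of weight `n` and depth `r` with at least one even entry, `OffEv n r x` = those
among them whose value is not in `A x`.

For an index `v = (v_0, ..., v_{s-1})` and an even `b ≥ 2` let `ins b v` be the sum of the `s + 1` values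
of the indices obtained from `v` by inserting `b`.  `Bad s n x` = the `v` with `n - |v|` even and positive
such that `ins (n - |v|) v` is in `A x`.  The quasi-shuffle product is
`ζ(b) ζ(v) = ins b v + ∑_j ζ(v + b e_j)` (INS).  For `b = n - |v|` the entry number `j` of `v + b e_j` is
`n - ∑_{i ≠ j} v_i`, which does not depend on `v_j`.  So for a box `{v_i, w_i}` (`i < s`) the alternating
sum over the corners `u` of `ins (n - |u|) u` is `∑_u ± ζ(n - |u|) ζ(u) = ∑_m Z_m ζ(n - m)`.  As the matrices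
`ζ(n_k - m_l)` are not singular (TP) and `π` is transcendental, the corners cannot all be bad for more
weights `n` than there are different `|u|` (BOX).  Counting gives the rest.
-/

namespace Pool.Agent.MZF

open Finset
open Pool.Agent.Helper21 (zl Adm)
open Pool.Agent.MZA (Idx)

/-- The sum of the values of the indices obtained from `v` by inserting `b`. -/
noncomputable def ins (b : ℕ) (v : List ℕ) : ℝ :=
  ∑ p ∈ range (v.length + 1), zl (v.insertIdx p b)

/-- The corner `e` of the box with opposite corners `v` and `w`. -/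
def cor {s : ℕ} {α : Type} (v w : Fin s → α) (e : Finset (Fin s)) (i : Fin s) : α :=
  if i ∈ e then w i else v i

/-- The indices `v` with `s` entries such that `n - |v|` is even and at least `2`. -/
def Low (s n : ℕ) : Set (Fin s → ℕ) :=
  {v | (∀ i, 1 ≤ v i) ∧ (∀ i : Fin s, (i : ℕ) = 0 → 2 ≤ v i) ∧ ∑ i, v i + 2 ≤ n ∧
    Even (n - ∑ i, v i)}

/-- Those with `ins (n - |v|) v` in `A x`. -/
def Bad (s n : ℕ) (x : ℝ) : Set (Fin s → ℕ) :=
  {v | v ∈ Low s n ∧ IsAlgebraic ℚ (ins (n - ∑ i, v i) (List.ofFn v) / x)}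

/-- The indices of weight `n` and depth `r` with an even entry. -/
def Ev (n r : ℕ) : Set (List ℕ) := {w | w ∈ Idx n ∧ w.length = r ∧ ∃ a ∈ w, Even a}

/-- Those with a value not in `A x`. -/
def OffEv (n r : ℕ) (x : ℝ) : Set (List ℕ) := {w | w ∈ Ev n r ∧ ¬ IsAlgebraic ℚ (zl w / x)}

/-- INS.  The quasi-shuffle product.

Proof.  `Pool.Agent.MZA.thm_Stf` (file MZA/Stf.lean) gives `zl [b] * zl w = ((st b w).map zl).sum`; by
induction on `w`, for every `f : List ℕ → ℝ`, `((st b w).map f).sum` is the right hand side with `f` in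
place of `zl`. -/
def St_Ins : Prop := ∀ (b : ℕ) (w : List ℕ), 2 ≤ b → Adm w →
  zl [b] * zl w = ins b w + ∑ j ∈ range w.length, zl (w.set j (w.getD j 0 + b))

/-- TP.  The matrices `ζ(N - m)` are not singular.

Proof.  `zl [k] = ∑_{n ≥ 1} n^(-k)` for `k ≥ 2`.  Suppose `Z m ≠ 0` for some `m ∈ T`; let
`P = ∑_{m ∈ T} Z m X^m ≠ 0` (real polynomial).  By Descartes (`Polynomial.roots_countP_pos_le_signVariations`
and `signVariations P ≤ P.support.card - 1`, by induction with `signVariations_le_eraseLead_succ`) `P` has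
at most `|T| - 1` positive roots with multiplicity.  Let `t_1, ..., t_e` be the different positive roots
of odd multiplicity, `e ≤ |T| - 1 < |S|`.  Choose `e + 1` members `N_k` of `S` and real `y_k`, not all zero,
such that `Q = ∑ y_k X^(L - N_k)` (`L = max S`) vanishes at `t_1, ..., t_e` (`e` linear equations for `e + 1`
unknowns).  `Q ≠ 0` has at most `e` positive roots with multiplicity, so they are `t_1, ..., t_e`, all
simple.  So all positive roots of `P Q` have even multiplicity, hence `P Q` has constant sign on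
`(0, ∞)` (induction on the degree: divide by `(X - t)^2` for a positive root `t`; without positive roots by
the intermediate value theorem), and `P Q (n) ≠ 0` for large `n`.  But
`∑_{n ≥ 1} P(n) Q(n) n^(-L) = ∑_k y_k ∑_m Z m zl [N_k - m] = 0`. -/
def St_Tp : Prop := ∀ (T S : Finset ℕ) (Z : ℕ → ℝ), T.card ≤ S.card →
  (∀ m ∈ T, ∀ N ∈ S, m + 2 ≤ N) → (∀ N ∈ S, ∑ m ∈ T, Z m * zl [N - m] = 0) → ∀ m ∈ T, Z m = 0

/-- BOX.  See the docstring of the file. -/
def St_Box : Prop := ∀ (s : ℕ) (v w : Fin s → ℕ) (x : ℝ) (S : Finset ℕ), 1 ≤ s → x ≠ 0 →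
  (∀ i, v i < w i) →
  ((univ : Finset (Finset (Fin s))).image (fun e => ∑ i, cor v w e i)).card < S.card →
  (∀ N ∈ S, ∀ e : Finset (Fin s), cor v w e ∈ Bad s N x) → False

/-- KST.  Few boxes, few elements.  `E n` (`n ∈ W`) are sets of functions `Fin s → Fin M`, at most `M` of
them, such that each box with `v i < w i` for all `i` is contained in at most `2^s` of them.

Proof.  Box inequality, for `f : (Fin s → Fin M) → ℕ`:
`(∑_v f v)^(2^s) ≤ M^(s(2^s-2)) ∑_v ∑_w ∏_e f (cor v w e)`, by induction on `s`: with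
`f_a v = f (Fin.cons a v)` the right hand sum for `s + 1` is `∑_{a, a'} ∑_v ∑_w ∏_e (f_a f_a') (cor v w e)`, by
induction and the power mean inequality (`inner_mul_le_norm_mul_norm`, `pow_sum_div_card_le_sum_pow` in
Mathlib) `M^(s(2^s-2)) M^(2(2^s-1))` times it is at least `(∑_{a, a', v} f_a v f_a' v)^(2^s)`, and
`M^s ∑_v (∑_a f_a v)^2 ≥ (∑_{a, v} f_a v)^2`.  Exponents: `s 2^s + 2 (2^s - 1) + s (2^s - 2) = (s+1)(2^(s+1) - 2)`.
Apply it to the indicator functions of the `E n` and add: `∑_{n ∈ W} |E n|^(2^s)` is at most `M^(s(2^s-2))` times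
the sum over the pairs `(v, w)` of the number of the `n ∈ W` with `cor v w e ∈ E n` for all `e`.  This number is
at most `2^s` if `v i ≠ w i` for all `i` (exchange `v i` and `w i` where `w i < v i`: the same corners), and
at most `|W| ≤ M` for the other `(v, w)`, at most `s M^(2s-1)` in number.  So the sum is at most
`2^s M^(2s) + s M^(2s)`. -/
def St_Kst : Prop := ∀ (s M : ℕ) (W : Finset ℕ) (E : ℕ → Finset (Fin s → Fin M)), 1 ≤ s →
  W.card ≤ M →
  (∀ v w : Fin s → Fin M, (∀ i, v i < w i) →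
    {n : ℕ | n ∈ W ∧ ∀ e : Finset (Fin s), cor v w e ∈ E n}.ncard ≤ 2 ^ s) →
  ∑ n ∈ W, (E n).card ^ (2 ^ s) ≤ (2 ^ s + s) * M ^ (s * 2 ^ s)

/-- KEY.  The number of the bad indices.

Proof.  KST with `W = Icc 1 M` and `E n` = the `u : Fin s → Fin M` with `(fun i => (u i : ℕ)) ∈ Bad s n x` (the
entries of a bad `v` for `n ≤ M` are less than `M`); by BOX a box is in at most `2^s` of the `E n`: the
number of the values of `|cor v w e|` is at most `2^s`. -/
def St_Key : Prop := ∀ (s M : ℕ) (x : ℝ), 1 ≤ s → x ≠ 0 →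
  ∑ n ∈ Icc 1 M, (Bad s n x).ncard ^ (2 ^ s) ≤ (2 ^ s + s) * M ^ (s * 2 ^ s)

/-- GOOD.  A `v` that is not bad comes from an index with a value not in `A x`.

Proof.  Let `b = n - |v|`.  All the lists `(List.ofFn v).insertIdx p b`, `p ≤ s`, are in `Ev n (s + 1)`, and
the sum of their values divided by `x` is not algebraic, so some `w` of them is in `OffEv n (s + 1) x`, and
`List.ofFn v = w.eraseIdx p`.  So the set is covered by the images of the maps `w ↦ w.eraseIdx p`, `p ≤ s`,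
on `OffEv n (s + 1) x` (a finite set). -/
def St_Good : Prop := ∀ (s n : ℕ) (x : ℝ), 1 ≤ s →
  (Low s n \ Bad s n x).ncard ≤ (s + 1) * (OffEv n (s + 1) x).ncard

/-- ANY.  Arbitrary weights of the same parity.

Proof.  Let `r = s + 1`, `T = N 0 / (4 r)`, `d ∈ {0, 1}` with `d + s + 1 + N 0` even.  For `t : Fin s → Fin T` put
`v_0 = 2 + d + 4 t_0`, `v_i = 1 + 4 t_i` (`i ≥ 1`) and `w = v + (2, ..., 2)`.  `|w| + 2 ≤ 4 s T - s + 4 ≤ N 0` (if
`T ≥ 1`), and `N i - |cor v w e|` is even.  The numbers `|cor v w e| = |v| + 2 |e|` are `s + 1` in number, less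
than the `s + 2` weights, so by BOX there are `e` and `i` with `cor v w e` not in `Bad s (N i) x`, but it is in
`Low s (N i)`.  Different `t` give different `cor v w e`: `t_0 = (u_0 - 2 - d) / 4`, `t_i = (u_i - 1) / 4` for
`u = cor v w e`.  So `T^s ≤ ∑_i |Low s (N i) ∖ Bad s (N i) x| ≤ (s + 1) ∑_i |OffEv (N i) (s + 1) x|` by GOOD. -/
def St_Any : Prop := ∀ (s : ℕ) (x : ℝ) (N : Fin (s + 2) → ℕ), 1 ≤ s → x ≠ 0 → StrictMono N →
  (∀ i, Even (N i - N 0)) →
  (N 0 / (4 * (s + 1))) ^ s ≤ (s + 1) * ∑ i, (OffEv (N i) (s + 1) x).ncard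

/-- INF.  The number of the values not in `A x` tends to infinity.

Proof.  Otherwise there is `F` such that `|OffEv n (s + 1) x| ≤ F` for infinitely many `n`, hence for
infinitely many `n` of one parity, and one can choose `s + 2` of them that are as large as one likes,
which contradicts ANY. -/
def St_Inf : Prop := ∀ (s : ℕ) (x : ℝ), 1 ≤ s → x ≠ 0 →
  Filter.Tendsto (fun n => (OffEv n (s + 1) x).ncard) Filter.atTop Filter.atTop

/-- DED.  From the bad indices to the values.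

Proof.  For `v ∈ Low s n` and `p ≤ s` let `φ(v, p) = (List.ofFn v).insertIdx p (n - |v|)`, a member of
`Ev n (s + 1)`.  For a list `w` let `k w` be the number of its even entries; `k (φ(v, p)) = k v + 1`.  For
`w ∈ Ev n (s + 1)` the `(v, p)` with `φ(v, p) = w` correspond to the `p ≤ s` such that `w_p` is even and
`w.eraseIdx p` has first entry at least `2`; so their number is at most `k w`, and it is `k w` unless
`w_1 = 1`.  With the weights `1 / k`:
(a) `(s + 1) ∑_{v ∈ Low} 1/(k v + 1) = ∑_{(v, p)} 1/k(φ(v, p)) ≥ |{w ∈ Ev : w_1 ≠ 1}| ≥ |Ev| - n^(s-1)`, because a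
`w ∈ Idx n` with `w_1 = 1` is determined by its entries `w_2, ..., w_s`, all less than `n`.
(b) `∑_{v ∈ Low ∖ Bad} 1/(k v + 1) ≤ ∑_{(v, p), φ(v, p) ∈ OffEv} 1/k(φ(v, p)) ≤ |OffEv|`, because for
`v ∈ Low ∖ Bad` some `φ(v, p)` is in `OffEv`.
(c) `∑_{v ∈ Bad} 1/(k v + 1) ≤ |Bad|`. -/
def St_Ded : Prop := ∀ (s n : ℕ) (x : ℝ), 1 ≤ s →
  (Ev n (s + 1)).ncard ≤
    (s + 1) * ((OffEv n (s + 1) x).ncard + (Bad s n x).ncard) + n ^ (s - 1)

/-- LOW.  The number of all indices with an even entry.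

Proof.  Let `T = n / (2 (s + 1))`; for `y : Fin s → Fin T` take `w_0 = 2 (y_0 + 1)`, `w_i = y_i + 1` for
`1 ≤ i < s` and `w_s` = the rest, which is positive: the others add up to at most `2 T + (s - 1) T ≤ n / 2`.
So `|Ev n (s + 1)| ≥ T^s`, and `T ≥ n / (4 (s + 1))` as `n ≥ 2 (s + 1)`. -/
def St_Low : Prop := ∀ s n : ℕ, 1 ≤ s → 2 * (s + 1) ≤ n →
  ((n : ℝ) / (4 * (s + 1))) ^ s ≤ (Ev n (s + 1)).ncard

/-- WTS.  Almost all weights.

Proof.  Let `r = s + 1`, `δ = ε / (2 (4 r)^s)`.  If `n ≥ n₀` (`n₀ ≥ 2 r`, `n₀ ≥ 1/(r δ)`) and `|Bad s n x| ≤ δ n^s` then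
DED and LOW give `r |OffEv| ≥ |Ev| - n^(s-1) - r δ n^s`, `|OffEv| ≥ |Ev| / r - 2 δ n^s ≥ (1/r - ε) |Ev|`.
By KEY with `M = 2 Y` at most `K = (2^s + s) 2^(s 2^s) / δ^(2^s)` of the `n` in `(Y, 2 Y]` have
`|Bad s n x| > δ n^s`.  So at most `n₀ + K (log_2 X + 1)` of the `n ≤ X` are exceptions. -/
def St_Wts : Prop := ∀ (s : ℕ) (ε : ℝ), 1 ≤ s → 0 < ε → ∃ C : ℝ, ∀ (x : ℝ) (X : ℕ), x ≠ 0 → 2 ≤ X →
  (({n : ℕ | 1 ≤ n ∧ n ≤ X ∧ ((OffEv n (s + 1) x).ncard : ℝ) <
    (1 / (s + 1) - ε) * ((Ev n (s + 1)).ncard : ℝ)}.ncard : ℕ) : ℝ) ≤ C * Real.log X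

/-- OVL.  All weights up to `M` together.

Proof.  By the power mean inequality and KEY
`(∑_{n ≤ M} |Bad|)^(2^s) ≤ M^(2^s-1) (2^s + s) M^(s 2^s)`, and `2^s + s ≤ 2^(2^s)`, so
`∑_{n ≤ M} |Bad| ≤ 2 M^(s + 1 - 2^(-s))`.  Add DED over the `n ≤ M`, with `∑_{1 ≤ n ≤ M} n^(s-1) ≤ M^s`. -/
def St_Ovl : Prop := ∀ (s : ℕ) (x : ℝ) (M : ℕ), 1 ≤ s → x ≠ 0 →
  (∑ n ∈ Icc 1 M, ((Ev n (s + 1)).ncard : ℝ)) / (s + 1) - 3 * (M : ℝ) ^ ((s : ℝ) + 1 - 1 / 2 ^ s) ≤
    ∑ n ∈ Icc 1 M, ((OffEv n (s + 1) x).ncard : ℝ)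

end Pool.Agent.MZF
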