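import Pool.Agent.MZF.St

set_option autoImplicit false

/-!
# Multiple zeta values of fixed depth (MP_2000e9_nt), second part: subspaces

The same with a subfield `K` of the real numbers over which `π` is transcendental in place of `A`, and a
finite dimensional `K`-subspace `V` of the reals in place of `A x`.
-/

namespace Pool.Agent.MZF

open Finset
open Pool.Agent.Helper21 (zl Adm)
open Pool.Agent.MZA (Idx)

/-- The `K`-subspaces of the real numbers. -/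
abbrev Sub (K : IntermediateField ℚ ℝ) : Type := Submodule K ℝ

/-- The `v` with `ins (n - |v|) v` in `V`. -/
def BadV {K : IntermediateField ℚ ℝ} (s n : ℕ) (V : Sub K) : Set (Fin s → ℕ) :=
  {v | v ∈ Low s n ∧ ins (n - ∑ i, v i) (List.ofFn v) ∈ V}

/-- The indices with an even entry and a value not in `V`. -/
def OutEv {K : IntermediateField ℚ ℝ} (n r : ℕ) (V : Sub K) : Set (List ℕ) := {w | w ∈ Ev n r ∧ zl w ∉ V}

/-- FLG.  Two finite dimensional spaces and the powers of a transcendental element.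

Proof.  `L` is a torsion-free `K[X]`-module, `X` acting as `t`.  The `K[X]`-submodule `G` generated by
`U + V` is finitely generated, so free, with a basis `e_1, ..., e_p`; let `c_i(g) ∈ K[X]` be the
coordinates.  For `g ∈ G`, `g ≠ 0`, let `i` be the largest number with `c_i(g) ≠ 0` and
`ν(g) = (i, deg c_i(g))`.  Elements with different `ν` are linearly independent over `K` (look at the one
with the largest `ν` in the lexicographic order), so `ν` takes at most `dim U` values on `U ∖ 0`, at most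
`dim V` values on `V ∖ 0`.  For `N ∈ S` with `0 ≠ u ∈ U`, `t^N u ∈ V` one has `ν(t^N u) = ν(u) + (0, N)`, so `N`
is determined by `(ν(u), ν(t^N u)) ∈ ν(U ∖ 0) × ν(V ∖ 0)`. -/
def St_Flg : Prop := ∀ (K L : Type) [Field K] [Field L] [Algebra K L] (t : L),
  Transcendental K t → ∀ (U V : Submodule K L) [Module.Finite K U] [Module.Finite K V]
  (S : Finset ℕ), (∀ N ∈ S, ∃ u ∈ U, u ≠ 0 ∧ t ^ N * u ∈ V) →
  S.card ≤ Module.finrank K U * Module.finrank K V

/-- BOXV.  The number of the weights for which all corners of a box are bad is at most `k d`, `d` the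
number of the different weights of corners.

Proof.  As BOX: `∑_m c_(N m) z_m = v_N π^(-N)` with `v_N ∈ V`, `z_m = Z_m π^(-m)`, `c_(N m)` rational.  Let `U` be
the `K`-span of the `z_m`, `d' = dim U`, `1 ≤ d' ≤ d`.  By FLG (`t = π`) at most `k d'` of the `N ∈ S` have
`v_N ≠ 0`.  Let `S_0` be the set of the other `N`, `(z_m)_{m ∈ T''}` a basis of `U`, `m_0 ∈ T''`, `h` the
coordinate of `z_(m_0)` on `U`.  Then `y_m = h(z_m)` is `0` for the `m ∈ T''` other than `m_0`, `y_(m_0) = 1` and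
`∑_m c_(N m) y_m = 0` for `N ∈ S_0`, so by TP `|S_0| < |T ∖ T''| + 1`, `|S_0| ≤ d - d'`.  Altogether
`|S| ≤ k d' + d - d' ≤ k d`. -/
def St_BoxV : Prop := ∀ K : IntermediateField ℚ ℝ, Transcendental K Real.pi →
  ∀ (s : ℕ) (v w : Fin s → ℕ) (V : Sub K) (k : ℕ) (S : Finset ℕ), 1 ≤ s →
  Module.Finite K V → Module.finrank K V ≤ k → 1 ≤ k →
  (∀ i, v i < w i) → (∀ N ∈ S, ∀ e : Finset (Fin s), cor v w e ∈ BadV s N V) →
  S.card ≤ k * ((univ : Finset (Finset (Fin s))).image (fun e => ∑ i, cor v w e i)).card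

/-- KSTV.  KST with another bound. -/
def St_KstV : Prop := ∀ (s M c : ℕ) (W : Finset ℕ) (E : ℕ → Finset (Fin s → Fin M)), 1 ≤ s →
  W.card ≤ M →
  (∀ v w : Fin s → Fin M, (∀ i, v i < w i) →
    {n : ℕ | n ∈ W ∧ ∀ e : Finset (Fin s), cor v w e ∈ E n}.ncard ≤ c) →
  ∑ n ∈ W, (E n).card ^ (2 ^ s) ≤ (c + s) * M ^ (s * 2 ^ s)

/-- KEYV. -/
def St_KeyV : Prop := ∀ K : IntermediateField ℚ ℝ, Transcendental K Real.pi →
  ∀ (s M k : ℕ) (V : Sub K), 1 ≤ s →
  Module.Finite K V → Module.finrank K V ≤ k → 1 ≤ k →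
  ∑ n ∈ Icc 1 M, (BadV s n V).ncard ^ (2 ^ s) ≤ (k * 2 ^ s + s) * M ^ (s * 2 ^ s)

/-- GOODV. -/
def St_GoodV : Prop := ∀ (K : IntermediateField ℚ ℝ) (s n : ℕ) (V : Sub K), 1 ≤ s →
  (Low s n \ BadV s n V).ncard ≤ (s + 1) * (OutEv n (s + 1) V).ncard

/-- ANYV.  As ANY, with `k (s + 1) + 1` weights. -/
def St_AnyV : Prop := ∀ K : IntermediateField ℚ ℝ, Transcendental K Real.pi →
  ∀ (s k : ℕ) (V : Sub K) (N : Fin (k * (s + 1) + 1) → ℕ), 1 ≤ s →
  Module.Finite K V → Module.finrank K V ≤ k → 1 ≤ k →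
  StrictMono N → (∀ i, Even (N i - N 0)) →
  (N 0 / (4 * (s + 1))) ^ s ≤ (s + 1) * ∑ i, (OutEv (N i) (s + 1) V).ncard

/-- INFV. -/
def St_InfV : Prop := ∀ K : IntermediateField ℚ ℝ, Transcendental K Real.pi →
  ∀ (s : ℕ) (V : Sub K), 1 ≤ s → Module.Finite K V →
  Filter.Tendsto (fun n => (OutEv n (s + 1) V).ncard) Filter.atTop Filter.atTop

/-- DEDV. -/
def St_DedV : Prop := ∀ (K : IntermediateField ℚ ℝ) (s n : ℕ) (V : Sub K), 1 ≤ s →
  (Ev n (s + 1)).ncard ≤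
    (s + 1) * ((OutEv n (s + 1) V).ncard + (BadV s n V).ncard) + n ^ (s - 1)

/-- WTSV.  At most `C k log X` exceptions, `C` does not depend on `k`. -/
def St_WtsV : Prop := ∀ (s : ℕ) (ε : ℝ), 1 ≤ s → 0 < ε → ∃ C : ℝ,
  ∀ K : IntermediateField ℚ ℝ, Transcendental K Real.pi → ∀ (k : ℕ) (V : Sub K) (X : ℕ),
  Module.Finite K V → Module.finrank K V ≤ k → 1 ≤ k →
  2 ≤ X →
  (({n : ℕ | 1 ≤ n ∧ n ≤ X ∧ ((OutEv n (s + 1) V).ncard : ℝ) <
    (1 / (s + 1) - ε) * ((Ev n (s + 1)).ncard : ℝ)}.ncard : ℕ) : ℝ) ≤ C * k * Real.log X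

/-- OVLV.  As OVL: `(∑_{n ≤ M} |BadV|)^(2^s) ≤ M^(2^s-1) (k 2^s + s) M^(s 2^s) ≤ k 2^(2^s) M^((s+1) 2^s) / M`. -/
def St_OvlV : Prop := ∀ K : IntermediateField ℚ ℝ, Transcendental K Real.pi →
  ∀ (s k : ℕ) (V : Sub K) (M : ℕ), 1 ≤ s →
  Module.Finite K V → Module.finrank K V ≤ k → 1 ≤ k →
  1 ≤ M →
  (∑ n ∈ Icc 1 M, ((Ev n (s + 1)).ncard : ℝ)) / (s + 1) -
    3 * (M : ℝ) ^ (s + 1) * ((k : ℝ) / M) ^ ((1 : ℝ) / 2 ^ s) ≤
    ∑ n ∈ Icc 1 M, ((OutEv n (s + 1) V).ncard : ℝ)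

/-- The tuples of indices of depth `r` and weight at most `M` with an even entry such that the values
are linearly independent over `K` modulo `V`. -/
def TupV {K : IntermediateField ℚ ℝ} (M r l : ℕ) (V : Sub K) : Set (Fin l → List ℕ) :=
  {w | (∀ i, (w i).sum ≤ M ∧ w i ∈ Ev (w i).sum r) ∧
    LinearIndependent K (fun i => V.mkQ (zl (w i)))}

/-- TUPV.  Tuples.

Proof.  Induction on `l`: OVLV for the span of `V` and the first values, see MZA/TupV.lean. -/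
def St_TupV : Prop := ∀ K : IntermediateField ℚ ℝ, Transcendental K Real.pi →
  ∀ (s k l : ℕ) (V : Sub K) (M : ℕ) (b : ℝ), 1 ≤ s →
  Module.Finite K V → Module.finrank K V ≤ k → 1 ≤ k → 1 ≤ M → 0 ≤ b →
  b ≤ (∑ n ∈ Icc 1 M, ((Ev n (s + 1)).ncard : ℝ)) / (s + 1) -
    3 * (M : ℝ) ^ (s + 1) * (((k + l : ℕ) : ℝ) / M) ^ ((1 : ℝ) / 2 ^ s) →
  b ^ (l + 1) ≤ ((TupV M (s + 1) (l + 1) V).ncard : ℝ)

end Pool.Agent.MZF
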