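import Mathlib
import Pool.Agent.MZA.Mon

set_option autoImplicit false

/-!
# MZF TP: the matrices `ζ(N - m)` are nonsingular

If `T.card ≤ S.card`, `m + 2 ≤ N` for `m ∈ T`, `N ∈ S`, and `∑_{m ∈ T} Z m ζ(N - m) = 0` for all `N ∈ S`,
then `Z m = 0` for all `m ∈ T`.  Proof by the rule of Descartes.
-/

namespace Pool.Agent.MZF

open Finset Filter Polynomial
open Pool.Agent.Helper21 (mzv H zl Adm tendsto_zl)
open Pool.Agent.MZA.MonAux (ee H_single adm_single)

/-- number of sign variations and number of terms -/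
theorem tp_var : ∀ (s : ℕ) (P : ℝ[X]), P ≠ 0 → P.support.card = s → P.signVariations + 1 ≤ s := by
  intro s
  induction s with
  | zero =>
    intro P hP h
    rw [Finset.card_eq_zero, Polynomial.support_eq_empty] at h
    exact absurd h hP
  | succ s ih =>
    intro P hP h
    by_cases h0 : P.eraseLead = 0
    · have h1 : P = monomial P.natDegree P.leadingCoeff := by
        have h2 := P.eraseLead_add_monomial_natDegree_leadingCoeff
        rw [h0, zero_add] at h2
        exact h2.symm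
      rw [h1, signVariations_monomial]
      omega
    · have h1 : P.eraseLead.support.card = s := by
        have := Polynomial.card_support_eraseLead' h
        exact this
      have h2 := ih P.eraseLead h0 h1
      have h3 := P.signVariations_le_eraseLead_succ
      omega

/-- weak form of the rule of Descartes -/
theorem tp_desc (P : ℝ[X]) (hP : P ≠ 0) (n : ℕ) (h : P.support.card ≤ n) :
    P.roots.countP (0 < ·) + 1 ≤ n := by
  have h1 := P.roots_countP_pos_le_signVariations
  have h2 := tp_var P.support.card P hP rfl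
  omega

/-- constant sign -/
theorem tp_sign (P : ℝ[X]) (hP : P ≠ 0) (h : P.roots.countP (0 < ·) = 0) (t : ℝ) (ht : 0 < t) :
    0 < P.eval t * P.eval 1 := by
  have hno : ∀ y : ℝ, 0 < y → P.eval y ≠ 0 := by
    intro y hy h1
    rw [Multiset.countP_eq_zero] at h
    exact h y ((mem_roots hP).2 h1) hy
  by_contra hcon
  push Not at hcon
  have hne : P.eval t * P.eval 1 ≠ 0 := mul_ne_zero (hno t ht) (hno 1 one_pos)
  have hlt : P.eval t * P.eval 1 < 0 := lt_of_le_of_ne hcon hne
  have hc : ContinuousOn (fun y => P.eval y) (Set.uIcc t 1) := P.continuous.continuousOn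
  have hsub := intermediate_value_uIcc hc
  have h0 : (0 : ℝ) ∈ Set.uIcc (P.eval t) (P.eval 1) := by
    rcases mul_neg_iff.1 hlt with h1 | h1
    · rw [Set.mem_uIcc]
      exact Or.inr ⟨h1.2.le, h1.1.le⟩
    · rw [Set.mem_uIcc]
      exact Or.inl ⟨h1.1.le, h1.2.le⟩
  obtain ⟨y, hy, hy0⟩ := hsub h0
  apply hno y _ hy0
  rw [Set.mem_uIcc] at hy
  rcases hy with h1 | h1
  · exact lt_of_lt_of_le ht h1.1
  · exact lt_of_lt_of_le one_pos h1.1

/-- sparse multiples -/
theorem tp_mult (D : ℝ[X]) (hD : D.Monic) (S : Finset ℕ) (a : ℕ → ℕ)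
    (hcard : D.natDegree + 1 ≤ S.card) :
    ∃ β : ℕ → ℝ, (∃ N ∈ S, β N ≠ 0) ∧ D ∣ ∑ N ∈ S, C (β N) * X ^ (a N) := by
  classical
  let Φ : (S → ℝ) →ₗ[ℝ] (Fin D.natDegree → ℝ) :=
    { toFun := fun β j => ((∑ N : S, C (β N) * X ^ (a N)) %ₘ D).coeff j
      map_add' := by
        intro β γ
        funext j
        have e : (∑ N : S, C ((β + γ) N) * X ^ (a N) : ℝ[X]) =
            ∑ N : S, C (β N) * X ^ (a N) + ∑ N : S, C (γ N) * X ^ (a N) := by
          rw [← Finset.sum_add_distrib]
          refine Finset.sum_congr rfl fun N _ => ?_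
          rw [Pi.add_apply, C_add, add_mul]
        rw [e, add_modByMonic, coeff_add]
        rfl
      map_smul' := by
        intro c β
        funext j
        have e : (∑ N : S, C ((c • β) N) * X ^ (a N) : ℝ[X]) =
            c • ∑ N : S, C (β N) * X ^ (a N) := by
          rw [Finset.smul_sum]
          refine Finset.sum_congr rfl fun N _ => ?_
          rw [Pi.smul_apply, smul_eq_mul, C_mul, smul_eq_C_mul, mul_assoc]
        rw [e, smul_modByMonic, coeff_smul]
        rfl }
  have hker : LinearMap.ker Φ ≠ ⊥ := by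
    apply LinearMap.ker_ne_bot_of_finrank_lt
    rw [Module.finrank_fintype_fun_eq_card, Module.finrank_fintype_fun_eq_card, Fintype.card_fin,
      Fintype.card_coe]
    omega
  obtain ⟨β, hβ, hβ0⟩ := (Submodule.ne_bot_iff _).1 hker
  refine ⟨fun N => if h : N ∈ S then β ⟨N, h⟩ else 0, ?_, ?_⟩
  · obtain ⟨N, hN⟩ : ∃ N, β N ≠ 0 := by
      by_contra hcon
      push Not at hcon
      exact hβ0 (funext hcon)
    refine ⟨N, N.2, ?_⟩
    simp only [dif_pos N.2]
    exact hN
  · have e : (∑ N ∈ S, C (if h : N ∈ S then β ⟨N, h⟩ else 0) * X ^ (a N) : ℝ[X]) =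
        ∑ N : S, C (β N) * X ^ (a N) := by
      rw [← Finset.sum_coe_sort S]
      refine Finset.sum_congr rfl fun N _ => ?_
      rw [dif_pos N.2]
    rw [e, ← modByMonic_eq_zero_iff_dvd hD]
    ext j
    rw [coeff_zero]
    by_cases hj : j < D.natDegree
    · exact congrFun (LinearMap.mem_ker.1 hβ) ⟨j, hj⟩
    · by_cases h1 : D = 1
      · rw [h1, modByMonic_one, coeff_zero]
      · apply coeff_eq_zero_of_natDegree_lt
        exact lt_of_lt_of_le (natDegree_modByMonic_lt _ hD h1) (not_lt.1 hj)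

/-- zeta values as sums -/
theorem tp_zl (n : ℕ) (hn : 2 ≤ n) : HasSum (fun k : ℕ => ee k ^ n) (zl [n]) := by
  have h1 : Summable (fun k : ℕ => ee k ^ n) := by
    have h2 := (summable_nat_add_iff 1).2 (Real.summable_one_div_nat_pow.2 (show 1 < n by omega))
    refine h2.congr fun k => ?_
    unfold ee
    rw [one_div_pow]
  rw [h1.hasSum_iff_tendsto_nat]
  refine (tendsto_zl [n] (adm_single n hn)).congr fun k => ?_
  rw [H_single]

theorem thm_TP (T S : Finset ℕ) (hcard : T.card ≤ S.card) (hTS : ∀ m ∈ T, ∀ N ∈ S, m + 2 ≤ N)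
    (Z : ℕ → ℝ) (hZ : ∀ N ∈ S, ∑ m ∈ T, Z m * zl [N - m] = 0) : ∀ m ∈ T, Z m = 0 := by
  classical
  by_contra hcon
  push Not at hcon
  obtain ⟨m₀, hm₀, hZ0⟩ := hcon
  set h : ℝ[X] := ∑ m ∈ T, C (Z m) * X ^ m with hh
  have hcoef : ∀ m ∈ T, h.coeff m = Z m := by
    intro m hm
    rw [hh, finsetSum_coeff, Finset.sum_eq_single m]
    · rw [coeff_C_mul, coeff_X_pow, if_pos rfl, mul_one]
    · intro m' _ hne
      rw [coeff_C_mul, coeff_X_pow, if_neg hne.symm, mul_zero]
    · intro h1
      exact absurd hm h1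
  have hne : h ≠ 0 := by
    intro h1
    apply hZ0
    rw [← hcoef m₀ hm₀, h1, coeff_zero]
  have hsupp : h.support ⊆ T := by
    intro j hj
    by_contra hjT
    rw [mem_support_iff] at hj
    apply hj
    rw [hh, finsetSum_coeff]
    refine Finset.sum_eq_zero fun m hm => ?_
    rw [coeff_C_mul, coeff_X_pow, if_neg, mul_zero]
    rintro rfl
    exact hjT hm
  set R := h.roots.countP (0 < ·) with hR
  have hRT : R + 1 ≤ T.card := tp_desc h hne _ (Finset.card_le_card hsupp)
  set ms : Multiset ℝ := h.roots.filter (0 < ·) with hms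
  set D : ℝ[X] := (ms.map fun a => X - C a).prod with hD
  have hDm : D.Monic := monic_multiset_prod_of_monic _ _ fun a _ => monic_X_sub_C a
  have hmsR : Multiset.card ms = R := by
    rw [hms, hR, Multiset.countP_eq_card_filter]
  have hDdeg : D.natDegree = R := by
    rw [hD, natDegree_multiset_prod_X_sub_C_eq_card, hmsR]
  have hDroots : D.roots = ms := by
    rw [hD, roots_multiset_prod_X_sub_C]
  have hDcount : D.roots.countP (0 < ·) = R := by
    rw [hDroots, Multiset.countP_eq_card_filter, hms, Multiset.filter_filter, ← hmsR, hms]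
    congr 1
    apply Multiset.filter_congr
    intro a _
    exact and_self_iff
  have hdvd : D ∣ h := by
    rw [hD, Multiset.prod_X_sub_C_dvd_iff_le_roots hne]
    exact Multiset.filter_le _ _
  obtain ⟨h1, hh1⟩ := hdvd
  have hh1ne : h1 ≠ 0 := by
    rintro rfl
    rw [mul_zero] at hh1
    exact hne hh1
  have hh1c : h1.roots.countP (0 < ·) = 0 := by
    have h2 : h.roots.countP (0 < ·) = D.roots.countP (0 < ·) + h1.roots.countP (0 < ·) := by
      rw [hh1, roots_mul (by rw [← hh1]; exact hne), Multiset.countP_add]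
    rw [← hR, hDcount] at h2
    omega
  -- the other factor
  obtain ⟨S', hS'S, hS'c⟩ := Finset.exists_subset_card_eq (hRT.trans hcard)
  set Nm := S.sup id with hNm
  have hNle : ∀ N ∈ S, N ≤ Nm := fun N hN => Finset.le_sup (f := id) hN
  obtain ⟨β, ⟨N₀, hN₀, hβ0⟩, hβD⟩ := tp_mult D hDm S' (fun N => Nm - N) (by rw [hDdeg, hS'c])
  set g : ℝ[X] := ∑ N ∈ S', C (β N) * X ^ (Nm - N) with hg
  have hgne : g ≠ 0 := by
    intro h2
    apply hβ0
    have h3 : g.coeff (Nm - N₀) = β N₀ := by
      rw [hg, finsetSum_coeff, Finset.sum_eq_single N₀]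
      · rw [coeff_C_mul, coeff_X_pow, if_pos rfl, mul_one]
      · intro N hN hne2
        rw [coeff_C_mul, coeff_X_pow, if_neg, mul_zero]
        intro h4
        have h5 := hNle N (hS'S hN)
        have h6 := hNle N₀ (hS'S hN₀)
        omega
      · intro h4
        exact absurd hN₀ h4
    rw [← h3, h2, coeff_zero]
  have hgs : g.support.card ≤ R + 1 := by
    have h2 : g.support ⊆ S'.image (fun N => Nm - N) := by
      intro j hj
      by_contra hjS
      rw [mem_support_iff] at hj
      apply hj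
      rw [hg, finsetSum_coeff]
      refine Finset.sum_eq_zero fun N hN => ?_
      rw [coeff_C_mul, coeff_X_pow, if_neg, mul_zero]
      intro h3
      exact hjS (Finset.mem_image.2 ⟨N, hN, h3.symm⟩)
    exact (Finset.card_le_card h2).trans (Finset.card_image_le.trans hS'c.le)
  obtain ⟨g1, hg1⟩ := hβD
  have hg1ne : g1 ≠ 0 := by
    rintro rfl
    rw [mul_zero] at hg1
    exact hgne hg1
  have hg1c : g1.roots.countP (0 < ·) = 0 := by
    have h2 : g.roots.countP (0 < ·) = D.roots.countP (0 < ·) + g1.roots.countP (0 < ·) := by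
      rw [hg1, roots_mul (by rw [← hg1]; exact hgne), Multiset.countP_add]
    have h3 := tp_desc g hgne _ hgs
    rw [hDcount] at h2
    omega
  -- the sum
  have hsum : HasSum (fun k : ℕ => ∑ N ∈ S', β N * ∑ m ∈ T, Z m * ee k ^ (N - m)) 0 := by
    have h2 : HasSum (fun k : ℕ => ∑ N ∈ S', β N * ∑ m ∈ T, Z m * ee k ^ (N - m))
        (∑ N ∈ S', β N * ∑ m ∈ T, Z m * zl [N - m]) := by
      refine hasSum_sum fun N hN => HasSum.mul_left _ (hasSum_sum fun m hm => HasSum.mul_left _ ?_)
      have h3 := hTS m hm N (hS'S hN)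
      exact tp_zl (N - m) (by omega)
    have h3 : ∑ N ∈ S', β N * ∑ m ∈ T, Z m * zl [N - m] = 0 := by
      refine Finset.sum_eq_zero fun N hN => ?_
      rw [hZ N (hS'S hN), mul_zero]
    rw [h3] at h2
    exact h2
  have hterm : ∀ k : ℕ, ∑ N ∈ S', β N * ∑ m ∈ T, Z m * ee k ^ (N - m) =
      h.eval ((k : ℝ) + 1) * g.eval ((k : ℝ) + 1) * ee k ^ Nm := by
    intro k
    have hk : ((k : ℝ) + 1) ≠ 0 := by positivity
    have hek : ee k = ((k : ℝ) + 1)⁻¹ := by
      unfold ee
      push_cast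
      rw [one_div]
    rw [hh, hg, eval_finsetSum, eval_finsetSum, Finset.mul_sum, Finset.sum_mul]
    refine Finset.sum_congr rfl fun N hN => ?_
    rw [Finset.sum_mul, Finset.sum_mul, Finset.mul_sum]
    refine Finset.sum_congr rfl fun m hm => ?_
    have h2 := hTS m hm N (hS'S hN)
    have h3 := hNle N (hS'S hN)
    rw [eval_mul, eval_mul, eval_C, eval_C, eval_pow, eval_pow, eval_X, hek, inv_pow, inv_pow]
    have h4 : ((k : ℝ) + 1) ^ Nm = ((k : ℝ) + 1) ^ m * ((k : ℝ) + 1) ^ (Nm - N) *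
        ((k : ℝ) + 1) ^ (N - m) := by
      rw [← pow_add, ← pow_add]
      congr 1
      omega
    rw [h4]
    field_simp
  set c : ℝ := h1.eval 1 * g1.eval 1 with hc
  have hnonneg : ∀ k : ℕ, 0 ≤ c * ∑ N ∈ S', β N * ∑ m ∈ T, Z m * ee k ^ (N - m) := by
    intro k
    rw [hterm k, hh1, hg1, eval_mul, eval_mul]
    have hk : (0 : ℝ) < (k : ℝ) + 1 := by positivity
    have h2 := tp_sign h1 hh1ne hh1c _ hk
    have h3 := tp_sign g1 hg1ne hg1c _ hk
    have h4 : 0 ≤ ee k ^ Nm := by unfold ee; positivity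
    have e : c * (D.eval ((k : ℝ) + 1) * h1.eval ((k : ℝ) + 1) *
        (D.eval ((k : ℝ) + 1) * g1.eval ((k : ℝ) + 1)) * ee k ^ Nm) =
        D.eval ((k : ℝ) + 1) ^ 2 * (h1.eval ((k : ℝ) + 1) * h1.eval 1) *
          (g1.eval ((k : ℝ) + 1) * g1.eval 1) * ee k ^ Nm := by
      rw [hc]
      ring
    rw [e]
    positivity
  have hzero := (hasSum_zero_iff_of_nonneg hnonneg).1 (by
    have := hsum.mul_left c
    rwa [mul_zero] at this)
  have hDroot : ∀ k : ℕ, D.IsRoot ((k : ℝ) + 1) := by
    intro k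
    have h2 := congrFun hzero k
    simp only [Pi.zero_apply] at h2
    rw [hterm k, hh1, hg1, eval_mul, eval_mul] at h2
    have hk : (0 : ℝ) < (k : ℝ) + 1 := by positivity
    have h3 := (left_ne_zero_of_mul (tp_sign h1 hh1ne hh1c _ hk).ne')
    have h4 := (left_ne_zero_of_mul (tp_sign g1 hg1ne hg1c _ hk).ne')
    have h5 : h1.eval 1 ≠ 0 := right_ne_zero_of_mul (tp_sign h1 hh1ne hh1c _ hk).ne'
    have h6 : g1.eval 1 ≠ 0 := right_ne_zero_of_mul (tp_sign g1 hg1ne hg1c _ hk).ne'
    have h7 : ee k ^ Nm ≠ 0 := by unfold ee; positivity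
    by_contra h8
    have h9 : D.eval ((k : ℝ) + 1) ≠ 0 := h8
    exact mul_ne_zero (mul_ne_zero h5 h6) (mul_ne_zero (mul_ne_zero (mul_ne_zero h9 h3)
      (mul_ne_zero h9 h4)) h7) h2
  have hD0 : D = 0 := by
    apply eq_zero_of_infinite_isRoot
    refine Set.Infinite.mono (s := Set.range (fun k : ℕ => (k : ℝ) + 1)) ?_
      (Set.infinite_range_of_injective fun k l hkl => ?_)
    · rintro _ ⟨k, rfl⟩
      exact hDroot k
    · have h2 : (k : ℝ) + 1 = (l : ℝ) + 1 := hkl
      have h3 : (k : ℝ) = l := by linarith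
      exact_mod_cast h3
  exact hDm.ne_zero hD0

end Pool.Agent.MZF
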