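import Pool.Agent.MZF.St2
import Pool.Agent.MZF.AnyV

set_option autoImplicit false

/-!
# Tuples of multiple zeta values of fixed depth (after MZA/TupV.lean)
-/

namespace Pool.Agent.MZF

open Finset
open Pool.Agent.Helper21 (zl Adm)
open Pool.Agent.MZA (Idx)

/-- the indices of weight at most `M` with a value not in `V` -/
def tupOut {K : IntermediateField ℚ ℝ} (M r : ℕ) (V : Sub K) : Set (List ℕ) :=
  {w | w.sum ≤ M ∧ w ∈ OutEv w.sum r V}

theorem tupv_low (M : ℕ) : {w : List ℕ | w.sum ≤ M ∧ w ∈ Idx w.sum}.Finite := by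
  have h1 : {w : List ℕ | w.sum ≤ M ∧ w ∈ Idx w.sum} ⊆ ⋃ N ∈ Finset.range (M + 1), Idx N := by
    rintro w ⟨h1, h2⟩
    rw [Set.mem_iUnion₂]
    exact ⟨w.sum, Finset.mem_range.2 (by omega), h2⟩
  exact (Set.Finite.biUnion (Finset.finite_toSet _) fun N _ => any_idx_finite N).subset h1

theorem tupOut_finite {K : IntermediateField ℚ ℝ} (M r : ℕ) (V : Sub K) :
    (tupOut M r V).Finite :=
  (tupv_low M).subset fun _ hw => ⟨hw.1, hw.2.1.1⟩

theorem tupV_finite {K : IntermediateField ℚ ℝ} (M r l : ℕ) (V : Sub K) :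
    (TupV M r l V).Finite := by
  refine (Set.Finite.pi' (fun _ : Fin l => tupv_low M)).subset ?_
  rintro w ⟨h1, -⟩ i
  exact ⟨(h1 i).1, (h1 i).2.1⟩

theorem tupOut_card {K : IntermediateField ℚ ℝ} (M r : ℕ) (V : Sub K) :
    ∑ n ∈ Icc 1 M, (OutEv n r V).ncard ≤ (tupOut M r V).ncard := by
  classical
  have h1 : ∀ n, (OutEv n r V).ncard = (any_out_finite n r V).toFinset.card := fun n =>
    Set.ncard_eq_toFinset_card _ _
  rw [Set.ncard_eq_toFinset_card _ (tupOut_finite M r V), Finset.sum_congr rfl fun n _ => h1 n,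
    ← Finset.card_biUnion]
  · apply Finset.card_le_card
    intro w hw
    rw [mem_biUnion] at hw
    obtain ⟨n, hn, hw⟩ := hw
    rw [Set.Finite.mem_toFinset] at hw ⊢
    have h2 : w.sum = n := hw.1.1.2.2
    rw [mem_Icc] at hn
    refine ⟨by omega, ?_⟩
    rw [h2]
    exact hw
  · intro n _ m _ hnm
    rw [Function.onFun, Finset.disjoint_left]
    intro w h2 h3
    rw [Set.Finite.mem_toFinset] at h2 h3
    exact hnm (h2.1.1.2.2.symm.trans h3.1.1.2.2)

theorem tupv_step {K : IntermediateField ℚ ℝ} (M r l : ℕ) (V : Sub K) (c : ℝ)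
    (h : ∀ w ∈ TupV M r l V, c ≤ ((tupOut M r (V ⊔ Submodule.span K
      (Set.range (fun i => zl (w i))))).ncard : ℝ)) :
    ((TupV M r l V).ncard : ℝ) * c ≤ ((TupV M r (l + 1) V).ncard : ℝ) := by
  classical
  have hf1 := tupV_finite M r l V
  have hf2 := tupV_finite M r (l + 1) V
  set S : Finset (Fin l → List ℕ) := hf1.toFinset with hS
  set T : Finset (Fin (l + 1) → List ℕ) := hf2.toFinset with hT
  set O : (Fin l → List ℕ) → Finset (List ℕ) := fun w =>
    (tupOut_finite M r (V ⊔ Submodule.span K (Set.range (fun i => zl (w i))))).toFinset with hO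
  have hc1 : ((TupV M r l V).ncard : ℝ) = S.card := by
    rw [Set.ncard_eq_toFinset_card _ hf1]
  have hc2 : ((TupV M r (l + 1) V).ncard : ℝ) = T.card := by
    rw [Set.ncard_eq_toFinset_card _ hf2]
  have hc3 : ∀ w ∈ S, c ≤ ((O w).card : ℝ) := by
    intro w hw
    have h1 := h w (by rw [hS, Set.Finite.mem_toFinset] at hw; exact hw)
    rw [Set.ncard_eq_toFinset_card _ (tupOut_finite M r _)] at h1
    exact h1
  have h2 : (S.sigma O).card ≤ T.card := by
    apply Finset.card_le_card_of_injOn (fun q => (Fin.snoc q.1 q.2 : Fin (l + 1) → List ℕ))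
    · intro q hq
      rw [Finset.mem_coe, Finset.mem_sigma] at hq
      obtain ⟨hq1, hq2⟩ := hq
      rw [hS, Set.Finite.mem_toFinset] at hq1
      rw [hO, Set.Finite.mem_toFinset] at hq2
      rw [Finset.mem_coe, hT, Set.Finite.mem_toFinset]
      refine ⟨?_, ?_⟩
      · intro i
        refine Fin.lastCases ?_ (fun j => ?_) i
        · simp only [Fin.snoc_last]
          exact ⟨hq2.1, hq2.2.1⟩
        · simp only [Fin.snoc_castSucc]
          exact hq1.1 j
      · have e1 : (fun i => V.mkQ (zl ((Fin.snoc q.1 q.2 : Fin (l + 1) → List ℕ) i))) =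
            (Fin.snoc (fun i => V.mkQ (zl (q.1 i))) (V.mkQ (zl q.2)) : Fin (l + 1) → ℝ ⧸ V) := by
          funext i
          refine Fin.lastCases ?_ (fun j => ?_) i
          · simp only [Fin.snoc_last]
          · simp only [Fin.snoc_castSucc]
        rw [e1, linearIndependent_finSnoc]
        refine ⟨hq1.2, fun hcon => hq2.2.2 ?_⟩
        have e2 : Set.range (fun i => V.mkQ (zl (q.1 i))) =
            V.mkQ '' Set.range (fun i => zl (q.1 i)) := by
          rw [← Set.range_comp]
          rfl
        rw [e2, ← Submodule.map_span] at hcon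
        obtain ⟨u, hu, hu2⟩ := hcon
        have e3 : zl q.2 - u ∈ V := by
          rw [← Submodule.ker_mkQ V, LinearMap.mem_ker, map_sub, hu2, sub_self]
        have e4 := Submodule.add_mem_sup e3 hu
        rw [sub_add_cancel] at e4
        exact e4
    · intro q _ r _ hqr
      have e1 : q.1 = r.1 := by
        have := congrArg Fin.init hqr
        simpa only [Fin.init_snoc] using this
      have e2 : q.2 = r.2 := by
        have := congrFun hqr (Fin.last l)
        simpa only [Fin.snoc_last] using this
      exact Sigma.ext e1 (heq_of_eq e2)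
  rw [hc1, hc2]
  calc (S.card : ℝ) * c = ∑ _w ∈ S, c := by rw [Finset.sum_const, nsmul_eq_mul]
    _ ≤ ∑ w ∈ S, ((O w).card : ℝ) := Finset.sum_le_sum hc3
    _ = ((S.sigma O).card : ℝ) := by rw [Finset.card_sigma]; push_cast; rfl
    _ ≤ T.card := by exact_mod_cast h2

/-- TUPV -/
theorem thm_TupV (h : St_OvlV) : St_TupV := by
  intro K hK s k l V M b hs hfd hfr hk hM hb0 hb
  have key : ∀ j : ℕ, j ≤ l + 1 → b ^ j ≤ ((TupV M (s + 1) j V).ncard : ℝ) := by
    intro j
    induction j with
    | zero =>
      intro _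
      have h1 : (TupV M (s + 1) 0 V) = {fun i => []} := by
        ext w
        simp only [TupV, Set.mem_ofPred_eq, Set.mem_singleton_iff]
        exact ⟨fun _ => funext fun i => i.elim0, fun _ => ⟨fun i => i.elim0,
          linearIndependent_empty_type⟩⟩
      rw [h1, Set.ncard_singleton, pow_zero]
      norm_num
    | succ j ih =>
      intro hj
      rw [pow_succ]
      refine le_trans (mul_le_mul_of_nonneg_right (ih (by omega)) hb0) ?_
      apply tupv_step
      intro w _
      have hfs : Module.Finite K (Submodule.span K (Set.range (fun i => zl (w i)))) :=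
        Module.Finite.span_of_finite _ (Set.finite_range _)
      have hU : Module.Finite K (V ⊔ Submodule.span K (Set.range (fun i => zl (w i))) : Sub K) :=
        Submodule.finite_sup _ _
      have hr : Module.finrank K (V ⊔ Submodule.span K (Set.range (fun i => zl (w i))) : Sub K) ≤
          k + l := by
        refine (Submodule.finrank_add_le_finrank_add_finrank _ _).trans ?_
        have h2 := finrank_range_le_card (R := K) (fun i => zl (w i))
        rw [Fintype.card_fin] at h2
        unfold Set.finrank at h2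
        omega
      have h1 := h K hK s (k + l) (V ⊔ Submodule.span K (Set.range (fun i => zl (w i)))) M hs hU hr
        (by omega) hM
      refine hb.trans (h1.trans ?_)
      have h2 := tupOut_card M (s + 1) (V ⊔ Submodule.span K (Set.range (fun i => zl (w i))))
      exact_mod_cast h2
  exact key (l + 1) le_rfl

end Pool.Agent.MZF
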