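import Pool.Agent.MZF.St

/-!
# MZF WTS: dyadic blocks and constants (helper41)
-/

set_option autoImplicit false

namespace Pool.Agent.MZF

open Finset

open Classical in
theorem wts_blk (s : ℕ) (B : ℕ → ℕ) (δ : ℝ) (hδ : 0 < δ) (Y : ℕ) (hY : 1 ≤ Y)
    (h : ∑ n ∈ Icc 1 (2 * Y), B n ^ (2 ^ s) ≤ (2 ^ s + s) * (2 * Y) ^ (s * 2 ^ s)) :
    ((((Ioc Y (2 * Y)).filter fun n : ℕ => δ * (n : ℝ) ^ s < (B n : ℝ)).card : ℕ) : ℝ) ≤
      (2 ^ s + s) * 2 ^ (s * 2 ^ s) / δ ^ (2 ^ s) := by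
  have hY' : (0 : ℝ) < Y := by exact_mod_cast hY
  have h1 : ((∑ n ∈ Icc 1 (2 * Y), B n ^ (2 ^ s) : ℕ) : ℝ) ≤
      (((2 ^ s + s) * (2 * Y) ^ (s * 2 ^ s) : ℕ) : ℝ) := by exact_mod_cast h
  have h2 : ((((Ioc Y (2 * Y)).filter fun n : ℕ => δ * (n : ℝ) ^ s < (B n : ℝ)).card : ℕ) : ℝ) *
      (δ * (Y : ℝ) ^ s) ^ (2 ^ s) ≤ ((∑ n ∈ Icc 1 (2 * Y), B n ^ (2 ^ s) : ℕ) : ℝ) := by
    rw [← nsmul_eq_mul]
    refine le_trans (card_nsmul_le_sum _ (fun n => ((B n : ℝ)) ^ (2 ^ s)) _ ?_) ?_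
    · intro n hn
      rw [mem_filter, mem_Ioc] at hn
      refine pow_le_pow_left₀ (by positivity) ?_ _
      refine le_trans ?_ hn.2.le
      refine mul_le_mul_of_nonneg_left ?_ hδ.le
      refine pow_le_pow_left₀ hY'.le ?_ _
      exact_mod_cast hn.1.1.le
    · push_cast
      refine sum_le_sum_of_subset_of_nonneg ?_ ?_
      · intro n hn
        rw [mem_filter, mem_Ioc] at hn
        rw [mem_Icc]
        omega
      · intro n _ _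
        positivity
  have h3 := le_trans h2 h1
  have h4 : (δ * (Y : ℝ) ^ s) ^ (2 ^ s) = δ ^ (2 ^ s) * (Y : ℝ) ^ (s * 2 ^ s) := by
    rw [mul_pow, ← pow_mul]
  have h5 : (((2 ^ s + s) * (2 * Y) ^ (s * 2 ^ s) : ℕ) : ℝ) =
      ((2 ^ s + s) * 2 ^ (s * 2 ^ s)) * (Y : ℝ) ^ (s * 2 ^ s) := by
    push_cast
    rw [mul_pow]
    ring
  rw [h4, h5, ← mul_assoc] at h3
  have h6 := le_of_mul_le_mul_right h3 (by positivity)
  rw [le_div_iff₀ (by positivity)]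
  exact h6

open Classical in
theorem wts_dy (P : ℕ → Prop) (K : ℝ)
    (h : ∀ Y : ℕ, 1 ≤ Y → ((((Ioc Y (2 * Y)).filter P).card : ℕ) : ℝ) ≤ K) (j : ℕ) :
    ((((Icc 1 (2 ^ j)).filter P).card : ℕ) : ℝ) ≤ 1 + K * j := by
  induction j with
  | zero =>
    have h1 : ((Icc 1 (2 ^ 0)).filter P).card ≤ 1 := by
      refine le_trans (card_filter_le _ _) ?_
      simp
    have h2 : ((((Icc 1 (2 ^ 0)).filter P).card : ℕ) : ℝ) ≤ 1 := by exact_mod_cast h1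
    simpa using h2
  | succ j ih =>
    have h1 : (Icc 1 (2 ^ (j + 1))).filter P ⊆
        (Icc 1 (2 ^ j)).filter P ∪ (Ioc (2 ^ j) (2 * 2 ^ j)).filter P := by
      intro n hn
      rw [mem_filter, mem_Icc] at hn
      rw [mem_union, mem_filter, mem_filter, mem_Icc, mem_Ioc]
      have h3 : 2 ^ (j + 1) = 2 * 2 ^ j := by ring
      by_cases h2 : n ≤ 2 ^ j
      · exact Or.inl ⟨⟨hn.1.1, h2⟩, hn.2⟩
      · exact Or.inr ⟨⟨by omega, by omega⟩, hn.2⟩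
    have h2 := le_trans (card_le_card h1) (card_union_le _ _)
    have h3 : ((((Icc 1 (2 ^ (j + 1))).filter P).card : ℕ) : ℝ) ≤
        ((((Icc 1 (2 ^ j)).filter P).card : ℕ) : ℝ) +
          ((((Ioc (2 ^ j) (2 * 2 ^ j)).filter P).card : ℕ) : ℝ) := by exact_mod_cast h2
    have h4 := h (2 ^ j) Nat.one_le_two_pow
    push_cast
    linarith

theorem wts_one (s n V O B : ℕ) (ε δ : ℝ) (hs : 1 ≤ s) (hδ : 0 < δ)
    (hδ' : 2 * δ * (4 * ((s : ℝ) + 1)) ^ s = ε) (hn : 1 ≤ (n : ℝ) * δ)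
    (h2 : V ≤ (s + 1) * (O + B) + n ^ (s - 1))
    (h3 : ((n : ℝ) / (4 * (s + 1))) ^ s ≤ V) (hB : (B : ℝ) ≤ δ * (n : ℝ) ^ s) :
    (1 / (s + 1) - ε) * (V : ℝ) ≤ O := by
  have hs1 : (0 : ℝ) < (s : ℝ) + 1 := by positivity
  have h4 : (V : ℝ) ≤ ((s : ℝ) + 1) * (O + B) + (n : ℝ) ^ (s - 1) := by exact_mod_cast h2
  have h5 : (n : ℝ) ^ (s - 1) ≤ δ * (n : ℝ) ^ s := by
    have h6 : (n : ℝ) ^ s = (n : ℝ) ^ (s - 1) * n := by
      rw [← pow_succ]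
      congr 1
      omega
    rw [h6]
    have h7 : (0 : ℝ) ≤ (n : ℝ) ^ (s - 1) := by positivity
    nlinarith
  have h6 : 2 * δ * (n : ℝ) ^ s ≤ ε * V := by
    rw [← hδ']
    have h7 : (n : ℝ) ^ s = ((n : ℝ) / (4 * (s + 1))) ^ s * (4 * ((s : ℝ) + 1)) ^ s := by
      rw [← mul_pow, div_mul_cancel₀]
      positivity
    rw [h7]
    have h8 : (0 : ℝ) ≤ (4 * ((s : ℝ) + 1)) ^ s := by positivity
    have h9 := mul_le_mul_of_nonneg_right h3 (mul_nonneg (mul_nonneg zero_le_two hδ.le) h8)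
    linarith
  have h7 : (V : ℝ) / (s + 1) ≤ O + B + δ * (n : ℝ) ^ s := by
    rw [div_le_iff₀ hs1]
    have h8 : (0 : ℝ) ≤ δ * (n : ℝ) ^ s := by positivity
    have h9 : (0 : ℝ) ≤ (s : ℝ) := by positivity
    nlinarith
  have h8 : (1 / ((s : ℝ) + 1) - ε) * (V : ℝ) = (V : ℝ) / (s + 1) - ε * V := by ring
  rw [h8]
  linarith

theorem thm_Wts (h1 : St_Key) (h2 : St_Ded) (h3 : St_Low) : St_Wts := by
  classical
  intro s ε hs hε
  obtain ⟨δ, hδ, hδ'⟩ : ∃ δ : ℝ, 0 < δ ∧ 2 * δ * (4 * ((s : ℝ) + 1)) ^ s = ε := by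
    refine ⟨ε / (2 * (4 * ((s : ℝ) + 1)) ^ s), by positivity, ?_⟩
    have h4 : (4 * ((s : ℝ) + 1)) ^ s ≠ 0 := by positivity
    field_simp
  obtain ⟨n0, hn0⟩ := exists_nat_ge (1 / δ)
  set K : ℝ := (2 ^ s + s) * 2 ^ (s * 2 ^ s) / δ ^ (2 ^ s) with hK
  have hK0 : 0 ≤ K := by positivity
  refine ⟨((n0 : ℝ) + 2 * (s + 1) + 1 + 2 * K) / Real.log 2, ?_⟩
  intro x X hx hX
  set P : ℕ → Prop := fun n => δ * (n : ℝ) ^ s < ((Bad s n x).ncard : ℝ) with hP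
  have hb : ∀ Y : ℕ, 1 ≤ Y → ((((Ioc Y (2 * Y)).filter P).card : ℕ) : ℝ) ≤ K := fun Y hY =>
    wts_blk s (fun n => (Bad s n x).ncard) δ hδ Y hY (h1 s (2 * Y) x hs hx)
  have hd := wts_dy P K hb (Nat.clog 2 X)
  have hXc : X ≤ 2 ^ Nat.clog 2 X := Nat.le_pow_clog one_lt_two X
  set S : Set ℕ := {n : ℕ | 1 ≤ n ∧ n ≤ X ∧ ((OffEv n (s + 1) x).ncard : ℝ) <
    (1 / (s + 1) - ε) * ((Ev n (s + 1)).ncard : ℝ)} with hS
  have hsub : S ⊆ ↑(range (n0 + 2 * (s + 1)) ∪ (Icc 1 (2 ^ Nat.clog 2 X)).filter P) := by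
    intro n hn
    rw [coe_union, Set.mem_union]
    by_cases h4 : n < n0 + 2 * (s + 1)
    · exact Or.inl (by rw [mem_coe, mem_range]; exact h4)
    · right
      rw [mem_coe, mem_filter, mem_Icc]
      refine ⟨⟨hn.1, le_trans hn.2.1 hXc⟩, ?_⟩
      by_contra h5
      rw [hP, not_lt] at h5
      have h6 : (n0 : ℝ) ≤ n := by
        have h7 : n0 ≤ n := by omega
        exact_mod_cast h7
      have h7 : 1 ≤ (n : ℝ) * δ := by
        have h8 := le_trans hn0 h6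
        rwa [div_le_iff₀ hδ] at h8
      have h8 := wts_one s n _ _ _ ε δ hs hδ hδ' h7 (h2 s n x hs) (h3 s n hs (by omega)) h5
      exact absurd hn.2.2 (not_lt.2 h8)
  have hc : ((S.ncard : ℕ) : ℝ) ≤ (n0 + 2 * (s + 1)) + (1 + K * (Nat.clog 2 X : ℕ)) := by
    have h4 : S.ncard ≤ (range (n0 + 2 * (s + 1))).card +
        ((Icc 1 (2 ^ Nat.clog 2 X)).filter P).card := by
      refine le_trans (Set.ncard_le_ncard hsub (finite_toSet _)) ?_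
      rw [Set.ncard_coe_finset]
      exact card_union_le _ _
    rw [card_range] at h4
    have h5 : ((S.ncard : ℕ) : ℝ) ≤ (n0 + 2 * (s + 1)) +
        ((((Icc 1 (2 ^ Nat.clog 2 X)).filter P).card : ℕ) : ℝ) := by exact_mod_cast h4
    linarith
  have hl2 : 0 < Real.log 2 := Real.log_pos one_lt_two
  have hlX : Real.log 2 ≤ Real.log X := Real.log_le_log two_pos (by exact_mod_cast hX)
  have hcl : ((Nat.clog 2 X : ℕ) : ℝ) ≤ 2 * (Real.log X / Real.log 2) := by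
    have h4 : 2 ^ (Nat.clog 2 X - 1) < X := Nat.pow_pred_clog_lt_self one_lt_two hX
    have h5 : ((Nat.clog 2 X : ℕ) : ℝ) ≤ ((Nat.clog 2 X - 1 : ℕ) : ℝ) + 1 := by
      have h6 : Nat.clog 2 X ≤ (Nat.clog 2 X - 1) + 1 := by omega
      exact_mod_cast h6
    have h6 : (2 : ℝ) ^ (Nat.clog 2 X - 1) ≤ X := by exact_mod_cast h4.le
    have h7 : ((Nat.clog 2 X - 1 : ℕ) : ℝ) * Real.log 2 ≤ Real.log X := by
      rw [← Real.log_pow]
      exact Real.log_le_log (by positivity) h6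
    have h8 : ((Nat.clog 2 X - 1 : ℕ) : ℝ) ≤ Real.log X / Real.log 2 := by
      rw [le_div_iff₀ hl2]
      exact h7
    have h9 : 1 ≤ Real.log X / Real.log 2 := by
      rw [le_div_iff₀ hl2, one_mul]
      exact hlX
    linarith
  have h9 : 1 ≤ Real.log X / Real.log 2 := by
    rw [le_div_iff₀ hl2, one_mul]
    exact hlX
  have h10 : (((n0 : ℝ) + 2 * (s + 1) + 1 + 2 * K) / Real.log 2) * Real.log X =
      ((n0 : ℝ) + 2 * (s + 1) + 1 + 2 * K) * (Real.log X / Real.log 2) := by ring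
  rw [h10]
  have h11 : 0 ≤ (n0 : ℝ) + 2 * (s + 1) + 1 := by positivity
  have h12 := mul_le_mul_of_nonneg_left hcl hK0
  have h13 := mul_le_mul_of_nonneg_left h9 h11
  linarith

end Pool.Agent.MZF
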