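import Pool.Agent.MZF.St2
import Pool.Agent.MZF.Wts

/-!
# Almost all weights, subspaces (as Wts.lean of helper41)
-/

set_option autoImplicit false

namespace Pool.Agent.MZF

open Finset

open Classical in
theorem wtsv_blk (s c : ℕ) (B : ℕ → ℕ) (δ : ℝ) (hδ : 0 < δ) (Y : ℕ) (hY : 1 ≤ Y)
    (h : ∑ n ∈ Icc 1 (2 * Y), B n ^ (2 ^ s) ≤ c * (2 * Y) ^ (s * 2 ^ s)) :
    ((((Ioc Y (2 * Y)).filter fun n : ℕ => δ * (n : ℝ) ^ s < (B n : ℝ)).card : ℕ) : ℝ) ≤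
      c * 2 ^ (s * 2 ^ s) / δ ^ (2 ^ s) := by
  have hY' : (0 : ℝ) < Y := by exact_mod_cast hY
  have h1 : ((∑ n ∈ Icc 1 (2 * Y), B n ^ (2 ^ s) : ℕ) : ℝ) ≤
      ((c * (2 * Y) ^ (s * 2 ^ s) : ℕ) : ℝ) := by exact_mod_cast h
  have h2 : ((((Ioc Y (2 * Y)).filter fun n : ℕ => δ * (n : ℝ) ^ s < (B n : ℝ)).card : ℕ) : ℝ) *
      (δ * (Y : ℝ) ^ s) ^ (2 ^ s) ≤ ((∑ n ∈ Icc 1 (2 * Y), B n ^ (2 ^ s) : ℕ) : ℝ) := by
    rw [← nsmul_eq_mul]
    refine le_trans (card_nsmul_le_sum _ (fun n => ((B n : ℝ)) ^ (2 ^ s)) _ ?_) ?_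
    · intro n hn
      rw [mem_filter, mem_Ioc] at hn
      refine pow_le_pow_left₀ (by positivity) ?_ _
      refine le_trans ?_ hn.2.le
      refine mul_le_mul_of_nonneg_left ?_ hδ.le
      refine pow_le_pow_left₀ hY'.le ?_ _
      exact_mod_cast hn.1.1.le
    · push_cast
      refine sum_le_sum_of_subset_of_nonneg ?_ ?_
      · intro n hn
        rw [mem_filter, mem_Ioc] at hn
        rw [mem_Icc]
        omega
      · intro n _ _
        positivity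
  have h3 := le_trans h2 h1
  have h4 : (δ * (Y : ℝ) ^ s) ^ (2 ^ s) = δ ^ (2 ^ s) * (Y : ℝ) ^ (s * 2 ^ s) := by
    rw [mul_pow, ← pow_mul]
  have h5 : ((c * (2 * Y) ^ (s * 2 ^ s) : ℕ) : ℝ) =
      (c * 2 ^ (s * 2 ^ s)) * (Y : ℝ) ^ (s * 2 ^ s) := by
    push_cast
    rw [mul_pow]
    ring
  rw [h4, h5, ← mul_assoc] at h3
  have h6 := le_of_mul_le_mul_right h3 (by positivity)
  rw [le_div_iff₀ (by positivity)]
  exact h6

theorem thm_WtsV (h1 : St_KeyV) (h2 : St_DedV) (h3 : St_Low) : St_WtsV := by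
  classical
  intro s ε hs hε
  obtain ⟨δ, hδ, hδ'⟩ : ∃ δ : ℝ, 0 < δ ∧ 2 * δ * (4 * ((s : ℝ) + 1)) ^ s = ε := by
    refine ⟨ε / (2 * (4 * ((s : ℝ) + 1)) ^ s), by positivity, ?_⟩
    have h4 : (4 * ((s : ℝ) + 1)) ^ s ≠ 0 := by positivity
    field_simp
  obtain ⟨n0, hn0⟩ := exists_nat_ge (1 / δ)
  set κ : ℝ := (2 ^ s + s) * 2 ^ (s * 2 ^ s) / δ ^ (2 ^ s) with hκ
  have hK0 : 0 ≤ κ := by positivity
  refine ⟨((n0 : ℝ) + 2 * (s + 1) + 1 + 2 * κ) / Real.log 2, ?_⟩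
  intro K hK k V X hfd hfr hk hX
  set P : ℕ → Prop := fun n => δ * (n : ℝ) ^ s < ((BadV s n V).ncard : ℝ) with hP
  have hb : ∀ Y : ℕ, 1 ≤ Y → ((((Ioc Y (2 * Y)).filter P).card : ℕ) : ℝ) ≤ k * κ := by
    intro Y hY
    refine (wtsv_blk s (k * (2 ^ s + s)) (fun n => (BadV s n V).ncard) δ hδ Y hY ?_).trans ?_
    · refine (h1 K hK s (2 * Y) k V hs hfd hfr hk).trans (Nat.mul_le_mul_right _ ?_)
      have h4 : s ≤ k * s := Nat.le_mul_of_pos_left s hk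
      calc k * 2 ^ s + s ≤ k * 2 ^ s + k * s := Nat.add_le_add_left h4 _
        _ = k * (2 ^ s + s) := by ring
    · rw [hκ]
      push_cast
      apply le_of_eq
      ring
  have hd := wts_dy P (k * κ) hb (Nat.clog 2 X)
  have hXc : X ≤ 2 ^ Nat.clog 2 X := Nat.le_pow_clog one_lt_two X
  set S : Set ℕ := {n : ℕ | 1 ≤ n ∧ n ≤ X ∧ ((OutEv n (s + 1) V).ncard : ℝ) <
    (1 / (s + 1) - ε) * ((Ev n (s + 1)).ncard : ℝ)} with hS
  have hsub : S ⊆ ↑(range (n0 + 2 * (s + 1)) ∪ (Icc 1 (2 ^ Nat.clog 2 X)).filter P) := by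
    intro n hn
    rw [coe_union, Set.mem_union]
    by_cases h4 : n < n0 + 2 * (s + 1)
    · exact Or.inl (by rw [mem_coe, mem_range]; exact h4)
    · right
      rw [mem_coe, mem_filter, mem_Icc]
      refine ⟨⟨hn.1, le_trans hn.2.1 hXc⟩, ?_⟩
      by_contra h5
      rw [hP, not_lt] at h5
      have h6 : (n0 : ℝ) ≤ n := by
        have h7 : n0 ≤ n := by omega
        exact_mod_cast h7
      have h7 : 1 ≤ (n : ℝ) * δ := by
        have h8 := le_trans hn0 h6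
        rwa [div_le_iff₀ hδ] at h8
      have h8 := wts_one s n _ _ _ ε δ hs hδ hδ' h7 (h2 K s n V hs) (h3 s n hs (by omega)) h5
      exact absurd hn.2.2 (not_lt.2 h8)
  have hc : ((S.ncard : ℕ) : ℝ) ≤ (n0 + 2 * (s + 1)) + (1 + k * κ * (Nat.clog 2 X : ℕ)) := by
    have h4 : S.ncard ≤ (range (n0 + 2 * (s + 1))).card +
        ((Icc 1 (2 ^ Nat.clog 2 X)).filter P).card := by
      refine le_trans (Set.ncard_le_ncard hsub (finite_toSet _)) ?_
      rw [Set.ncard_coe_finset]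
      exact card_union_le _ _
    rw [card_range] at h4
    have h5 : ((S.ncard : ℕ) : ℝ) ≤ (n0 + 2 * (s + 1)) +
        ((((Icc 1 (2 ^ Nat.clog 2 X)).filter P).card : ℕ) : ℝ) := by exact_mod_cast h4
    linarith
  have hl2 : 0 < Real.log 2 := Real.log_pos one_lt_two
  have hlX : Real.log 2 ≤ Real.log X := Real.log_le_log two_pos (by exact_mod_cast hX)
  have hcl : ((Nat.clog 2 X : ℕ) : ℝ) ≤ 2 * (Real.log X / Real.log 2) := by
    have h4 : 2 ^ (Nat.clog 2 X - 1) < X := Nat.pow_pred_clog_lt_self one_lt_two hX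
    have h5 : ((Nat.clog 2 X : ℕ) : ℝ) ≤ ((Nat.clog 2 X - 1 : ℕ) : ℝ) + 1 := by
      have h6 : Nat.clog 2 X ≤ (Nat.clog 2 X - 1) + 1 := by omega
      exact_mod_cast h6
    have h6 : (2 : ℝ) ^ (Nat.clog 2 X - 1) ≤ X := by exact_mod_cast h4.le
    have h7 : ((Nat.clog 2 X - 1 : ℕ) : ℝ) * Real.log 2 ≤ Real.log X := by
      rw [← Real.log_pow]
      exact Real.log_le_log (by positivity) h6
    have h8 : ((Nat.clog 2 X - 1 : ℕ) : ℝ) ≤ Real.log X / Real.log 2 := by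
      rw [le_div_iff₀ hl2]
      exact h7
    have h9 : 1 ≤ Real.log X / Real.log 2 := by
      rw [le_div_iff₀ hl2, one_mul]
      exact hlX
    linarith
  have h9 : 1 ≤ Real.log X / Real.log 2 := by
    rw [le_div_iff₀ hl2, one_mul]
    exact hlX
  have hk1 : (1 : ℝ) ≤ k := by exact_mod_cast hk
  have h10 : (((n0 : ℝ) + 2 * (s + 1) + 1 + 2 * κ) / Real.log 2) * k * Real.log X =
      k * (((n0 : ℝ) + 2 * (s + 1) + 1) * (Real.log X / Real.log 2)) +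
        (k * κ) * (2 * (Real.log X / Real.log 2)) := by ring
  rw [h10]
  have h11 : 0 ≤ (n0 : ℝ) + 2 * (s + 1) + 1 := by positivity
  have hkK : 0 ≤ (k : ℝ) * κ := by positivity
  have h12 := mul_le_mul_of_nonneg_left hcl hkK
  have h13 := mul_le_mul_of_nonneg_left h9 h11
  have h14 : 0 ≤ ((n0 : ℝ) + 2 * (s + 1) + 1) * (Real.log X / Real.log 2) :=
    le_trans (by rw [mul_one]; exact h11) h13
  have h15 := mul_le_mul_of_nonneg_right hk1 h14
  linarith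

end Pool.Agent.MZF
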